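import Pool.Graph.R_seed8.H491R3.Setup
import Pool.Graph.R_seed8.H491R3.InvL
import Pool.Graph.R_seed8.H491R3.Tiny

/-! Shifting the `β`-integral, with a partial sum of the Dirichlet series removed. -/

set_option autoImplicit false

namespace Pool.Agent.KS6_76.RT

open Complex MeasureTheory Set Pool.Agent.H491R3

theorem exp_l_leG {x b l R : ℝ} (hR : 1 ≤ R) (hx : 0 ≤ x) (hb : x ≤ b) (hl : l ≤ Real.log R) :
    Real.exp (x * l) ≤ R ^ b := by
  rw [Real.rpow_def_of_pos (by linarith)]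
  apply Real.exp_le_exp.2
  have h0 : 0 ≤ Real.log R := Real.log_nonneg hR
  nlinarith

theorem beta_extG (d : OddSqf) {a U V T b C M l R : ℝ} (ha0 : 0 < a) (hU : 0 < U) (hV : 0 ≤ V)
    (hTV : V ≤ T) (hb : a ≤ b) (hR : 1 ≤ R) (hl : l ≤ Real.log R) {F : ℂ → ℂ}
    (hF : DifferentiableOn ℂ F {z | 0 < z.re})
    (hM : ∀ x ∈ Icc a b, ∀ y ∈ Icc (T - V) (T + V), ‖F (x + y * I) - 1‖ ≤ M)
    (hC : ∀ y ∈ Icc (T - V) (T + V), ‖F (b + y * I) - 1‖ ≤ C) :
    ‖(∫ t in (T - V)..(T + V), KK U T (a + t * I) *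
        ee d (1 / 2 + (a + t * I)) * exp ((a + t * I) * l) *
        F (a + t * I)) -
      sg d * ((Real.sqrt Real.pi * U : ℝ) * exp (T * l * I) *
        (Real.exp (-(U ^ 2 * l ^ 2 / 4)) : ℝ))‖ ≤
      2 * V * (Real.exp (b ^ 2 / U ^ 2) * 2 * R ^ b * C) +
      2 * ((b - a) * (Real.exp ((b ^ 2 - V ^ 2) / U ^ 2) * 2 * R ^ b * M)) +
      2 * V * (Real.exp (a ^ 2 / U ^ 2) * Real.exp (-(Real.pi * (T - V))) *
        R ^ a) +
      Real.exp (a ^ 2 / U ^ 2) * R ^ a * Real.exp (-(V ^ 2 / (2 * U ^ 2))) *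
        (Real.sqrt (2 * Real.pi) * U) := by
  obtain ⟨e, he, hee⟩ := ee_eq d
  have hR0 : 0 < R := by linarith
  have hpath : Continuous (fun t : ℝ => ((a : ℂ) + t * I)) := by fun_prop
  have hcF : Continuous (fun t : ℝ => F (a + t * I)) := by
    have h1 : ContinuousOn F {z | 0 < z.re} := hF.continuousOn
    exact h1.comp_continuous hpath (fun t => by simpa using ha0)
  have hcK : Continuous (fun t : ℝ => KK U T (a + t * I)) := (KK_diff U T).continuous.comp hpath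
  have hcE : Continuous (fun t : ℝ => ee d (1 / 2 + (a + t * I))) :=
    (ee_diff d).continuous.comp hpath
  have hcl : Continuous (fun t : ℝ => exp ((a + t * I) * l)) := by fun_prop
  have hcp : Continuous (fun t : ℝ => exp (Real.pi * I * (1 / 2 + (a + t * I)))) := by fun_prop
  -- the three parts
  set f1 : ℂ → ℂ := fun z => KK U T z * ee d (1 / 2 + z) * exp (z * l) * (F z - 1) with hf1
  set g2 : ℝ → ℂ := fun t => e * (KK U T (a + t * I) *
    exp (Real.pi * I * (1 / 2 + (a + t * I))) * exp ((a + t * I) * l)) with hg2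
  set g3 : ℝ → ℂ := fun t => sg d * (KK U T (a + t * I) * exp ((a + t * I) * l)) with hg3
  have hi1 : IntervalIntegrable (fun t : ℝ => f1 (a + t * I)) volume (T - V) (T + V) := by
    apply Continuous.intervalIntegrable
    simp only [hf1]
    exact ((hcK.mul hcE).mul hcl).mul (hcF.sub continuous_const)
  have hi2 : IntervalIntegrable g2 volume (T - V) (T + V) := by
    apply Continuous.intervalIntegrable
    simp only [hg2]
    exact continuous_const.mul ((hcK.mul hcp).mul hcl)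
  have hi3 : IntervalIntegrable g3 volume (T - V) (T + V) := by
    apply Continuous.intervalIntegrable
    simp only [hg3]
    exact continuous_const.mul (hcK.mul hcl)
  have hsplit : (∫ t in (T - V)..(T + V), KK U T (a + t * I) *
        ee d (1 / 2 + (a + t * I)) * exp ((a + t * I) * l) * F (a + t * I)) =
      (∫ t in (T - V)..(T + V), f1 (a + t * I)) + (∫ t in (T - V)..(T + V), g2 t) +
      (∫ t in (T - V)..(T + V), g3 t) := by
    rw [← intervalIntegral.integral_add hi1 hi2, ← intervalIntegral.integral_add (hi1.add hi2) hi3]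
    apply intervalIntegral.integral_congr
    intro t _
    simp only [hf1, hg2, hg3, hee]
    ring
  rw [hsplit]
  -- bounds
  have hTV' : 0 ≤ T - V := by linarith
  have b1 : ‖∫ t in (T - V)..(T + V), f1 (a + t * I)‖ ≤
      ((T + V) - (T - V)) * (Real.exp (b ^ 2 / U ^ 2) * 2 * R ^ b * C) +
      2 * ((b - a) * (Real.exp ((b ^ 2 - V ^ 2) / U ^ 2) * 2 * R ^ b * M)) := by
    have hstrip : (uIcc a b ×ℂ uIcc (T - V) (T + V)) ⊆ {z : ℂ | 0 < z.re} := by
      intro z hz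
      rw [mem_reProdIm] at hz
      have := hz.1
      rw [uIcc_of_le hb] at this
      have h2 := this.1
      show 0 < z.re
      linarith
    apply rect_bound hb (by linarith)
    · have h1 : DifferentiableOn ℂ (fun z => KK U T z * ee d (1 / 2 + z) * exp (z * l))
          (uIcc a b ×ℂ uIcc (T - V) (T + V)) := by
        have : Differentiable ℂ (fun z => KK U T z * ee d (1 / 2 + z) * exp (z * l)) :=
          ((KK_diff U T).mul (ee_diff d)).mul (by fun_prop)
        exact this.differentiableOn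
      exact h1.mul ((hF.mono hstrip).sub (differentiableOn_const 1))
    · intro y hy
      simp only [hf1]
      rw [norm_mul, norm_mul, norm_mul, KK_norm U T b y hU, exp_l_norm]
      have hy0 : 0 ≤ y := by linarith [hy.1]
      have h1 : Real.exp ((b ^ 2 - (y - T) ^ 2) / U ^ 2) ≤ Real.exp (b ^ 2 / U ^ 2) := by
        apply Real.exp_le_exp.2
        gcongr
        nlinarith [sq_nonneg (y - T)]
      have h2 := exp_l_leG (x := b) (b := b) hR (ha0.le.trans hb) le_rfl hl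
      have h3 := hC y hy
      have h4 := ee_norm_le d (x := b) hy0
      gcongr
    · intro x hx
      simp only [hf1]
      rw [norm_mul, norm_mul, norm_mul, KK_norm U T x _ hU, exp_l_norm]
      have h1 : Real.exp ((x ^ 2 - ((T - V) - T) ^ 2) / U ^ 2) ≤
          Real.exp ((b ^ 2 - V ^ 2) / U ^ 2) := by
        apply Real.exp_le_exp.2
        apply div_le_div_of_nonneg_right _ (by positivity)
        have : x ^ 2 ≤ b ^ 2 := pow_le_pow_left₀ (ha0.le.trans hx.1) hx.2 2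
        nlinarith
      have hx0 : 0 ≤ x := ha0.le.trans hx.1
      have h2 := exp_l_leG hR hx0 hx.2 hl
      have h3 := hM x hx (T - V) ⟨le_rfl, by linarith⟩
      have h4 := ee_norm_le d (x := x) hTV'
      gcongr
    · intro x hx
      simp only [hf1]
      rw [norm_mul, norm_mul, norm_mul, KK_norm U T x _ hU, exp_l_norm]
      have h1 : Real.exp ((x ^ 2 - ((T + V) - T) ^ 2) / U ^ 2) ≤
          Real.exp ((b ^ 2 - V ^ 2) / U ^ 2) := by
        apply Real.exp_le_exp.2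
        apply div_le_div_of_nonneg_right _ (by positivity)
        have : x ^ 2 ≤ b ^ 2 := pow_le_pow_left₀ (ha0.le.trans hx.1) hx.2 2
        nlinarith
      have hx0 : 0 ≤ x := ha0.le.trans hx.1
      have h2 := exp_l_leG hR hx0 hx.2 hl
      have h3 := hM x hx (T + V) ⟨by linarith, le_rfl⟩
      have h4 := ee_norm_le d (x := x) (y := T + V) (by linarith)
      gcongr
  have hal := exp_l_leG (x := a) (b := a) (l := l) hR ha0.le le_rfl hl
  have b2 : ‖∫ t in (T - V)..(T + V), g2 t‖ ≤ (Real.exp (a ^ 2 / U ^ 2) *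
      Real.exp (-(Real.pi * (T - V))) * R ^ a) * |(T + V) - (T - V)| := by
    apply intervalIntegral.norm_integral_le_of_norm_le_const
    intro t ht
    rw [uIoc_of_le (by linarith)] at ht
    simp only [hg2]
    rw [norm_mul, he, one_mul, norm_mul, norm_mul, KK_norm U T a t hU, exp_l_norm, exp_pi_norm]
    have h1 : Real.exp ((a ^ 2 - (t - T) ^ 2) / U ^ 2) ≤ Real.exp (a ^ 2 / U ^ 2) := by
      apply Real.exp_le_exp.2
      gcongr
      nlinarith [sq_nonneg (t - T)]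
    have h2 : Real.exp (-(Real.pi * t)) ≤ Real.exp (-(Real.pi * (T - V))) := by
      apply Real.exp_le_exp.2
      have := Real.pi_pos
      nlinarith [ht.1]
    gcongr
  have b3 : ‖(∫ t in (T - V)..(T + V), g3 t) -
      sg d * ((Real.sqrt Real.pi * U : ℝ) * exp (T * l * I) *
        (Real.exp (-(U ^ 2 * l ^ 2 / 4)) : ℝ))‖ ≤
      Real.exp (a ^ 2 / U ^ 2) * R ^ a * Real.exp (-(V ^ 2 / (2 * U ^ 2))) *
        (Real.sqrt (2 * Real.pi) * U) := by
    simp only [hg3]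
    rw [intervalIntegral.integral_const_mul, ← mul_sub, norm_mul, sg_norm, one_mul]
    refine (gauss_seg hU hV a T l).trans ?_
    rw [Real.exp_add]
    gcongr
  have habs : |(T + V) - (T - V)| = 2 * V := by
    rw [abs_of_nonneg (by linarith)]; ring
  rw [habs] at b2
  calc _ = ‖(∫ t in (T - V)..(T + V), f1 (a + t * I)) + (∫ t in (T - V)..(T + V), g2 t) +
        ((∫ t in (T - V)..(T + V), g3 t) - sg d * ((Real.sqrt Real.pi * U : ℝ) *
          exp (T * l * I) * (Real.exp (-(U ^ 2 * l ^ 2 / 4)) : ℝ)))‖ := by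
        congr 1; ring
    _ ≤ ‖∫ t in (T - V)..(T + V), f1 (a + t * I)‖ + ‖∫ t in (T - V)..(T + V), g2 t‖ +
        ‖(∫ t in (T - V)..(T + V), g3 t) - sg d * ((Real.sqrt Real.pi * U : ℝ) *
          exp (T * l * I) * (Real.exp (-(U ^ 2 * l ^ 2 / 4)) : ℝ))‖ := norm_add₃_le
    _ ≤ _ := by
      have e1 : (T + V) - (T - V) = 2 * V := by ring
      rw [e1] at b1
      linarith

theorem log_le_half {r : ℝ} (hr : 1000 ≤ r) : Real.log r ≤ r / 2 := by
  have hr0 : 0 < r := by linarith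
  have h2 := Real.log_le_sub_one_of_pos (Real.sqrt_pos.2 hr0)
  have h3 : Real.log (Real.sqrt r) = Real.log r / 2 := Real.log_sqrt hr0.le
  have h4 : Real.sqrt r * Real.sqrt r = r := Real.mul_self_sqrt hr0.le
  have h5 : 4 ≤ Real.sqrt r := by
    apply Real.le_sqrt_of_sq_le
    linarith
  nlinarith

theorem rr_le {r : ℝ} (hr : 1000 ≤ r) : r ^ r ≤ Real.exp (r ^ 2 / 2) := by
  rw [Real.rpow_def_of_pos (by linarith)]
  apply Real.exp_le_exp.2
  have := log_le_half hr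
  nlinarith

theorem beta_errG {r a C M : ℝ} {m k : ℕ} (hr : 1000 ≤ r) (hm : 1 ≤ m) (ha0 : 0 < a) (ha1 : a ≤ 1 / 2)
    (hC0 : 0 ≤ C) (hM0 : 0 ≤ M) (hC : r ^ r * C ≤ r ^ k * Real.exp (-(r / 4))) (hM : M ≤ r ^ k) :
    2 * r ^ (m + 1) * (Real.exp (r ^ 2 / (r ^ m) ^ 2) * 2 * r ^ r * C) +
      2 * ((r - a) * (Real.exp ((r ^ 2 - (r ^ (m + 1)) ^ 2) / (r ^ m) ^ 2) * 2 * r ^ r * M)) +
      2 * r ^ (m + 1) * (Real.exp (a ^ 2 / (r ^ m) ^ 2) *
        Real.exp (-(Real.pi * (r ^ (m + 2) - r ^ (m + 1)))) * r ^ a) +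
      Real.exp (a ^ 2 / (r ^ m) ^ 2) * r ^ a *
        Real.exp (-((r ^ (m + 1)) ^ 2 / (2 * (r ^ m) ^ 2))) * (Real.sqrt (2 * Real.pi) * r ^ m) ≤
    r ^ (m + k + 3) * Real.exp (-(r / 4)) := by
  have hr0 : 0 < r := by linarith
  have hr1 : 1 ≤ r := by linarith
  set τ := Real.exp (-(r / 4)) with hτ
  have hτ0 : 0 < τ := Real.exp_pos _
  have hrm : r ≤ r ^ m := by
    calc r = r ^ 1 := (pow_one r).symm
      _ ≤ r ^ m := pow_le_pow_right₀ hr1 hm
  have e0 : r ^ 2 / (r ^ m) ^ 2 ≤ 1 / 2 → Real.exp (r ^ 2 / (r ^ m) ^ 2) ≤ 2 := fun h =>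
    le_trans (Real.exp_le_exp.2 h) exp_half_le
  have e1 : Real.exp (r ^ 2 / (r ^ m) ^ 2) ≤ 3 := by
    have h1 : r ^ 2 / (r ^ m) ^ 2 ≤ 1 := by
      rw [div_le_one (by positivity)]
      exact pow_le_pow_left₀ hr0.le hrm 2
    have := Real.exp_le_exp.2 h1
    have := Real.exp_one_lt_d9
    linarith
  have e2 : Real.exp (a ^ 2 / (r ^ m) ^ 2) ≤ 3 := by
    refine le_trans (Real.exp_le_exp.2 ?_) e1
    apply div_le_div_of_nonneg_right _ (by positivity)
    exact pow_le_pow_left₀ ha0.le (by linarith) 2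
  have e3 : r ^ a ≤ r := by
    calc r ^ a ≤ r ^ (1 : ℝ) := Real.rpow_le_rpow_of_exponent_le hr1 (by linarith)
      _ = r := Real.rpow_one r
  have e4 : Real.exp ((r ^ 2 - (r ^ (m + 1)) ^ 2) / (r ^ m) ^ 2) * r ^ r ≤ 3 * τ := by
    have h1 : (r ^ 2 - (r ^ (m + 1)) ^ 2) / (r ^ m) ^ 2 = r ^ 2 / (r ^ m) ^ 2 + -(r ^ 2) := by
      field_simp
      ring
    rw [h1, Real.exp_add]
    have h2 := rr_le hr
    calc Real.exp (r ^ 2 / (r ^ m) ^ 2) * Real.exp (-(r ^ 2)) * r ^ r ≤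
        3 * Real.exp (-(r ^ 2)) * Real.exp (r ^ 2 / 2) := by gcongr
      _ = 3 * Real.exp (-(r ^ 2) + r ^ 2 / 2) := by rw [Real.exp_add]; ring
      _ ≤ 3 * τ := by
        rw [hτ]
        have : -(r ^ 2) + r ^ 2 / 2 ≤ -(r / 4) := by nlinarith
        have := Real.exp_le_exp.2 this
        linarith
  have e5 : Real.exp (-(Real.pi * (r ^ (m + 2) - r ^ (m + 1)))) ≤ τ := by
    apply Real.exp_le_exp.2
    have h1 : r ^ (m + 2) - r ^ (m + 1) = r ^ m * (r * (r - 1)) := by ring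
    have h2 : 1 ≤ r * (r - 1) := by nlinarith
    have h3 : r ≤ r ^ m * (r * (r - 1)) := by nlinarith
    have h4 : 3 < Real.pi := Real.pi_gt_three
    rw [h1]
    nlinarith
  have e6 : Real.exp (-((r ^ (m + 1)) ^ 2 / (2 * (r ^ m) ^ 2))) ≤ τ := by
    apply Real.exp_le_exp.2
    have h1 : (r ^ (m + 1)) ^ 2 / (2 * (r ^ m) ^ 2) = r ^ 2 / 2 := by
      field_simp
      ring
    rw [h1]
    nlinarith
  have e7 : Real.sqrt (2 * Real.pi) ≤ 3 := by
    rw [Real.sqrt_le_left (by norm_num)]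
    have := Real.pi_lt_d2
    linarith
  have hk : (1 : ℝ) ≤ r ^ k := one_le_pow₀ hr1
  have hmp : (0 : ℝ) < r ^ m := by positivity
  have t1 : 2 * r ^ (m + 1) * (Real.exp (r ^ 2 / (r ^ m) ^ 2) * 2 * r ^ r * C) ≤
      12 * (r ^ (m + k + 2) * τ) := by
    calc 2 * r ^ (m + 1) * (Real.exp (r ^ 2 / (r ^ m) ^ 2) * 2 * r ^ r * C) =
        2 * r ^ (m + 1) * (Real.exp (r ^ 2 / (r ^ m) ^ 2) * 2 * (r ^ r * C)) := by ring
      _ ≤ 2 * r ^ (m + 1) * (3 * 2 * (r ^ k * τ)) := by gcongr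
      _ = 12 * (r ^ (m + k + 1) * τ) := by ring
      _ ≤ 12 * (r ^ (m + k + 2) * τ) := by
        have : r ^ (m + k + 1) ≤ r ^ (m + k + 2) := pow_le_pow_right₀ hr1 (by omega)
        gcongr
  have t2 : 2 * ((r - a) * (Real.exp ((r ^ 2 - (r ^ (m + 1)) ^ 2) / (r ^ m) ^ 2) * 2 * r ^ r * M)) ≤
      12 * (r ^ (m + k + 2) * τ) := by
    calc _ = 4 * (r - a) * ((Real.exp ((r ^ 2 - (r ^ (m + 1)) ^ 2) / (r ^ m) ^ 2) * r ^ r) * M) := by
          ring
      _ ≤ 4 * r * ((3 * τ) * r ^ k) := by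
          apply mul_le_mul _ _ (by positivity) (by positivity)
          · linarith
          · exact mul_le_mul e4 hM hM0 (by positivity)
      _ = 12 * (r ^ (k + 1) * τ) := by ring
      _ ≤ 12 * (r ^ (m + k + 2) * τ) := by
        have : r ^ (k + 1) ≤ r ^ (m + k + 2) := pow_le_pow_right₀ hr1 (by omega)
        gcongr
  have t3 : 2 * r ^ (m + 1) * (Real.exp (a ^ 2 / (r ^ m) ^ 2) *
        Real.exp (-(Real.pi * (r ^ (m + 2) - r ^ (m + 1)))) * r ^ a) ≤
      6 * (r ^ (m + k + 2) * τ) := by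
    calc _ ≤ 2 * r ^ (m + 1) * (3 * τ * r) := by gcongr
      _ = 6 * (r ^ (m + 2) * τ) := by ring
      _ ≤ 6 * (r ^ (m + k + 2) * τ) := by
        have : r ^ (m + 2) ≤ r ^ (m + k + 2) := pow_le_pow_right₀ hr1 (by omega)
        gcongr
  have t4 : Real.exp (a ^ 2 / (r ^ m) ^ 2) * r ^ a *
        Real.exp (-((r ^ (m + 1)) ^ 2 / (2 * (r ^ m) ^ 2))) * (Real.sqrt (2 * Real.pi) * r ^ m) ≤
      9 * (r ^ (m + k + 2) * τ) := by
    calc _ ≤ 3 * r * τ * (3 * r ^ m) := by gcongr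
      _ = 9 * (r ^ (m + 1) * τ) := by ring
      _ ≤ 9 * (r ^ (m + k + 2) * τ) := by
        have : r ^ (m + 1) ≤ r ^ (m + k + 2) := pow_le_pow_right₀ hr1 (by omega)
        gcongr
  have t5 : 39 * (r ^ (m + k + 2) * τ) ≤ r ^ (m + k + 3) * τ := by
    have : r ^ (m + k + 3) * τ = r * (r ^ (m + k + 2) * τ) := by ring
    rw [this]
    apply mul_le_mul_of_nonneg_right _ (by positivity)
    linarith
  linarith

/-- the term `n^(-1/2-z)` -/
noncomputable def tn (n : ℕ) (z : ℂ) : ℂ :=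
  (((Real.sqrt n)⁻¹ : ℝ) : ℂ) * exp (-(z * (Real.log n : ℝ)))

theorem tn_eq {n : ℕ} (hn : 0 < n) (z : ℂ) : (n : ℂ) ^ (-(1 / 2 + z)) = tn n z := by
  have hn' : (n : ℂ) ≠ 0 := by exact_mod_cast hn.ne'
  have hn0 : (0 : ℝ) < n := by exact_mod_cast hn
  unfold tn
  rw [neg_add, cpow_add _ _ hn']
  congr 1
  · have : (-(1 / 2) : ℂ) = ((-(1 / 2) : ℝ) : ℂ) := by push_cast; rfl
    rw [this, ← ofReal_natCast, ← ofReal_cpow hn0.le, Real.rpow_neg hn0.le, ← Real.sqrt_eq_rpow]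
  · rw [cpow_def_of_ne_zero hn', natCast_log]
    congr 1
    ring

theorem L_sub_partial (d : OddSqf) {s : ℂ} (hs : 2 ≤ s.re) {N : ℕ} (hN : 1 ≤ N) :
    ‖L d s - ∑ n ∈ Finset.Icc 1 N, (kr d n : ℂ) * (n : ℂ) ^ (-s)‖ ≤
      2 * (N : ℝ) ^ (2 - s.re) := by
  have hre : 1 < s.re := by linarith
  have hN0 : (0 : ℝ) < N := by exact_mod_cast hN
  unfold L
  rw [DirichletCharacter.LFunction_eq_LSeries _ hre]
  have hsum : LSeriesSummable (fun n : ℕ => chi8 d (n : ZMod (8 * d.1.natAbs))) s :=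
    DirichletCharacter.LSeriesSummable_of_one_lt_re _ hre
  unfold LSeries
  have hsplit := hsum.sum_add_tsum_nat_add (N + 1)
  have hfin : ∑ i ∈ Finset.range (N + 1), LSeries.term
      (fun n : ℕ => chi8 d (n : ZMod (8 * d.1.natAbs))) s i =
      ∑ n ∈ Finset.Icc 1 N, (kr d n : ℂ) * (n : ℂ) ^ (-s) := by
    rw [Finset.range_eq_Ico, Finset.sum_eq_sum_Ico_succ_bot (by omega), LSeries.term_zero, zero_add]
    have : Finset.Ico (0 + 1) (N + 1) = Finset.Icc 1 N := by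
      ext x; rw [Finset.mem_Ico, Finset.mem_Icc]; omega
    rw [this]
    apply Finset.sum_congr rfl
    intro n hn
    rw [Finset.mem_Icc] at hn
    rw [LSeries.term_of_ne_zero (by omega), chi_kr, cpow_neg, div_eq_mul_inv]
  rw [hfin] at hsplit
  rw [← hsplit, add_sub_cancel_left]
  have hZ : HasSum (fun n : ℕ => 1 / ((n : ℝ)) ^ 2) (Real.pi ^ 2 / 6) := hasSum_zeta_two
  have hZ2 := (hasSum_nat_add_iff' (N + 1)).2 hZ
  have hZ3 := hZ2.mul_right ((N : ℝ) ^ (2 - s.re))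
  have hb : ‖∑' n : ℕ, LSeries.term (fun n : ℕ => chi8 d (n : ZMod (8 * d.1.natAbs))) s
      (n + (N + 1))‖ ≤
      (Real.pi ^ 2 / 6 - ∑ i ∈ Finset.range (N + 1), 1 / ((i : ℝ)) ^ 2) *
        (N : ℝ) ^ (2 - s.re) := by
    apply tsum_of_norm_bounded hZ3
    intro n
    have hn : (0 : ℝ) < ((n + (N + 1) : ℕ) : ℝ) := by positivity
    rw [LSeries.term_of_ne_zero (by omega), norm_div, norm_natCast_cpow_of_pos (by omega)]
    have h5 : ‖chi8 d ((n + (N + 1) : ℕ) : ZMod (8 * d.1.natAbs))‖ ≤ 1 :=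
      DirichletCharacter.norm_le_one _ _
    have h6 : ((n + (N + 1) : ℕ) : ℝ) ^ (2 : ℝ) * (N : ℝ) ^ (s.re - 2) ≤
        ((n + (N + 1) : ℕ) : ℝ) ^ s.re := by
      have : s.re = 2 + (s.re - 2) := by ring
      conv_rhs => rw [this, Real.rpow_add hn]
      apply mul_le_mul_of_nonneg_left _ (by positivity)
      apply Real.rpow_le_rpow hN0.le _ (by linarith)
      push_cast
      have : (0 : ℝ) ≤ n := Nat.cast_nonneg n
      linarith
    have hNs : 0 < (N : ℝ) ^ (s.re - 2) := Real.rpow_pos_of_pos hN0 _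
    calc ‖chi8 d ((n + (N + 1) : ℕ) : ZMod (8 * d.1.natAbs))‖ / ((n + (N + 1) : ℕ) : ℝ) ^ s.re ≤
        1 / (((n + (N + 1) : ℕ) : ℝ) ^ (2 : ℝ) * (N : ℝ) ^ (s.re - 2)) :=
          div_le_div₀ zero_le_one h5 (by positivity) h6
      _ = 1 / ((n + (N + 1) : ℕ) : ℝ) ^ 2 * (N : ℝ) ^ (2 - s.re) := by
          rw [show 2 - s.re = -(s.re - 2) by ring, Real.rpow_neg hN0.le]
          have : ((n + (N + 1) : ℕ) : ℝ) ^ (2 : ℝ) = ((n + (N + 1) : ℕ) : ℝ) ^ 2 := by
            rw [← Real.rpow_natCast]; norm_num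
          rw [this, one_div, one_div, mul_inv]
  refine hb.trans (mul_le_mul_of_nonneg_right ?_ (by positivity))
  have h1 : 0 ≤ ∑ i ∈ Finset.range (N + 1), 1 / ((i : ℝ)) ^ 2 :=
    Finset.sum_nonneg fun i _ => by positivity
  have : Real.pi < 3.15 := Real.pi_lt_d2
  have h0 := Real.pi_pos
  nlinarith

/-- the part of `L` beyond the removed terms -/
noncomputable def FL (d : OddSqf) (N : ℕ) (z : ℂ) : ℂ :=
  L d (1 / 2 + z) - ∑ n ∈ Finset.Icc 2 N, (kr d n : ℂ) * tn n z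

theorem kr_one (d : OddSqf) : kr d 1 = 1 := by
  unfold kr
  rw [kron8_one]
  norm_num

theorem tn_one (z : ℂ) : tn 1 z = 1 := by
  unfold tn
  simp

theorem FL_sub_one (d : OddSqf) {N : ℕ} (hN : 1 ≤ N) {z : ℂ} (hz : 3 / 2 ≤ z.re) :
    ‖FL d N z - 1‖ ≤ 2 * (N : ℝ) ^ (3 / 2 - z.re) := by
  have hre : (1 / 2 + z).re = 1 / 2 + z.re := by simp
  have h := L_sub_partial d (s := 1 / 2 + z) (by rw [hre]; linarith) hN
  rw [hre] at h
  have e : (2 : ℝ) - (1 / 2 + z.re) = 3 / 2 - z.re := by ring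
  rw [e] at h
  refine le_trans (le_of_eq ?_) h
  congr 1
  unfold FL
  have hI : Finset.Icc 1 N = insert 1 (Finset.Icc 2 N) := by
    ext x; simp [Finset.mem_Icc]; omega
  rw [hI, Finset.sum_insert (by simp), kr_one, Nat.cast_one, one_cpow]
  have : ∑ n ∈ Finset.Icc 2 N, (kr d n : ℂ) * tn n z =
      ∑ n ∈ Finset.Icc 2 N, (kr d n : ℂ) * (n : ℂ) ^ (-(1 / 2 + z)) := by
    apply Finset.sum_congr rfl
    intro n hn
    rw [Finset.mem_Icc] at hn
    rw [tn_eq (by omega)]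
  rw [this]
  push_cast
  ring

theorem tn_diff (n : ℕ) : Differentiable ℂ (tn n) := by
  unfold tn
  fun_prop

theorem FL_diff (d : OddSqf) (N : ℕ) : Differentiable ℂ (FL d N) := by
  unfold FL
  apply Differentiable.sub
  · exact (L_diff d).comp (by fun_prop)
  · exact Differentiable.fun_sum fun n _ => (tn_diff n).const_mul _

theorem tn_norm_le {n : ℕ} (hn : 1 ≤ n) {z : ℂ} (hz : 0 ≤ z.re) : ‖tn n z‖ ≤ 1 := by
  have hn1 : (1 : ℝ) ≤ n := by exact_mod_cast hn
  unfold tn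
  rw [norm_mul, norm_real, Real.norm_eq_abs, Complex.norm_exp, neg_re, re_mul_ofReal]
  have h1 : |(Real.sqrt n)⁻¹| ≤ 1 := by
    rw [abs_of_nonneg (by positivity)]
    apply inv_le_one_of_one_le₀
    rw [Real.one_le_sqrt]
    exact hn1
  have h2 : Real.exp (-(z.re * Real.log n)) ≤ 1 := by
    rw [Real.exp_le_one_iff]
    have := mul_nonneg hz (Real.log_nonneg hn1)
    linarith
  calc _ ≤ (1 : ℝ) * 1 := mul_le_mul h1 h2 (Real.exp_pos _).le zero_le_one
    _ = 1 := one_mul 1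

theorem kr_norm (d : OddSqf) (n : ℕ) : ‖(kr d n : ℂ)‖ ≤ 1 := by
  rw [norm_real, Real.norm_eq_abs]
  exact kr_abs d n

/-- the sum of the Gaussian kernels at `l - log n` -/
noncomputable def SL (d : OddSqf) (N : ℕ) (U T l : ℝ) : ℂ :=
  ∑ n ∈ Finset.Icc 1 N, (kr d n : ℂ) * (((Real.sqrt n)⁻¹ : ℝ) : ℂ) * Kap U T (l - Real.log n)

/-- the `β`-integral with the full `L`-function -/
theorem beta_LG (d : OddSqf) {a : ℝ} (ha0 : 0 < a) (ha1 : a ≤ 1 / 2) {m : ℕ} (hm : 1 ≤ m) {r : ℕ}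
    (hr : 1000 ≤ (r : ℝ)) (hd : |(d.1 : ℝ)| ≤ (r : ℝ) ^ (m + 5)) {l : ℝ} (hl : l ≤ Real.log r) :
    ‖(∫ t in ((r : ℝ) ^ (m + 2) - (r : ℝ) ^ (m + 1))..((r : ℝ) ^ (m + 2) + (r : ℝ) ^ (m + 1)),
        KK ((r : ℝ) ^ m) ((r : ℝ) ^ (m + 2)) (a + t * I) *
        ee d (1 / 2 + (a + t * I)) * exp ((a + t * I) * l) * L d (1 / 2 + (a + t * I))) -
      sg d * (((Real.sqrt Real.pi * (r : ℝ) ^ m : ℝ) : ℂ) *
        SL d (2 * r) ((r : ℝ) ^ m) ((r : ℝ) ^ (m + 2)) l)‖ ≤
      (r : ℝ) ^ (3 * m + 12) * Real.exp (-((r : ℝ) / 4)) := by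
  have hr0 : (0 : ℝ) < r := by linarith
  have hr1 : (1 : ℝ) ≤ r := by linarith
  have hrn : 1 ≤ r := by exact_mod_cast hr1
  set U := (r : ℝ) ^ m with hU
  set V := (r : ℝ) ^ (m + 1) with hV
  set T := (r : ℝ) ^ (m + 2) with hT
  have hU0 : 0 < U := by positivity
  have hV0 : 0 ≤ V := by positivity
  have hTV : V ≤ T := pow_le_pow_right₀ hr1 (by omega)
  have hT0 : 0 < T := by positivity
  set τ := Real.exp (-((r : ℝ) / 4)) with hτ
  have hτ0 : 0 < τ := Real.exp_pos _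
  have hrT : (r : ℝ) ≤ T := by
    calc (r : ℝ) = (r : ℝ) ^ 1 := (pow_one _).symm
      _ ≤ _ := pow_le_pow_right₀ hr1 (by omega)
  -- the main part
  have key1 := beta_extG d (l := l) (R := (r : ℝ)) (b := (r : ℝ)) (M := (r : ℝ) ^ (2 * m + 8))
    (C := 2 * ((2 * r : ℕ) : ℝ) ^ (3 / 2 - (r : ℝ))) (F := FL d (2 * r)) ha0 hU0 hV0 hTV
    (by linarith) hr1 hl (FL_diff d _).differentiableOn ?_ ?_
  rotate_left
  · -- on the rectangle
    intro x hx y hy
    have hx0 : 0 ≤ x := by linarith [hx.1]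
    have hre : (1 / 2 + ((x : ℂ) + y * I)).re = 1 / 2 + x := by simp
    have him : (1 / 2 + ((x : ℂ) + y * I)).im = y := by simp
    have h2 := L_growth d (s := 1 / 2 + ((x : ℂ) + y * I)) (by rw [hre]; linarith)
    rw [hre] at h2
    have h3 : ‖1 / 2 + ((x : ℂ) + y * I)‖ ≤ 4 * T := by
      refine (norm_le_abs_re_add_abs_im _).trans ?_
      rw [hre, him, abs_of_pos (by linarith), abs_of_nonneg (by linarith [hy.1])]
      linarith [hx.2, hy.2]
    have hq : qq d ≤ 8 * (r : ℝ) ^ (m + 5) := by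
      unfold qq
      have : ((d.1.natAbs : ℕ) : ℝ) = |(d.1 : ℝ)| := by
        rw [Nat.cast_natAbs]; push_cast; rfl
      push_cast
      rw [this]
      linarith
    have hq0 := qq_pos d
    have h5p : (1 : ℝ) ≤ (r : ℝ) ^ (m + 5) := one_le_pow₀ hr1
    have h4 : (qq d + 1) / (1 / 2 + x) ≤ 18 * (r : ℝ) ^ (m + 5) := by
      rw [div_le_iff₀ (by linarith)]
      nlinarith
    have h5 : ‖L d (1 / 2 + ((x : ℂ) + y * I))‖ ≤ (4 * T) * (18 * (r : ℝ) ^ (m + 5)) := by
      refine h2.trans (mul_le_mul h3 h4 ?_ (by positivity))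
      apply div_nonneg (by linarith) (by linarith)
    have h6 : ‖∑ n ∈ Finset.Icc 2 (2 * r), (kr d n : ℂ) * tn n ((x : ℂ) + y * I)‖ ≤
        2 * (r : ℝ) := by
      refine (norm_sum_le _ _).trans ?_
      calc ∑ n ∈ Finset.Icc 2 (2 * r), ‖(kr d n : ℂ) * tn n ((x : ℂ) + y * I)‖ ≤
          ∑ n ∈ Finset.Icc 2 (2 * r), (1 : ℝ) := by
            apply Finset.sum_le_sum
            intro n hn
            rw [Finset.mem_Icc] at hn
            rw [norm_mul]
            have a1 := kr_norm d n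
            have a2 := tn_norm_le (n := n) (by omega) (z := (x : ℂ) + y * I) (by simpa using hx0)
            calc _ ≤ (1 : ℝ) * 1 := mul_le_mul a1 a2 (norm_nonneg _) zero_le_one
              _ = 1 := one_mul 1
        _ ≤ 2 * (r : ℝ) := by
            rw [Finset.sum_const, Nat.card_Icc, nsmul_eq_mul, mul_one]
            have : 2 * r + 1 - 2 ≤ 2 * r := by omega
            exact_mod_cast this
    unfold FL
    refine (norm_sub_le _ _).trans ?_
    rw [norm_one]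
    have h7 := norm_sub_le (L d (1 / 2 + ((x : ℂ) + y * I)))
      (∑ n ∈ Finset.Icc 2 (2 * r), (kr d n : ℂ) * tn n ((x : ℂ) + y * I))
    have h8 : (4 * T) * (18 * (r : ℝ) ^ (m + 5)) + 2 * r + 1 ≤ (r : ℝ) ^ (2 * m + 8) := by
      have h9 : (r : ℝ) ≤ (r : ℝ) ^ (2 * m + 7) := by
        calc (r : ℝ) = (r : ℝ) ^ 1 := (pow_one _).symm
          _ ≤ _ := pow_le_pow_right₀ hr1 (by omega)
      calc (4 * T) * (18 * (r : ℝ) ^ (m + 5)) + 2 * r + 1 =
          72 * (r : ℝ) ^ (2 * m + 7) + 2 * r + 1 := by rw [hT]; ring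
        _ ≤ 75 * (r : ℝ) ^ (2 * m + 7) := by linarith
        _ ≤ r * (r : ℝ) ^ (2 * m + 7) := by
          apply mul_le_mul_of_nonneg_right _ (by positivity)
          linarith
        _ = (r : ℝ) ^ (2 * m + 8) := by ring
    linarith
  · -- at the right edge
    intro y hy
    have hre : (((r : ℝ) : ℂ) + y * I).re = r := by simp
    have h2 := FL_sub_one d (N := 2 * r) (by omega) (z := ((r : ℝ) : ℂ) + y * I)
      (by rw [hre]; linarith)
    rw [hre] at h2
    exact h2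
  have hC : (r : ℝ) ^ (r : ℝ) * (2 * ((2 * r : ℕ) : ℝ) ^ (3 / 2 - (r : ℝ))) ≤
      (r : ℝ) ^ (2 * m + 8) * τ := by
    have h2r : ((2 * r : ℕ) : ℝ) = 2 * (r : ℝ) := by push_cast; rfl
    rw [h2r]
    have h2r0 : (0 : ℝ) < 2 * r := by linarith
    have e1 : (2 * (r : ℝ)) ^ (3 / 2 - (r : ℝ)) ≤
        (2 * (r : ℝ)) ^ (2 : ℕ) * ((2 * (r : ℝ)) ^ (r : ℝ))⁻¹ := by
      rw [sub_eq_add_neg, Real.rpow_add h2r0, Real.rpow_neg h2r0.le]
      apply mul_le_mul_of_nonneg_right _ (by positivity)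
      rw [← Real.rpow_natCast]
      apply Real.rpow_le_rpow_of_exponent_le (by linarith)
      norm_num
    have e2 : (r : ℝ) ^ (r : ℝ) * ((2 * (r : ℝ)) ^ (r : ℝ))⁻¹ = (2 : ℝ) ^ (-(r : ℝ)) := by
      rw [Real.mul_rpow (by norm_num) hr0.le, mul_inv, Real.rpow_neg (by norm_num)]
      have : (r : ℝ) ^ (r : ℝ) ≠ 0 := (Real.rpow_pos_of_pos hr0 _).ne'
      field_simp
    have e3 : (2 : ℝ) ^ (-(r : ℝ)) ≤ τ := by
      rw [hτ, Real.rpow_def_of_pos (by norm_num)]
      apply Real.exp_le_exp.2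
      have : (0.69 : ℝ) < Real.log 2 := by
        have := Real.log_two_gt_d9
        linarith
      nlinarith
    calc (r : ℝ) ^ (r : ℝ) * (2 * (2 * (r : ℝ)) ^ (3 / 2 - (r : ℝ))) ≤
        (r : ℝ) ^ (r : ℝ) * (2 * ((2 * (r : ℝ)) ^ (2 : ℕ) * ((2 * (r : ℝ)) ^ (r : ℝ))⁻¹)) := by
          gcongr
      _ = 8 * (r : ℝ) ^ 2 * ((r : ℝ) ^ (r : ℝ) * ((2 * (r : ℝ)) ^ (r : ℝ))⁻¹) := by ring
      _ = 8 * (r : ℝ) ^ 2 * (2 : ℝ) ^ (-(r : ℝ)) := by rw [e2]
      _ ≤ r * (r : ℝ) ^ 2 * τ := by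
        have : (8 : ℝ) ≤ r := by linarith
        gcongr
      _ = (r : ℝ) ^ 3 * τ := by ring
      _ ≤ (r : ℝ) ^ (2 * m + 8) * τ := by
        have : (r : ℝ) ^ 3 ≤ (r : ℝ) ^ (2 * m + 8) := pow_le_pow_right₀ hr1 (by omega)
        gcongr
  have err1 := beta_errG (r := (r : ℝ)) (a := a) (m := m) (k := 2 * m + 8)
    (M := (r : ℝ) ^ (2 * m + 8)) hr hm ha0 ha1 (by positivity) (by positivity) hC le_rfl
  have K1 := key1.trans err1
  -- the removed terms
  have hterm : ∀ n ∈ Finset.Icc 2 (2 * r),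
      ‖(∫ t in (T - V)..(T + V), KK U T (a + t * I) * ee d (1 / 2 + (a + t * I)) *
        exp ((a + t * I) * l) * tn n (a + t * I)) -
      sg d * (((Real.sqrt Real.pi * U : ℝ) : ℂ) * ((((Real.sqrt n)⁻¹ : ℝ) : ℂ) *
        Kap U T (l - Real.log n)))‖ ≤ (r : ℝ) ^ (m + 3) * τ := by
    intro n hn
    rw [Finset.mem_Icc] at hn
    have hn1 : (1 : ℝ) ≤ n := by
      have : 1 ≤ n := by omega
      exact_mod_cast this
    have hl2 : l - Real.log n ≤ Real.log r := by
      have := Real.log_nonneg hn1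
      linarith
    have k2 := beta_extG d (l := l - Real.log n) (R := (r : ℝ)) (b := (r : ℝ)) (M := 0) (C := 0)
      (F := fun _ => 1) ha0 hU0 hV0 hTV (by linarith) hr1 hl2 (differentiableOn_const 1)
      (by intro x _ y _; simp) (by intro y _; simp)
    have err2 := beta_errG (r := (r : ℝ)) (a := a) (m := m) (k := 0) (C := 0) (M := 0) hr hm ha0 ha1
      le_rfl le_rfl (by rw [mul_zero]; positivity) (by positivity)
    have k3 := k2.trans err2
    have e1 : (∫ t in (T - V)..(T + V), KK U T (a + t * I) * ee d (1 / 2 + (a + t * I)) *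
        exp ((a + t * I) * l) * tn n (a + t * I)) = (((Real.sqrt n)⁻¹ : ℝ) : ℂ) *
        ∫ t in (T - V)..(T + V), KK U T (a + t * I) * ee d (1 / 2 + (a + t * I)) *
        exp ((a + t * I) * ((l - Real.log n : ℝ) : ℂ)) * 1 := by
      rw [← intervalIntegral.integral_const_mul]
      apply intervalIntegral.integral_congr
      intro t _
      simp only
      unfold tn
      have : exp (((a : ℂ) + t * I) * ((l - Real.log n : ℝ) : ℂ)) =
          exp (((a : ℂ) + t * I) * l) * exp (-(((a : ℂ) + t * I) * (Real.log n : ℝ))) := by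
        rw [← exp_add]
        congr 1
        push_cast
        ring
      rw [this]
      ring
    have e2 : sg d * (((Real.sqrt Real.pi * U : ℝ) : ℂ) * ((((Real.sqrt n)⁻¹ : ℝ) : ℂ) *
        Kap U T (l - Real.log n))) = (((Real.sqrt n)⁻¹ : ℝ) : ℂ) *
        (sg d * ((Real.sqrt Real.pi * U : ℝ) * exp (T * ((l - Real.log n : ℝ) : ℂ) * I) *
        (Real.exp (-(U ^ 2 * (l - Real.log n) ^ 2 / 4)) : ℝ))) := by
      unfold Kap
      ring
    rw [e1, e2, ← mul_sub, norm_mul, norm_real, Real.norm_eq_abs, abs_of_nonneg (by positivity)]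
    have h1 : (Real.sqrt n)⁻¹ ≤ 1 := by
      apply inv_le_one_of_one_le₀
      rw [Real.one_le_sqrt]
      exact hn1
    have k4 := mul_le_mul h1 k3 (norm_nonneg _) zero_le_one
    rw [one_mul] at k4
    exact k4
  -- combine
  have hpath : Continuous (fun t : ℝ => ((a : ℂ) + t * I)) := by fun_prop
  have hcK : Continuous (fun t : ℝ => KK U T (a + t * I)) := (KK_diff U T).continuous.comp hpath
  have hcE : Continuous (fun t : ℝ => ee d (1 / 2 + (a + t * I))) :=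
    (ee_diff d).continuous.comp hpath
  have hcl : Continuous (fun t : ℝ => exp ((a + t * I) * l)) := by fun_prop
  have hbase := (hcK.mul hcE).mul hcl
  have hcF : Continuous (fun t : ℝ => FL d (2 * r) (a + t * I)) :=
    (FL_diff d _).continuous.comp hpath
  have hct : ∀ n, Continuous (fun t : ℝ => tn n (a + t * I)) := fun n =>
    (tn_diff n).continuous.comp hpath
  have hsplit : (∫ t in (T - V)..(T + V), KK U T (a + t * I) * ee d (1 / 2 + (a + t * I)) *
        exp ((a + t * I) * l) * L d (1 / 2 + (a + t * I))) =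
      (∫ t in (T - V)..(T + V), KK U T (a + t * I) * ee d (1 / 2 + (a + t * I)) *
        exp ((a + t * I) * l) * FL d (2 * r) (a + t * I)) +
      ∑ n ∈ Finset.Icc 2 (2 * r), (kr d n : ℂ) *
        ∫ t in (T - V)..(T + V), KK U T (a + t * I) * ee d (1 / 2 + (a + t * I)) *
        exp ((a + t * I) * l) * tn n (a + t * I) := by
    simp_rw [← intervalIntegral.integral_const_mul]
    rw [← intervalIntegral.integral_finsetSum, ← intervalIntegral.integral_add]
    · apply intervalIntegral.integral_congr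
      intro t _
      simp only
      unfold FL
      rw [mul_sub, Finset.mul_sum]
      have : ∑ i ∈ Finset.Icc 2 (2 * r), (kr d i : ℂ) * (KK U T (a + t * I) *
          ee d (1 / 2 + (a + t * I)) * exp ((a + t * I) * l) * tn i (a + t * I)) =
          ∑ i ∈ Finset.Icc 2 (2 * r), KK U T (a + t * I) * ee d (1 / 2 + (a + t * I)) *
          exp ((a + t * I) * l) * ((kr d i : ℂ) * tn i (a + t * I)) := by
        apply Finset.sum_congr rfl
        intro i _
        ring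
      rw [this]
      ring
    · exact (hbase.mul hcF).intervalIntegrable _ _
    · exact (continuous_finsetSum _ fun n _ =>
        continuous_const.mul (hbase.mul (hct n))).intervalIntegrable _ _
    · intro n _
      exact (continuous_const.mul (hbase.mul (hct n))).intervalIntegrable _ _
  have hSL : SL d (2 * r) U T l = Kap U T l + ∑ n ∈ Finset.Icc 2 (2 * r), (kr d n : ℂ) *
      ((((Real.sqrt n)⁻¹ : ℝ) : ℂ) * Kap U T (l - Real.log n)) := by
    unfold SL
    have hI : Finset.Icc 1 (2 * r) = insert 1 (Finset.Icc 2 (2 * r)) := by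
      ext x; simp [Finset.mem_Icc]; omega
    rw [hI, Finset.sum_insert (by simp), kr_one]
    congr 1
    · simp
    · apply Finset.sum_congr rfl
      intro n _
      ring
  rw [hsplit, hSL]
  set J0 := ∫ t in (T - V)..(T + V), KK U T (a + t * I) * ee d (1 / 2 + (a + t * I)) *
        exp ((a + t * I) * l) * FL d (2 * r) (a + t * I) with hJ0
  set Jn : ℕ → ℂ := fun n => ∫ t in (T - V)..(T + V), KK U T (a + t * I) *
        ee d (1 / 2 + (a + t * I)) * exp ((a + t * I) * l) * tn n (a + t * I) with hJn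
  have hfin : J0 + ∑ n ∈ Finset.Icc 2 (2 * r), (kr d n : ℂ) * Jn n -
      sg d * (((Real.sqrt Real.pi * U : ℝ) : ℂ) * (Kap U T l + ∑ n ∈ Finset.Icc 2 (2 * r),
        (kr d n : ℂ) * ((((Real.sqrt n)⁻¹ : ℝ) : ℂ) * Kap U T (l - Real.log n)))) =
      (J0 - sg d * ((Real.sqrt Real.pi * U : ℝ) * exp (T * l * I) *
        (Real.exp (-(U ^ 2 * l ^ 2 / 4)) : ℝ))) +
      ∑ n ∈ Finset.Icc 2 (2 * r), (kr d n : ℂ) * (Jn n -
        sg d * (((Real.sqrt Real.pi * U : ℝ) : ℂ) * ((((Real.sqrt n)⁻¹ : ℝ) : ℂ) *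
        Kap U T (l - Real.log n)))) := by
    simp_rw [mul_sub]
    rw [Finset.sum_sub_distrib, mul_add, mul_add, Finset.mul_sum, Finset.mul_sum]
    have : ∑ i ∈ Finset.Icc 2 (2 * r), sg d * (((Real.sqrt Real.pi * U : ℝ) : ℂ) *
        ((kr d i : ℂ) * ((((Real.sqrt i)⁻¹ : ℝ) : ℂ) * Kap U T (l - Real.log i)))) =
        ∑ i ∈ Finset.Icc 2 (2 * r), (kr d i : ℂ) * (sg d * (((Real.sqrt Real.pi * U : ℝ) : ℂ) *
        ((((Real.sqrt i)⁻¹ : ℝ) : ℂ) * Kap U T (l - Real.log i)))) := by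
      apply Finset.sum_congr rfl
      intro i _
      ring
    rw [this]
    have hK : sg d * (((Real.sqrt Real.pi * U : ℝ) : ℂ) * Kap U T l) =
        sg d * ((Real.sqrt Real.pi * U : ℝ) * exp (T * l * I) *
        (Real.exp (-(U ^ 2 * l ^ 2 / 4)) : ℝ)) := by
      unfold Kap
      ring
    rw [hK]
    ring
  rw [hfin]
  refine (norm_add_le _ _).trans ?_
  have hsum : ‖∑ n ∈ Finset.Icc 2 (2 * r), (kr d n : ℂ) * (Jn n -
        sg d * (((Real.sqrt Real.pi * U : ℝ) : ℂ) * ((((Real.sqrt n)⁻¹ : ℝ) : ℂ) *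
        Kap U T (l - Real.log n))))‖ ≤ 2 * r * ((r : ℝ) ^ (m + 3) * τ) := by
    refine (norm_sum_le _ _).trans ?_
    calc _ ≤ ∑ n ∈ Finset.Icc 2 (2 * r), (r : ℝ) ^ (m + 3) * τ := by
          apply Finset.sum_le_sum
          intro n hn
          rw [norm_mul]
          have := mul_le_mul (kr_norm d n) (hterm n hn) (norm_nonneg _) zero_le_one
          rwa [one_mul] at this
      _ ≤ 2 * r * ((r : ℝ) ^ (m + 3) * τ) := by
          rw [Finset.sum_const, Nat.card_Icc, nsmul_eq_mul]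
          apply mul_le_mul_of_nonneg_right _ (by positivity)
          have : 2 * r + 1 - 2 ≤ 2 * r := by omega
          exact_mod_cast this
  have hfin2 : (r : ℝ) ^ (m + (2 * m + 8) + 3) * τ + 2 * r * ((r : ℝ) ^ (m + 3) * τ) ≤
      (r : ℝ) ^ (3 * m + 12) * τ := by
    have h1 : (r : ℝ) ^ (m + 4) ≤ (r : ℝ) ^ (3 * m + 11) := pow_le_pow_right₀ hr1 (by omega)
    calc _ = ((r : ℝ) ^ (3 * m + 11) + 2 * (r : ℝ) ^ (m + 4)) * τ := by ring
      _ ≤ ((r : ℝ) ^ (3 * m + 11) + 2 * (r : ℝ) ^ (3 * m + 11)) * τ := by gcongr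
      _ = 3 * (r : ℝ) ^ (3 * m + 11) * τ := by ring
      _ ≤ r * (r : ℝ) ^ (3 * m + 11) * τ := by
        have : (3 : ℝ) ≤ r := by linarith
        gcongr
      _ = _ := by ring
  linarith

end Pool.Agent.KS6_76.RT
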