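import Pool.Graph.R_seed8.H491R3.Setup

/-! Sums of a rapidly decaying weight over the family. -/

set_option autoImplicit false

namespace Pool.Agent.KS6_76.RT

open Finset Pool.Agent.H491R3

theorem natAbs_cast_real (d : OddSqf) : ((d.1.natAbs : ℕ) : ℝ) = |(d.1 : ℝ)| := by
  rw [Nat.cast_natAbs]; push_cast; rfl

theorem sum_natAbs_le (s : Finset OddSqf) {F : ℕ → ℝ} (hF : ∀ n, 0 ≤ F n) (hs : Summable F) :
    ∑ d ∈ s, F d.1.natAbs ≤ 2 * ∑' n, F n := by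
  classical
  set A := s.filter (fun d => 0 < d.1) with hA
  set B := s.filter (fun d => ¬ 0 < d.1) with hB
  have h1 : ∑ d ∈ s, F d.1.natAbs = ∑ d ∈ A, F d.1.natAbs + ∑ d ∈ B, F d.1.natAbs := by
    rw [hA, hB, sum_filter_add_sum_filter_not]
  have h2 := sum_inj A (A.image fun d => d.1.natAbs) F hF
    (fun d hd => mem_image_of_mem (fun d : OddSqf => d.1.natAbs) hd)
    (Or.inl fun d hd => by rw [hA, mem_filter] at hd; exact hd.2)
  have h3 := sum_inj B (B.image fun d => d.1.natAbs) F hF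
    (fun d hd => mem_image_of_mem (fun d : OddSqf => d.1.natAbs) hd)
    (Or.inr fun d hd => by
      rw [hB, mem_filter] at hd
      have h5 := hd.2
      have h6 := OddSqf.ne_zero d
      omega)
  have h4 := hs.sum_le_tsum (A.image fun d : OddSqf => d.1.natAbs) (fun n _ => hF n)
  have h5 := hs.sum_le_tsum (B.image fun d : OddSqf => d.1.natAbs) (fun n _ => hF n)
  rw [h1]
  linarith

theorem summable_natAbs {F : ℕ → ℝ} (hF : ∀ n, 0 ≤ F n) (hs : Summable F) :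
    Summable (fun d : OddSqf => F d.1.natAbs) :=
  summable_of_sum_le (fun d => hF _) (fun s => sum_natAbs_le s hF hs)

theorem tsum_natAbs_le {F : ℕ → ℝ} (hF : ∀ n, 0 ≤ F n) (hs : Summable F) :
    ∑' d : OddSqf, F d.1.natAbs ≤ 2 * ∑' n, F n :=
  Real.tsum_le_of_sum_le (fun d => hF _) (fun s => sum_natAbs_le s hF hs)

/-- the properties of the weight which are used -/
structure SW (w : ℝ → ℝ) : Prop where
  nonneg : ∀ x, 0 ≤ w x
  decay : ∀ k : ℕ, ∃ C : ℝ, 0 < C ∧ ∀ x, |x| ^ k * w x ≤ C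

/-- the comparison function -/
noncomputable def FX (C0 C2 X : ℝ) (n : ℕ) : ℝ :=
  if n ≤ ⌈X⌉₊ then C0 else C2 * X ^ 2 * ((n : ℝ) ^ 2)⁻¹

theorem FX_nonneg {C0 C2 X : ℝ} (h0 : 0 ≤ C0) (h2 : 0 ≤ C2) (n : ℕ) : 0 ≤ FX C0 C2 X n := by
  unfold FX
  split_ifs <;> positivity

theorem FX_range {C0 C2 X : ℝ} (h0 : 0 ≤ C0) (h2 : 0 ≤ C2) (hX : 1 ≤ X) (K : ℕ) :
    ∑ n ∈ range K, FX C0 C2 X n ≤ (3 * C0 + C2) * X := by
  set N := ⌈X⌉₊ with hN
  have hN1 : X ≤ N := Nat.le_ceil X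
  have hN2 : (N : ℝ) < X + 1 := Nat.ceil_lt_add_one (by linarith)
  have hN0 : (0 : ℝ) < N := by linarith
  have hN0' : 0 < N := by exact_mod_cast hN0
  have hsub : range K ⊆ range (N + 1) ∪ Ioc N (max K N) := by
    intro n hn
    rw [mem_range] at hn
    rw [mem_union, mem_range, mem_Ioc]
    by_cases h : n < N + 1
    · exact Or.inl h
    · right
      constructor
      · omega
      · exact (by omega : n ≤ K).trans (le_max_left _ _)
  have h3 : ∑ n ∈ range K, FX C0 C2 X n ≤ ∑ n ∈ range (N + 1), FX C0 C2 X n +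
      ∑ n ∈ Ioc N (max K N), FX C0 C2 X n := by
    refine (sum_le_sum_of_subset_of_nonneg hsub fun n _ _ => FX_nonneg h0 h2 n).trans ?_
    have := sum_union_inter (s₁ := range (N + 1)) (s₂ := Ioc N (max K N)) (f := FX C0 C2 X)
    have h4 : 0 ≤ ∑ n ∈ range (N + 1) ∩ Ioc N (max K N), FX C0 C2 X n :=
      sum_nonneg fun n _ => FX_nonneg h0 h2 n
    linarith
  have h4 : ∑ n ∈ range (N + 1), FX C0 C2 X n = (N + 1) * C0 := by
    have : ∀ n ∈ range (N + 1), FX C0 C2 X n = C0 := by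
      intro n hn
      rw [mem_range] at hn
      unfold FX
      rw [if_pos (by omega)]
    rw [sum_congr rfl this, sum_const, card_range, nsmul_eq_mul]
    push_cast
    ring
  have h5 : ∑ n ∈ Ioc N (max K N), FX C0 C2 X n ≤ C2 * X ^ 2 * (N : ℝ)⁻¹ := by
    have : ∀ n ∈ Ioc N (max K N), FX C0 C2 X n = C2 * X ^ 2 * ((n : ℝ) ^ 2)⁻¹ := by
      intro n hn
      rw [mem_Ioc] at hn
      unfold FX
      rw [if_neg (by omega)]
    rw [sum_congr rfl this, ← mul_sum]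
    have h7 := sum_Ioc_inv_sq_le_sub (α := ℝ) (k := N) (n := max K N) (by omega) (le_max_right _ _)
    have h8 : (0 : ℝ) ≤ ((max K N : ℕ) : ℝ)⁻¹ := by positivity
    apply mul_le_mul_of_nonneg_left _ (by positivity)
    linarith
  have h6 : C2 * X ^ 2 * (N : ℝ)⁻¹ ≤ C2 * X := by
    rw [← div_eq_mul_inv, div_le_iff₀ hN0]
    have : X ^ 2 ≤ X * N := by nlinarith
    nlinarith
  nlinarith

theorem FX_summable {C0 C2 X : ℝ} (h0 : 0 ≤ C0) (h2 : 0 ≤ C2) (hX : 1 ≤ X) :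
    Summable (FX C0 C2 X) :=
  summable_of_sum_range_le (FX_nonneg h0 h2) (FX_range h0 h2 hX)

theorem FX_tsum {C0 C2 X : ℝ} (h0 : 0 ≤ C0) (h2 : 0 ≤ C2) (hX : 1 ≤ X) :
    ∑' n, FX C0 C2 X n ≤ (3 * C0 + C2) * X :=
  Real.tsum_le_of_sum_range_le (FX_nonneg h0 h2) (FX_range h0 h2 hX)

theorem w_le_FX {w : ℝ → ℝ} {C0 C2 X : ℝ} (hX : 1 ≤ X)
    (hC0 : ∀ x, w x ≤ C0) (hC2 : ∀ x, x ^ 2 * w x ≤ C2) (d : OddSqf) :
    w (d.1 / X) ≤ FX C0 C2 X d.1.natAbs := by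
  unfold FX
  split_ifs with h
  · exact hC0 _
  · have hX0 : 0 < X := by linarith
    have hd0 : (d.1 : ℝ) ≠ 0 := by exact_mod_cast d.ne_zero
    have h1 := hC2 (d.1 / X)
    have h2 : ((d.1.natAbs : ℕ) : ℝ) ^ 2 = (d.1 : ℝ) ^ 2 := by
      rw [natAbs_cast_real, sq_abs]
    rw [h2, ← div_eq_mul_inv, le_div_iff₀ (by positivity)]
    rw [div_pow, div_mul_eq_mul_div, div_le_iff₀ (by positivity)] at h1
    linarith

/-- the total weight -/
noncomputable def Wf (w : ℝ → ℝ) (X : ℝ) : ℝ := ∑' d : OddSqf, w (d.1 / X)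

theorem SW.bd {w : ℝ → ℝ} (hw : SW w) : ∃ C0 C2 : ℝ, 0 < C0 ∧ 0 < C2 ∧ (∀ x, w x ≤ C0) ∧
    ∀ x, x ^ 2 * w x ≤ C2 := by
  obtain ⟨C0, h0, h0'⟩ := hw.decay 0
  obtain ⟨C2, h2, h2'⟩ := hw.decay 2
  refine ⟨C0, C2, h0, h2, fun x => ?_, fun x => ?_⟩
  · simpa using h0' x
  · simpa using h2' x

theorem Wf_summable {w : ℝ → ℝ} (hw : SW w) {X : ℝ} (hX : 1 ≤ X) :
    Summable (fun d : OddSqf => w (d.1 / X)) := by
  obtain ⟨C0, C2, h0, h2, h0', h2'⟩ := hw.bd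
  exact Summable.of_nonneg_of_le (fun d => hw.nonneg _) (fun d => w_le_FX hX h0' h2' d)
    (summable_natAbs (FX_nonneg h0.le h2.le) (FX_summable h0.le h2.le hX))

theorem Wf_upper {w : ℝ → ℝ} (hw : SW w) : ∃ C : ℝ, 0 < C ∧ ∀ X : ℝ, 1 ≤ X → Wf w X ≤ C * X := by
  obtain ⟨C0, C2, h0, h2, h0', h2'⟩ := hw.bd
  refine ⟨2 * (3 * C0 + C2), by positivity, fun X hX => ?_⟩
  have h3 := summable_natAbs (FX_nonneg h0.le h2.le) (FX_summable h0.le h2.le hX)
  calc Wf w X ≤ ∑' d : OddSqf, FX C0 C2 X d.1.natAbs :=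
        (Wf_summable hw hX).tsum_le_tsum (fun d => w_le_FX hX h0' h2' d) h3
    _ ≤ 2 * ∑' n, FX C0 C2 X n :=
        tsum_natAbs_le (FX_nonneg h0.le h2.le) (FX_summable h0.le h2.le hX)
    _ ≤ 2 * ((3 * C0 + C2) * X) := by
        have := FX_tsum (C0 := C0) (C2 := C2) h0.le h2.le hX
        linarith
    _ = _ := by ring

/-- the number of elements of the family in a window -/
theorem win_count {s t : ℝ} (hs : 0 < s) (hst : s < t) : ∃ Y₀ : ℝ, 1 ≤ Y₀ ∧ ∀ Y ≥ Y₀,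
    ∀ A : Finset OddSqf, (∀ d : OddSqf, s * Y < d.1 → (d.1 : ℝ) ≤ t * Y → d ∈ A) →
    (t - s) * Y / 20 ≤ #A := by
  have hts : 0 < t - s := by linarith
  set δ := (t - s) / 1000 with hδ
  have hδ0 : 0 < δ := by positivity
  refine ⟨max 1 (max (t / δ ^ 2) (max (10 / δ) (16 / t))), le_max_left _ _,
    fun Y hY A hA => ?_⟩
  have hY1 : 1 ≤ Y := (le_max_left _ _).trans hY
  have hY' : max (t / δ ^ 2) (max (10 / δ) (16 / t)) ≤ Y := (le_max_right _ _).trans hY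
  have hYa : t / δ ^ 2 ≤ Y := (le_max_left _ _).trans hY'
  have hYb : 10 / δ ≤ Y := (le_max_left _ _).trans ((le_max_right _ _).trans hY')
  have hYc : 16 / t ≤ Y := (le_max_right _ _).trans ((le_max_right _ _).trans hY')
  have hY0 : 0 < Y := by linarith
  have ht : 0 < t := by linarith
  rw [div_le_iff₀ (by positivity)] at hYa hYb hYc
  set a := ⌈s * Y⌉₊ with ha
  set b := ⌊t * Y⌋₊ with hb
  have ha1 : s * Y ≤ a := Nat.le_ceil _
  have ha2 : (a : ℝ) < s * Y + 1 := Nat.ceil_lt_add_one (by positivity)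
  have hb1 : (b : ℝ) ≤ t * Y := Nat.floor_le (by positivity)
  have hb2 : t * Y < b + 1 := Nat.lt_floor_add_one _
  have hab : a ≤ b := by
    have : (a : ℝ) ≤ b := by
      have h1 : (t - s) * Y = 1000 * (Y * δ) := by rw [hδ]; ring
      nlinarith
    exact_mod_cast this
  set K := Nat.sqrt b + 1 with hK
  have hK1 : b ≤ K ^ 2 := by
    have := Nat.lt_succ_sqrt b
    rw [hK, sq]
    exact this.le
  have hs' : (Nat.sqrt b : ℝ) ≤ δ * Y := by
    have h1 : ((Nat.sqrt b : ℕ) : ℝ) ^ 2 ≤ b := by exact_mod_cast Nat.sqrt_le' b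
    have h2 : ((Nat.sqrt b : ℕ) : ℝ) ^ 2 ≤ (δ * Y) ^ 2 := by
      have h3 : t * Y ≤ (δ * Y) ^ 2 := by nlinarith
      linarith
    exact le_of_sq_le_sq h2 (by positivity)
  have hbig : 3 ≤ K := by
    have h1 : 2 * 2 ≤ b := by
      have : (4 : ℝ) ≤ b := by nlinarith
      exact_mod_cast this
    have := Nat.le_sqrt.2 h1
    omega
  have hcount := sqf_count hab hK1 hbig
  have hK' : (K : ℝ) = (Nat.sqrt b : ℝ) + 1 := by rw [hK]; push_cast; rfl
  rw [hK'] at hcount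
  classical
  have hcard : #{x ∈ Ioc a b | Odd x ∧ Squarefree x} ≤ #A := by
    have hsub : ({x ∈ Ioc a b | Odd x ∧ Squarefree x}) ⊆ A.image (fun d => d.1.natAbs) := by
      intro x hx
      rw [mem_filter, mem_Ioc] at hx
      obtain ⟨⟨hx1, hx2⟩, hx3, hx4⟩ := hx
      have hodd : Odd (x : ℤ) := by exact_mod_cast hx3
      have hsq : Squarefree (x : ℤ) := by
        rw [← Int.squarefree_natAbs]; simpa using hx4
      rw [mem_image]
      refine ⟨⟨(x : ℤ), hodd, hsq⟩, ?_, by simp⟩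
      apply hA
      · have : (a : ℝ) < x := by exact_mod_cast hx1
        simp only [Int.cast_natCast]
        linarith
      · have : (x : ℝ) ≤ b := by exact_mod_cast hx2
        simp only [Int.cast_natCast]
        linarith
    exact (card_le_card hsub).trans card_image_le
  have hcard' : ((#{x ∈ Ioc a b | Odd x ∧ Squarefree x} : ℕ) : ℝ) ≤ #A := by exact_mod_cast hcard
  have h1 : (t - s) * Y = 1000 * (Y * δ) := by rw [hδ]; ring
  nlinarith

theorem Wf_lower {w : ℝ → ℝ} (hw : SW w) {s t c : ℝ} (hs : 0 < s) (hst : s < t) (hc : 0 < c)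
    (hwc : ∀ x, s ≤ x → x ≤ t → c ≤ w x) :
    ∃ c₁ X₀ : ℝ, 0 < c₁ ∧ 1 ≤ X₀ ∧ ∀ X ≥ X₀, c₁ * X ≤ Wf w X := by
  obtain ⟨Y₀, hY0, h⟩ := win_count hs hst
  refine ⟨c * (t - s) / 20, Y₀, by
    have : 0 < t - s := by linarith
    positivity, hY0, fun X hX => ?_⟩
  have hX1 : 1 ≤ X := hY0.trans hX
  have hX0 : 0 < X := by linarith
  classical
  set A : Finset OddSqf := (Dset ⌈t * X⌉₊).filter (fun d => s * X < d.1 ∧ (d.1 : ℝ) ≤ t * X)
    with hA
  have hcount := h X hX A (fun d h1 h2 => by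
    rw [hA, mem_filter]
    refine ⟨?_, h1, h2⟩
    rw [abs_cast_le]
    have : 0 < s * X := by positivity
    rw [abs_of_pos (by linarith)]
    exact h2.trans (Nat.le_ceil _))
  have hsum : c * (#A : ℝ) ≤ Wf w X := by
    calc c * (#A : ℝ) = ∑ d ∈ A, c := by rw [sum_const, nsmul_eq_mul, mul_comm]
      _ ≤ ∑ d ∈ A, w (d.1 / X) := by
        apply sum_le_sum
        intro d hd
        rw [hA, mem_filter] at hd
        obtain ⟨-, h1, h2⟩ := hd
        apply hwc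
        · rw [le_div_iff₀ hX0]; exact h1.le
        · rw [div_le_iff₀ hX0]; exact h2
      _ ≤ Wf w X := (Wf_summable hw hX1).sum_le_tsum A (fun d _ => hw.nonneg _)
  have := mul_le_mul_of_nonneg_left hcount hc.le
  linarith

/-- the window -/
noncomputable def SrG (m : ℕ) (ρ : ℝ) (r : ℕ) : Finset OddSqf := by
  classical
  exact (Dset (2 * r ^ (m + 4))).filter
    (fun d => (r : ℝ) ^ (m + 4) < d.1 ∧ (d.1 : ℝ) ≤ ρ * (r : ℝ) ^ (m + 4))

theorem mem_SrG {m : ℕ} {ρ : ℝ} (hρ : ρ ≤ 2) {r : ℕ} {d : OddSqf} :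
    d ∈ SrG m ρ r ↔ (r : ℝ) ^ (m + 4) < d.1 ∧ (d.1 : ℝ) ≤ ρ * (r : ℝ) ^ (m + 4) := by
  classical
  unfold SrG
  rw [mem_filter]
  constructor
  · exact fun h => h.2
  · intro h
    refine ⟨?_, h⟩
    rw [abs_cast_le]
    have h0 : (0 : ℝ) ≤ (r : ℝ) ^ (m + 4) := by positivity
    rw [abs_of_pos (by linarith [h.1])]
    push_cast
    nlinarith [h.2]

theorem SrG_count {m : ℕ} {ρ : ℝ} (hρ1 : 1 < ρ) (hρ : ρ ≤ 2) : ∃ r₀ : ℕ, ∀ r ≥ r₀,
    (ρ - 1) * (r : ℝ) ^ (m + 4) / 20 ≤ #(SrG m ρ r) := by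
  obtain ⟨Y₀, hY0, h⟩ := win_count (s := 1) (t := ρ) one_pos hρ1
  refine ⟨⌈Y₀⌉₊ + 1, fun r hr => ?_⟩
  have hr1 : Y₀ ≤ r := by
    have h1 : Y₀ ≤ ⌈Y₀⌉₊ := Nat.le_ceil _
    have h2 : ((⌈Y₀⌉₊ : ℕ) : ℝ) ≤ r := by
      have : ⌈Y₀⌉₊ ≤ r := by omega
      exact_mod_cast this
    linarith
  have hr2 : (1 : ℝ) ≤ r := hY0.trans hr1
  have hr3 : (r : ℝ) ≤ (r : ℝ) ^ (m + 4) := by
    calc (r : ℝ) = (r : ℝ) ^ 1 := (pow_one _).symm
      _ ≤ _ := pow_le_pow_right₀ hr2 (by omega)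
  refine h _ (hr1.trans hr3) _ (fun d h1 h2 => ?_)
  rw [mem_SrG hρ]
  exact ⟨by linarith, h2⟩

end Pool.Agent.KS6_76.RT
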