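import Pool.Graph.R_seed8.H491R3.PhiBounds

/-! `Φ(α, γ)` on the region `Re α > 0`, `Re (α + γ) > 0`. -/

set_option autoImplicit false

namespace Pool.Agent.KS6_76.RT

open Complex Filter Topology Set Pool.Agent.H491R3

theorem xyG (p : Nat.Primes) {α γ : ℂ} (hα : 0 ≤ α.re) (hαγ : 0 ≤ (α + γ).re) :
    ‖((p : ℕ) : ℂ) ^ (-1 - α - γ)‖ ≤ (((p : ℕ) : ℝ))⁻¹ ∧
    ‖((p : ℕ) : ℂ) ^ (-1 - 2 * α)‖ ≤ (((p : ℕ) : ℝ))⁻¹ ∧
    ‖((p : ℕ) : ℂ) ^ (-1 - α - γ)‖ ≤ 1 / 2 := by
  have hp : (1 : ℝ) ≤ ((p : ℕ) : ℝ) := by exact_mod_cast p.2.one_lt.le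
  have hp2 : (2 : ℝ) ≤ ((p : ℕ) : ℝ) := by exact_mod_cast p.2.two_le
  rw [add_re] at hαγ
  have h1 : ‖((p : ℕ) : ℂ) ^ (-1 - α - γ)‖ ≤ (((p : ℕ) : ℝ))⁻¹ := by
    rw [prime_cpow_norm, ← Real.rpow_neg_one]
    apply Real.rpow_le_rpow_of_exponent_le hp
    simp
    linarith
  refine ⟨h1, ?_, ?_⟩
  · rw [prime_cpow_norm, ← Real.rpow_neg_one]
    apply Real.rpow_le_rpow_of_exponent_le hp
    simp
    linarith
  · refine h1.trans ?_
    calc (((p : ℕ) : ℝ))⁻¹ ≤ (2 : ℝ)⁻¹ := inv_anti₀ (by norm_num) hp2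
      _ = 1 / 2 := by norm_num

theorem one_sub_geG (p : Nat.Primes) {α γ : ℂ} (hα : 0 ≤ α.re) (hαγ : 0 ≤ (α + γ).re) :
    1 / 2 ≤ ‖1 - ((p : ℕ) : ℂ) ^ (-1 - α - γ)‖ := by
  obtain ⟨-, -, h⟩ := xyG p hα hαγ
  have := norm_sub_norm_le (1 : ℂ) (((p : ℕ) : ℂ) ^ (-1 - α - γ))
  rw [norm_one] at this
  linarith

theorem gp_normG (p : Nat.Primes) {α γ : ℂ} (hα : 0 ≤ α.re) (hαγ : 0 ≤ (α + γ).re) :
    ‖gp p α γ‖ ≤ 4 * ((p : ℕ) : ℝ) ^ (-2 : ℝ) := by
  have hp : (0 : ℝ) < ((p : ℕ) : ℝ) := by exact_mod_cast p.2.pos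
  unfold gp
  split_ifs with h
  · rw [norm_zero]; positivity
  · obtain ⟨h1, h2, -⟩ := xyG p hα hαγ
    have h3 := one_sub_geG p hα hαγ
    have h4 : ‖((p : ℕ) : ℂ) + 1‖ = ((p : ℕ) : ℝ) + 1 := by
      have : ((p : ℕ) : ℂ) + 1 = ((((p : ℕ) : ℝ) + 1 : ℝ) : ℂ) := by push_cast; rfl
      rw [this, norm_real, Real.norm_eq_abs, abs_of_pos (by positivity)]
    rw [norm_div, norm_mul, h4]
    have h5 : (((p : ℕ) : ℝ))⁻¹ = ((p : ℕ) : ℝ) * ((p : ℕ) : ℝ) ^ (-2 : ℝ) := by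
      rw [← Real.rpow_neg_one, show (-1 : ℝ) = 1 + -2 by norm_num, Real.rpow_add hp, Real.rpow_one]
    have h6 : ‖((p : ℕ) : ℂ) ^ (-1 - α - γ) - ((p : ℕ) : ℂ) ^ (-1 - 2 * α)‖ ≤
        2 * (((p : ℕ) : ℝ))⁻¹ := by
      refine (norm_sub_le _ _).trans ?_
      linarith
    rw [div_le_iff₀ (by positivity)]
    refine h6.trans ?_
    rw [h5]
    have h7 : 0 < ((p : ℕ) : ℝ) ^ (-2 : ℝ) := by positivity
    have h8 : ((p : ℕ) : ℝ) / 2 ≤ (((p : ℕ) : ℝ) + 1) * ‖1 - ((p : ℕ) : ℂ) ^ (-1 - α - γ)‖ := by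
      nlinarith
    nlinarith [mul_le_mul_of_nonneg_left h8 h7.le]

theorem factor_eqG (p : Nat.Primes) {α γ : ℂ} (hα : 0 ≤ α.re) (hαγ : 0 ≤ (α + γ).re) :
    (if (p : ℕ) = 2 then 1 else
      (1 - ((p : ℂ) + 1)⁻¹ * (p : ℂ) ^ (-1 - 2 * α) - ((p : ℂ) + 1)⁻¹ * (p : ℂ) ^ (-α - γ)) /
        (1 - (p : ℂ) ^ (-1 - α - γ))) = 1 + gp p α γ := by
  unfold gp
  split_ifs with h
  · simp
  · have hp0 : ((p : ℕ) : ℂ) ≠ 0 := by exact_mod_cast p.2.ne_zero
    have hp1 : ((p : ℕ) : ℂ) + 1 ≠ 0 := by exact_mod_cast Nat.succ_ne_zero (p : ℕ)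
    have h3 := one_sub_geG p hα hαγ
    have h4 : 1 - ((p : ℕ) : ℂ) ^ (-1 - α - γ) ≠ 0 := by
      intro h5
      rw [h5, norm_zero] at h3
      norm_num at h3
    have h5 : ((p : ℕ) : ℂ) ^ (-α - γ) = (p : ℕ) * ((p : ℕ) : ℂ) ^ (-1 - α - γ) := by
      rw [show -α - γ = 1 + (-1 - α - γ) by ring, cpow_add _ _ hp0, cpow_one]
    rw [h5]
    field_simp
    ring

theorem AA_eqG {α γ : ℂ} (hα : 0 ≤ α.re) (hαγ : 0 ≤ (α + γ).re) :
    AA α γ = (1 - 2 ^ (-1 - 2 * α)) / (1 - 2 ^ (-1 - α - γ)) * PP α γ := by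
  unfold AA PP
  congr 1
  exact tprod_congr fun p => factor_eqG p hα hαγ

theorem PP_bound {α γ : ℂ} (hα : 0 ≤ α.re) (hαγ : 0 ≤ (α + γ).re) :
    ‖PP α γ‖ ≤ Real.exp (4 * SP) := by
  have hs : Summable (fun p : Nat.Primes => ‖gp p α γ‖) :=
    Summable.of_nonneg_of_le (fun _ => norm_nonneg _) (fun p => gp_normG p hα hαγ)
      (summable_primes_two.mul_left _)
  have hm : Multipliable (fun p : Nat.Primes => 1 + gp p α γ) :=
    multipliable_one_add_of_summable hs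
  have ht0 : Tendsto (fun s : Finset Nat.Primes => ∏ p ∈ s, (1 + gp p α γ)) atTop
      (𝓝 (PP α γ)) := hm.hasProd
  refine le_of_tendsto' ht0.norm fun s => ?_
  have h1 := s.norm_prod_one_add_sub_one_le (fun p => gp p α γ)
  have h2 : ∑ p ∈ s, ‖gp p α γ‖ ≤ 4 * SP := by
    calc ∑ p ∈ s, ‖gp p α γ‖ ≤ ∑ p ∈ s, 4 * ((p : ℕ) : ℝ) ^ (-2 : ℝ) :=
          Finset.sum_le_sum fun p _ => gp_normG p hα hαγ
      _ ≤ ∑' p : Nat.Primes, 4 * ((p : ℕ) : ℝ) ^ (-2 : ℝ) :=
          (summable_primes_two.mul_left _).sum_le_tsum _ (fun p _ => by positivity)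
      _ = _ := by rw [tsum_mul_left]; rfl
  have h3 := Real.exp_le_exp.2 h2
  have h4 : ‖∏ p ∈ s, (1 + gp p α γ)‖ ≤ ‖∏ p ∈ s, (1 + gp p α γ) - 1‖ + ‖(1 : ℂ)‖ := by
    have := norm_add_le (∏ p ∈ s, (1 + gp p α γ) - 1) 1
    rwa [sub_add_cancel] at this
  rw [norm_one] at h4
  linarith

/-- the factors are jointly continuous -/
theorem gp_contG (p : Nat.Primes) : ContinuousOn (fun z : ℂ × ℂ => gp p z.1 z.2)
    {z | 0 < z.1.re ∧ 0 < (z.1 + z.2).re} := by
  have hp0 : ((p : ℕ) : ℂ) ≠ 0 := by exact_mod_cast p.2.ne_zero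
  have hp1 : ((p : ℕ) : ℂ) + 1 ≠ 0 := by exact_mod_cast Nat.succ_ne_zero (p : ℕ)
  unfold gp
  split_ifs with h
  · exact continuousOn_const
  · intro z hz
    obtain ⟨z1, z2⟩ := hz
    have h3 := one_sub_geG p z1.le z2.le
    have h4 : 1 - ((p : ℕ) : ℂ) ^ (-1 - z.1 - z.2) ≠ 0 := by
      intro h5
      rw [h5, norm_zero] at h3
      norm_num at h3
    apply ContinuousAt.continuousWithinAt
    apply ContinuousAt.div
    · apply ContinuousAt.sub
      · exact ContinuousAt.const_cpow (by fun_prop) (Or.inl hp0)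
      · exact ContinuousAt.const_cpow (by fun_prop) (Or.inl hp0)
    · apply ContinuousAt.mul continuousAt_const
      apply ContinuousAt.sub continuousAt_const
      exact ContinuousAt.const_cpow (by fun_prop) (Or.inl hp0)
    · exact mul_ne_zero hp1 h4

theorem regG_open : IsOpen {z : ℂ × ℂ | 0 < z.1.re ∧ 0 < (z.1 + z.2).re} := by
  have h1 : IsOpen {z : ℂ × ℂ | 0 < z.1.re} :=
    isOpen_lt continuous_const (continuous_re.comp continuous_fst)
  have h2 : IsOpen {z : ℂ × ℂ | 0 < (z.1 + z.2).re} :=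
    isOpen_lt continuous_const (continuous_re.comp (continuous_fst.add continuous_snd))
  exact h1.inter h2

theorem PP_contG : ContinuousOn (fun z : ℂ × ℂ => PP z.1 z.2)
    {z | 0 < z.1.re ∧ 0 < (z.1 + z.2).re} := by
  have hu : Summable (fun p : Nat.Primes => 4 * ((p : ℕ) : ℝ) ^ (-2 : ℝ)) :=
    summable_primes_two.mul_left _
  have h := hu.hasProdLocallyUniformlyOn_one_add (f := fun (p : Nat.Primes) (z : ℂ × ℂ) =>
    gp p z.1 z.2) regG_open
    (Eventually.of_forall fun p z hz => gp_normG p hz.1.le hz.2.le) (fun p => gp_contG p)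
  have h2 : TendstoLocallyUniformlyOn (fun (s : Finset Nat.Primes) (z : ℂ × ℂ) =>
      ∏ p ∈ s, (1 + gp p z.1 z.2)) (fun z : ℂ × ℂ => PP z.1 z.2) atTop
      {z | 0 < z.1.re ∧ 0 < (z.1 + z.2).re} := h
  refine h2.continuousOn (Frequently.of_forall fun s => ?_)
  exact continuousOn_finsetProd s fun p _ => continuousOn_const.add (gp_contG p)

theorem PP_diffG {α : ℂ} (hα : 0 < α.re) :
    DifferentiableOn ℂ (fun γ => PP α γ) {γ | 0 < (α + γ).re} := by
  have hopen : IsOpen {γ : ℂ | 0 < (α + γ).re} := isOpen_lt continuous_const (by fun_prop)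
  have hd : ∀ p : Nat.Primes, DifferentiableOn ℂ (fun γ => gp p α γ) {γ | 0 < (α + γ).re} := by
    intro p
    have hp0 : ((p : ℕ) : ℂ) ≠ 0 := by exact_mod_cast p.2.ne_zero
    have hp1 : ((p : ℕ) : ℂ) + 1 ≠ 0 := by exact_mod_cast Nat.succ_ne_zero (p : ℕ)
    unfold gp
    split_ifs with h
    · exact differentiableOn_const 0
    · intro z hz
      have hz' : 0 < (α + z).re := hz
      have h3 := one_sub_geG p hα.le hz'.le
      have h4 : 1 - ((p : ℕ) : ℂ) ^ (-1 - α - z) ≠ 0 := by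
        intro h5
        rw [h5, norm_zero] at h3
        norm_num at h3
      apply DifferentiableAt.differentiableWithinAt
      apply DifferentiableAt.div
      · apply DifferentiableAt.sub
        · exact DifferentiableAt.const_cpow (by fun_prop) (Or.inl hp0)
        · fun_prop
      · apply DifferentiableAt.mul (by fun_prop)
        apply DifferentiableAt.sub (by fun_prop)
        exact DifferentiableAt.const_cpow (by fun_prop) (Or.inl hp0)
      · exact mul_ne_zero hp1 h4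
  have hu : Summable (fun p : Nat.Primes => 4 * ((p : ℕ) : ℝ) ^ (-2 : ℝ)) :=
    summable_primes_two.mul_left _
  have h := hu.hasProdLocallyUniformlyOn_one_add (f := fun p γ => gp p α γ) hopen
    (Eventually.of_forall fun p z hz => by
      have hz' : 0 < (α + z).re := hz
      exact gp_normG p hα.le hz'.le) (fun p => (hd p).continuousOn)
  refine h.differentiableOn (Eventually.of_forall fun s => ?_) hopen
  have : DifferentiableOn ℂ (fun γ => ∏ p ∈ s, (1 + gp p α γ)) {γ | 0 < (α + γ).re} :=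
    DifferentiableOn.fun_finsetProd fun p _ => (differentiableOn_const 1).add (hd p)
  exact this

theorem Phi_eqG {α γ : ℂ} (hα : 0 ≤ α.re) (hαγ : 0 ≤ (α + γ).re) :
    Phi α γ = riemannZeta (1 + 2 * α) * ((1 - 2 ^ (-1 - 2 * α)) / (1 - 2 ^ (-1 - α - γ)) *
      PP α γ) * (riemannZeta (1 + α + γ))⁻¹ := by
  unfold Phi
  rw [AA_eqG hα hαγ, div_eq_mul_inv (riemannZeta (1 + 2 * α) * _)]

theorem two_facG {α γ : ℂ} (hαγ : 0 ≤ (α + γ).re) :
    1 / 2 ≤ ‖(1 : ℂ) - 2 ^ (-1 - α - γ)‖ := by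
  rw [add_re] at hαγ
  have h : ‖(2 : ℂ) ^ (-1 - α - γ)‖ ≤ 1 / 2 := by
    rw [two_cpow_norm]
    calc (2 : ℝ) ^ (-1 - α - γ).re ≤ (2 : ℝ) ^ (-1 : ℝ) := by
          apply Real.rpow_le_rpow_of_exponent_le (by norm_num)
          simp
          linarith
      _ = 1 / 2 := by rw [Real.rpow_neg_one]; norm_num
  have := norm_sub_norm_le (1 : ℂ) ((2 : ℂ) ^ (-1 - α - γ))
  rw [norm_one] at this
  linarith

theorem two_fac_ne {α γ : ℂ} (hαγ : 0 ≤ (α + γ).re) : (1 : ℂ) - 2 ^ (-1 - α - γ) ≠ 0 := by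
  intro h5
  have := two_facG hαγ
  rw [h5, norm_zero] at this
  norm_num at this

theorem Phi_diffG {α : ℂ} (hα : 0 < α.re) :
    DifferentiableOn ℂ (fun γ => Phi α γ) {γ | 0 < (α + γ).re} := by
  have h2 : (2 : ℂ) ≠ 0 := by norm_num
  have h : DifferentiableOn ℂ (fun γ => riemannZeta (1 + 2 * α) *
      ((1 - 2 ^ (-1 - 2 * α)) / (1 - 2 ^ (-1 - α - γ)) * PP α γ) *
      (riemannZeta (1 + α + γ))⁻¹) {γ | 0 < (α + γ).re} := by
    apply DifferentiableOn.mul
    · apply DifferentiableOn.mul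
      · exact differentiableOn_const _
      · apply DifferentiableOn.mul _ (PP_diffG hα)
        intro z hz
        have hz' : 0 < (α + z).re := hz
        apply DifferentiableAt.differentiableWithinAt
        apply DifferentiableAt.div (by fun_prop)
        · apply DifferentiableAt.sub (by fun_prop)
          exact DifferentiableAt.const_cpow (by fun_prop) (Or.inl h2)
        · exact two_fac_ne hz'.le
    · intro z hz
      have hz' : 0 < (α + z).re := hz
      rw [add_re] at hz'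
      apply DifferentiableAt.differentiableWithinAt
      have hre : 1 < (1 + α + z).re := by simp; linarith
      have h1 : (1 : ℂ) + α + z ≠ 1 := by
        intro h
        rw [h] at hre
        simp at hre
      have h3 : riemannZeta (1 + α + z) ≠ 0 := riemannZeta_ne_zero_of_one_lt_re hre
      have h4 : DifferentiableAt ℂ (fun z => riemannZeta (1 + α + z)) z :=
        (differentiableAt_riemannZeta h1).comp z (by fun_prop)
      exact h4.inv h3
  refine h.congr fun z hz => ?_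
  have hz' : 0 < (α + z).re := hz
  exact Phi_eqG hα.le hz'.le

theorem Phi_contG : ContinuousOn (fun z : ℂ × ℂ => Phi z.1 z.2)
    {z | 0 < z.1.re ∧ 0 < (z.1 + z.2).re} := by
  have h2 : (2 : ℂ) ≠ 0 := by norm_num
  have h : ContinuousOn (fun z : ℂ × ℂ => riemannZeta (1 + 2 * z.1) *
      ((1 - 2 ^ (-1 - 2 * z.1)) / (1 - 2 ^ (-1 - z.1 - z.2)) * PP z.1 z.2) *
      (riemannZeta (1 + z.1 + z.2))⁻¹) {z | 0 < z.1.re ∧ 0 < (z.1 + z.2).re} := by
    apply ContinuousOn.mul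
    · apply ContinuousOn.mul
      · intro z hz
        obtain ⟨hz1, -⟩ := hz
        apply ContinuousAt.continuousWithinAt
        have h1 : (1 : ℂ) + 2 * z.1 ≠ 1 := by
          intro h
          have := congrArg Complex.re h
          simp at this
          linarith
        exact ContinuousAt.comp (f := fun z : ℂ × ℂ => 1 + 2 * z.1)
          (differentiableAt_riemannZeta h1).continuousAt (by fun_prop)
      · apply ContinuousOn.mul _ PP_contG
        intro z hz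
        apply ContinuousAt.continuousWithinAt
        apply ContinuousAt.div
        · apply ContinuousAt.sub continuousAt_const
          exact ContinuousAt.const_cpow (by fun_prop) (Or.inl h2)
        · apply ContinuousAt.sub continuousAt_const
          exact ContinuousAt.const_cpow (by fun_prop) (Or.inl h2)
        · exact two_fac_ne hz.2.le
    · intro z hz
      have hz' : 0 < (z.1 + z.2).re := hz.2
      rw [add_re] at hz'
      apply ContinuousAt.continuousWithinAt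
      have hre : 1 < (1 + z.1 + z.2).re := by simp; linarith
      have h1 : (1 : ℂ) + z.1 + z.2 ≠ 1 := by
        intro h
        rw [h] at hre
        simp at hre
      have h3 : riemannZeta (1 + z.1 + z.2) ≠ 0 := riemannZeta_ne_zero_of_one_lt_re hre
      have h4 : ContinuousAt (fun z : ℂ × ℂ => riemannZeta (1 + z.1 + z.2)) z :=
        ContinuousAt.comp (f := fun z : ℂ × ℂ => 1 + z.1 + z.2)
          (differentiableAt_riemannZeta h1).continuousAt (by fun_prop)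
      exact h4.inv₀ h3
  refine h.congr fun z hz => ?_
  exact Phi_eqG hz.1.le hz.2.le

theorem Phi_boundG {a : ℝ} (ha : 0 < a) : ∃ C : ℝ, 1 ≤ C ∧ ∀ α γ : ℂ, a ≤ α.re → a ≤ (α + γ).re →
    ‖Phi α γ‖ ≤ C := by
  set Z1 := ∑' n : ℕ, 1 / (n : ℝ) ^ (1 + a) with hZ1
  have hZ1' : 0 ≤ Z1 := tsum_nonneg fun n => by positivity
  refine ⟨Z1 * (4 * Real.exp (4 * SP)) * Z1 + 1, by
    have : 0 ≤ Z1 * (4 * Real.exp (4 * SP)) * Z1 := by positivity
    linarith, ?_⟩
  intro α γ hα hαγ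
  have hα0 : 0 ≤ α.re := by linarith
  have hαγ0 : 0 ≤ (α + γ).re := by linarith
  have hαγ' := hαγ
  rw [add_re] at hαγ'
  have h1 : ‖riemannZeta (1 + 2 * α)‖ ≤ Z1 := by
    have hre : 1 + a ≤ (1 + 2 * α).re := by simp; linarith
    rw [zeta_series (by linarith)]
    exact lseries_le (fun _ => by simp) (by linarith) hre
  have h2 : ‖(riemannZeta (1 + α + γ))⁻¹‖ ≤ Z1 := by
    have hre : 1 + a ≤ (1 + α + γ).re := by simp; linarith
    rw [zeta_inv_series (by linarith)]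
    exact lseries_le mu_norm (by linarith) hre
  have h3 := PP_bound hα0 hαγ0
  have h4 : ‖(1 : ℂ) - 2 ^ (-1 - 2 * α)‖ ≤ 2 := by
    refine (norm_sub_le _ _).trans ?_
    rw [two_cpow_norm, norm_one]
    have : (2 : ℝ) ^ (-1 - 2 * α).re ≤ 1 := by
      apply Real.rpow_le_one_of_one_le_of_nonpos (by norm_num)
      simp
      linarith
    linarith
  have h5 := two_facG hαγ0
  have h6 : ‖((1 : ℂ) - 2 ^ (-1 - 2 * α)) / (1 - 2 ^ (-1 - α - γ))‖ ≤ 4 := by
    rw [norm_div, div_le_iff₀ (by linarith)]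
    linarith
  have h7 : ‖Phi α γ‖ ≤ Z1 * (4 * Real.exp (4 * SP)) * Z1 := by
    rw [Phi_eqG hα0 hαγ0, norm_mul, norm_mul, norm_mul]
    gcongr
  linarith

end Pool.Agent.KS6_76.RT
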