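import Pool.Agent.KS6_76.RT.BetaG
import Pool.Agent.KS6_76.RT.PhiG
import Pool.Graph.R_seed8.H491R3.GamExt

/-! The double integral with `Φ(β, γ)` is negligible. -/

set_option autoImplicit false

namespace Pool.Agent.KS6_76.RT

open Complex MeasureTheory Set Pool.Agent.H491R3

theorem rect_diff {f : ℂ → ℂ} {a b y1 y2 S : ℝ} (hab : a ≤ b)
    (hf : DifferentiableOn ℂ f (uIcc a b ×ℂ uIcc y1 y2))
    (hS1 : ∀ x ∈ Icc a b, ‖f (x + y1 * I)‖ ≤ S) (hS2 : ∀ x ∈ Icc a b, ‖f (x + y2 * I)‖ ≤ S) :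
    ‖(∫ y in y1..y2, f (a + y * I)) - ∫ y in y1..y2, f (b + y * I)‖ ≤ 2 * ((b - a) * S) := by
  have h := Complex.integral_boundary_rect_eq_zero_of_differentiableOn f (a + y1 * I) (b + y2 * I)
    (by simpa using hf)
  simp only [add_re, ofReal_re, mul_re, I_re, mul_zero, ofReal_im, I_im, mul_one, sub_self,
    add_zero, add_im, mul_im, zero_add, smul_eq_mul] at h
  have h1 : I * ((∫ y in y1..y2, f (a + y * I)) - ∫ y in y1..y2, f (b + y * I)) =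
      (∫ x in a..b, f (x + y1 * I)) - (∫ x in a..b, f (x + y2 * I)) := by
    linear_combination -h
  have h2 : ‖(∫ y in y1..y2, f (a + y * I)) - ∫ y in y1..y2, f (b + y * I)‖ =
      ‖I * ((∫ y in y1..y2, f (a + y * I)) - ∫ y in y1..y2, f (b + y * I))‖ := by
    rw [norm_mul, norm_I, one_mul]
  have b1 : ‖∫ x in a..b, f (x + y1 * I)‖ ≤ S * |b - a| := by
    apply intervalIntegral.norm_integral_le_of_norm_le_const
    intro x hx
    rw [uIoc_of_le hab] at hx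
    exact hS1 x ⟨hx.1.le, hx.2⟩
  have b2 : ‖∫ x in a..b, f (x + y2 * I)‖ ≤ S * |b - a| := by
    apply intervalIntegral.norm_integral_le_of_norm_le_const
    intro x hx
    rw [uIoc_of_le hab] at hx
    exact hS2 x ⟨hx.1.le, hx.2⟩
  rw [abs_of_nonneg (by linarith)] at b1 b2
  rw [h2, h1]
  refine (norm_sub_le _ _).trans ?_
  linarith

theorem e_rr {r : ℝ} (hr : 1000 ≤ r) :
    Real.exp (-(r ^ 2)) * r ^ r ≤ Real.exp (-(r / 4)) := by
  have h2 := rr_le hr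
  calc Real.exp (-(r ^ 2)) * r ^ r ≤ Real.exp (-(r ^ 2)) * Real.exp (r ^ 2 / 2) := by gcongr
    _ = Real.exp (-(r ^ 2) + r ^ 2 / 2) := by rw [Real.exp_add]
    _ ≤ _ := by
      apply Real.exp_le_exp.2
      nlinarith

theorem exp_sq_le {r : ℝ} (hr : 1000 ≤ r) {k : ℕ} (hk : 1 ≤ k) {x : ℝ} (hx : x ^ 2 ≤ r ^ 2) :
    Real.exp (x ^ 2 / (r ^ k) ^ 2) ≤ 3 := by
  have hr0 : 0 < r := by linarith
  have hr1 : 1 ≤ r := by linarith
  have hrm : r ≤ r ^ k := by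
    calc r = r ^ 1 := (pow_one r).symm
      _ ≤ r ^ k := pow_le_pow_right₀ hr1 hk
  have h1 : x ^ 2 / (r ^ k) ^ 2 ≤ 1 := by
    rw [div_le_one (by positivity)]
    exact hx.trans (pow_le_pow_left₀ hr0.le hrm 2)
  have := Real.exp_le_exp.2 h1
  have := Real.exp_one_lt_d9
  linarith

theorem exp_sub_le {r : ℝ} (hr : 1000 ≤ r) {k : ℕ} (hk : 1 ≤ k) {x : ℝ} (hx : x ^ 2 ≤ r ^ 2) :
    Real.exp ((x ^ 2 - (r ^ (k + 1)) ^ 2) / (r ^ k) ^ 2) ≤ 3 * Real.exp (-(r ^ 2)) := by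
  have hr0 : 0 < r := by linarith
  have h1 : (x ^ 2 - (r ^ (k + 1)) ^ 2) / (r ^ k) ^ 2 = x ^ 2 / (r ^ k) ^ 2 + -(r ^ 2) := by
    field_simp
    ring
  rw [h1, Real.exp_add]
  exact mul_le_mul_of_nonneg_right (exp_sq_le hr hk hx) (Real.exp_pos _).le

theorem Phi_cont_line {b : ℝ} (hb : 0 < b) :
    Continuous (fun z : ℝ × ℝ => Phi ((b : ℂ) + z.2 * I) ((1 / 10 : ℝ) + z.1 * I)) := by
  have h1 : Continuous (fun z : ℝ × ℝ => ((b : ℂ) + (z.2 : ℂ) * I)) := by fun_prop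
  have h2 : Continuous (fun z : ℝ × ℝ => (((1 / 10 : ℝ) : ℂ) + (z.1 : ℂ) * I)) := by fun_prop
  have hpath : Continuous (fun z : ℝ × ℝ => ((((b : ℂ) + z.2 * I),
        (((1 / 10 : ℝ) : ℂ) + z.1 * I)) : ℂ × ℂ)) := h1.prodMk h2
  have hmem : ∀ z : ℝ × ℝ, ((((b : ℂ) + z.2 * I),
        (((1 / 10 : ℝ) : ℂ) + z.1 * I)) : ℂ × ℂ) ∈ {z : ℂ × ℂ | 0 < z.1.re ∧ 0 < (z.1 + z.2).re} := by
    intro z
    have e1 : ((b : ℂ) + (z.2 : ℂ) * I).re = b := by simp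
    have e2 : (((1 / 10 : ℝ) : ℂ) + (z.1 : ℂ) * I).re = 1 / 10 := by simp
    rw [mem_ofPred_eq]
    dsimp only
    rw [add_re ((b : ℂ) + (z.2 : ℂ) * I), e1, e2]
    constructor <;> linarith
  have h3 := Phi_contG.comp_continuous hpath hmem
  exact h3

/-- the abstract double shift -/
theorem dbl_shift {G H : ℂ → ℂ} (hGd : Differentiable ℂ G) (hHd : Differentiable ℂ H)
    {a r T V V' C g1 g2 h1 h2 h3 : ℝ} (ha0 : 0 < a) (har : a ≤ r) (hr : 2 ≤ r) (ha1 : a ≤ 1 / 2)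
    (hV : 0 ≤ V) (hV' : 0 ≤ V') (hC0 : 0 ≤ C)
    (hPhi : ∀ α γ : ℂ, a ≤ α.re → a ≤ (α + γ).re → ‖Phi α γ‖ ≤ C)
    (hg1 : 0 ≤ g1) (hh1 : 0 ≤ h1) (hg2 : 0 ≤ g2) (hh2 : 0 ≤ h2) (hh3 : 0 ≤ h3)
    (hG1 : ∀ x ∈ Icc a r, ∀ y : ℝ, (y = T - V ∨ y = T + V) → ‖G (x + y * I)‖ ≤ g1)
    (hG2 : ∀ t ∈ Icc (T - V) (T + V), ‖G ((r : ℂ) + t * I)‖ ≤ g2)
    (hH1 : ∀ u : ℝ, ‖H ((1 / 10 : ℝ) + u * I)‖ ≤ h1)
    (hH2 : ∀ x ∈ Icc (-(r / 2)) (1 / 10), ∀ y : ℝ, y ^ 2 = V' ^ 2 → ‖H (x + y * I)‖ ≤ h2)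
    (hH3 : ∀ u : ℝ, ‖H (((-(r / 2) : ℝ) : ℂ) + u * I)‖ ≤ h3) :
    ‖∫ u in (-V')..V', ∫ t in (T - V)..(T + V), G (a + t * I) *
      (H ((1 / 10 : ℝ) + u * I) * Phi (a + t * I) ((1 / 10 : ℝ) + u * I))‖ ≤
      (2 * ((r - a) * (g1 * (h1 * C)))) * (2 * V') +
      (g2 * ((h3 * C) * (2 * V') + 2 * ((1 / 10 + r / 2) * (h2 * C)))) * (2 * V) := by
  have hr0 : 0 < r := by linarith
  -- first shift
  have s1 : ∀ u : ℝ, ‖(∫ t in (T - V)..(T + V), G (a + t * I) *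
      (H ((1 / 10 : ℝ) + u * I) * Phi (a + t * I) ((1 / 10 : ℝ) + u * I))) -
      ∫ t in (T - V)..(T + V), G ((r : ℂ) + t * I) *
      (H ((1 / 10 : ℝ) + u * I) * Phi ((r : ℂ) + t * I) ((1 / 10 : ℝ) + u * I))‖ ≤
      2 * ((r - a) * (g1 * (h1 * C))) := by
    intro u
    have hγre : (((1 / 10 : ℝ) : ℂ) + u * I).re = 1 / 10 := by simp
    have hd1 : DifferentiableOn ℂ (fun z => G z * (H ((1 / 10 : ℝ) + u * I) *
        Phi z ((1 / 10 : ℝ) + u * I))) (uIcc a r ×ℂ uIcc (T - V) (T + V)) := by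
      apply hGd.differentiableOn.mul
      apply DifferentiableOn.const_mul
      refine (Phi_diff (γ := ((1 / 10 : ℝ) : ℂ) + u * I) (by rw [hγre]; norm_num)).mono ?_
      intro z hz
      rw [mem_reProdIm] at hz
      have := hz.1
      rw [uIcc_of_le har] at this
      show 0 < z.re
      linarith [this.1]
    have hb : ∀ x ∈ Icc a r, ∀ y : ℝ, (y = T - V ∨ y = T + V) →
        ‖G (x + y * I) * (H ((1 / 10 : ℝ) + u * I) * Phi (x + y * I) ((1 / 10 : ℝ) + u * I))‖ ≤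
        g1 * (h1 * C) := by
      intro x hx y hy
      have h5 := hG1 x hx y hy
      have h6 : ‖Phi (x + y * I) ((1 / 10 : ℝ) + u * I)‖ ≤ C := by
        apply hPhi
        · simpa using hx.1
        · rw [add_re, hγre]
          have : ((x : ℂ) + y * I).re = x := by simp
          rw [this]
          linarith [hx.1]
      rw [norm_mul, norm_mul]
      exact mul_le_mul h5 (mul_le_mul (hH1 u) h6 (norm_nonneg _) hh1) (by positivity) hg1
    exact rect_diff har hd1 (fun x hx => hb x hx _ (Or.inl rfl))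
      (fun x hx => hb x hx _ (Or.inr rfl))
  -- second shift
  have s2 : ∀ t : ℝ, t ∈ Icc (T - V) (T + V) →
      ‖∫ u in (-V')..V', G ((r : ℂ) + t * I) *
      (H ((1 / 10 : ℝ) + u * I) * Phi ((r : ℂ) + t * I) ((1 / 10 : ℝ) + u * I))‖ ≤
      g2 * ((h3 * C) * (2 * V') + 2 * ((1 / 10 + r / 2) * (h2 * C))) := by
    intro t ht
    have hαre : ((r : ℂ) + t * I).re = r := by simp
    rw [intervalIntegral.integral_const_mul, norm_mul]
    have hd2 : DifferentiableOn ℂ (fun w => H w * Phi ((r : ℂ) + t * I) w)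
        (uIcc (-(r / 2)) (1 / 10) ×ℂ uIcc (-V') V') := by
      apply hHd.differentiableOn.mul
      refine (Phi_diffG (α := (r : ℂ) + t * I) (by rw [hαre]; exact hr0)).mono ?_
      intro w hw
      rw [mem_reProdIm] at hw
      have := hw.1
      rw [uIcc_of_le (by linarith)] at this
      show 0 < ((r : ℂ) + t * I + w).re
      rw [add_re, hαre]
      linarith [this.1]
    have hPhib : ∀ x y : ℝ, -(r / 2) ≤ x → ‖Phi ((r : ℂ) + t * I) (x + y * I)‖ ≤ C := by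
      intro x y hx
      apply hPhi
      · rw [hαre]; linarith
      · rw [add_re, hαre]
        have : ((x : ℂ) + y * I).re = x := by simp
        rw [this]
        linarith
    have hhor : ∀ x ∈ Icc (-(r / 2)) (1 / 10), ∀ y : ℝ, y ^ 2 = V' ^ 2 →
        ‖H (x + y * I) * Phi ((r : ℂ) + t * I) (x + y * I)‖ ≤ h2 * C := by
      intro x hx y hy
      rw [norm_mul]
      exact mul_le_mul (hH2 x hx y hy) (hPhib x y hx.1) (norm_nonneg _) hh2
    have hleft : ‖∫ u in (-V')..V', H (((-(r / 2) : ℝ) : ℂ) + u * I) *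
        Phi ((r : ℂ) + t * I) (((-(r / 2) : ℝ) : ℂ) + u * I)‖ ≤
        (h3 * C) * |V' - (-V')| := by
      apply intervalIntegral.norm_integral_le_of_norm_le_const
      intro u _
      rw [norm_mul]
      exact mul_le_mul (hH3 u) (hPhib _ u le_rfl) (norm_nonneg _) hh3
    have hrd := rect_diff (f := fun w => H w * Phi ((r : ℂ) + t * I) w) (by linarith) hd2
      (fun x hx => by
        have := hhor x hx (-V') (by ring)
        simpa using this) (fun x hx => hhor x hx V' rfl)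
    have habs : |V' - (-V')| = 2 * V' := by
      rw [sub_neg_eq_add, abs_of_nonneg (by linarith)]; ring
    rw [habs] at hleft
    have hin : ‖∫ u in (-V')..V', H (((1 / 10 : ℝ) : ℂ) + u * I) *
        Phi ((r : ℂ) + t * I) (((1 / 10 : ℝ) : ℂ) + u * I)‖ ≤
        (h3 * C) * (2 * V') + 2 * ((1 / 10 + r / 2) * (h2 * C)) := by
      have h4 := norm_sub_norm_le (∫ u in (-V')..V', H (((1 / 10 : ℝ) : ℂ) + u * I) *
        Phi ((r : ℂ) + t * I) (((1 / 10 : ℝ) : ℂ) + u * I))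
        (∫ u in (-V')..V', H (((-(r / 2) : ℝ) : ℂ) + u * I) *
        Phi ((r : ℂ) + t * I) (((-(r / 2) : ℝ) : ℂ) + u * I))
      rw [norm_sub_rev] at hrd
      have h5 := h4.trans hrd
      rw [sub_neg_eq_add] at h5
      linarith
    exact mul_le_mul (hG2 t ht) hin (norm_nonneg _) hg2
  -- the swap
  have hcont : ∀ b : ℝ, 0 < b → Continuous (fun z : ℝ × ℝ => G ((b : ℂ) + z.2 * I) *
      (H ((1 / 10 : ℝ) + z.1 * I) * Phi ((b : ℂ) + z.2 * I) ((1 / 10 : ℝ) + z.1 * I))) := by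
    intro b hb
    have c1 : Continuous (fun z : ℝ × ℝ => G ((b : ℂ) + z.2 * I)) :=
      hGd.continuous.comp (by fun_prop)
    have c2 : Continuous (fun z : ℝ × ℝ => H ((1 / 10 : ℝ) + z.1 * I)) :=
      hHd.continuous.comp (by fun_prop)
    have c3 := Phi_cont_line hb
    exact c1.mul (c2.mul c3)
  have hcr := hcont r hr0
  have hca := hcont a ha0
  have hswap : (∫ u in (-V')..V', ∫ t in (T - V)..(T + V), G ((r : ℂ) + t * I) *
      (H ((1 / 10 : ℝ) + u * I) * Phi ((r : ℂ) + t * I) ((1 / 10 : ℝ) + u * I))) =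
      ∫ t in (T - V)..(T + V), ∫ u in (-V')..V', G ((r : ℂ) + t * I) *
      (H ((1 / 10 : ℝ) + u * I) * Phi ((r : ℂ) + t * I) ((1 / 10 : ℝ) + u * I)) := by
    apply MeasureTheory.intervalIntegral_intervalIntegral_swap
    have hK : IsCompact (uIcc (-V') V' ×ˢ uIcc (T - V) (T + V)) :=
      isCompact_uIcc.prod isCompact_uIcc
    have hi := hcr.continuousOn.integrableOn_compact (μ := (volume : Measure (ℝ × ℝ))) hK
    exact hi.mono_set (Set.prod_mono uIoc_subset_uIcc uIoc_subset_uIcc)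
  have hB : ‖∫ u in (-V')..V', ∫ t in (T - V)..(T + V), G ((r : ℂ) + t * I) *
      (H ((1 / 10 : ℝ) + u * I) * Phi ((r : ℂ) + t * I) ((1 / 10 : ℝ) + u * I))‖ ≤
      (g2 * ((h3 * C) * (2 * V') + 2 * ((1 / 10 + r / 2) * (h2 * C)))) *
        |(T + V) - (T - V)| := by
    rw [hswap]
    apply intervalIntegral.norm_integral_le_of_norm_le_const
    intro t ht
    rw [uIoc_of_le (by linarith)] at ht
    exact s2 t ⟨ht.1.le, ht.2⟩
  have habs2 : |(T + V) - (T - V)| = 2 * V := by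
    have : (T + V) - (T - V) = 2 * V := by ring
    rw [this, abs_of_nonneg (by linarith)]
  rw [habs2] at hB
  have hci : ∀ b : ℝ, 0 < b → Continuous (fun u : ℝ => ∫ t in (T - V)..(T + V),
      G ((b : ℂ) + t * I) *
      (H ((1 / 10 : ℝ) + u * I) * Phi ((b : ℂ) + t * I) ((1 / 10 : ℝ) + u * I))) := by
    intro b hb
    exact intervalIntegral.continuous_parametric_intervalIntegral_of_continuous' (hcont b hb) _ _
  have hA : ‖(∫ u in (-V')..V', ∫ t in (T - V)..(T + V), G (a + t * I) *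
      (H ((1 / 10 : ℝ) + u * I) * Phi (a + t * I) ((1 / 10 : ℝ) + u * I))) -
      (∫ u in (-V')..V', ∫ t in (T - V)..(T + V), G ((r : ℂ) + t * I) *
      (H ((1 / 10 : ℝ) + u * I) * Phi ((r : ℂ) + t * I) ((1 / 10 : ℝ) + u * I)))‖ ≤
      (2 * ((r - a) * (g1 * (h1 * C)))) * |V' - (-V')| := by
    rw [← intervalIntegral.integral_sub ((hci a ha0).intervalIntegrable _ _)
      ((hci r hr0).intervalIntegrable _ _)]
    apply intervalIntegral.norm_integral_le_of_norm_le_const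
    intro u _
    exact s1 u
  have habs : |V' - (-V')| = 2 * V' := by
    rw [sub_neg_eq_add, abs_of_nonneg (by linarith)]; ring
  rw [habs] at hA
  set X1 := ∫ u in (-V')..V', ∫ t in (T - V)..(T + V), G (a + t * I) *
    (H ((1 / 10 : ℝ) + u * I) * Phi (a + t * I) ((1 / 10 : ℝ) + u * I)) with hX1
  set X2 := ∫ u in (-V')..V', ∫ t in (T - V)..(T + V), G ((r : ℂ) + t * I) *
    (H ((1 / 10 : ℝ) + u * I) * Phi ((r : ℂ) + t * I) ((1 / 10 : ℝ) + u * I)) with hX2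
  have h7 : ‖X1‖ ≤ ‖X1 - X2‖ + ‖X2‖ := by
    have := norm_add_le (X1 - X2) X2
    rwa [sub_add_cancel] at this
  linarith

theorem phi_int {a : ℝ} (ha0 : 0 < a) (ha1 : a ≤ 1 / 2) : ∃ C : ℝ, 1 ≤ C ∧
    ∀ m : ℕ, 1 ≤ m → ∀ r : ℕ, 1000 ≤ (r : ℝ) → C ≤ r → ∀ d : OddSqf, ∀ l : ℝ, l ≤ Real.log r →
    ∀ p : ℕ, (r : ℝ) ^ 10 ≤ p → (p : ℝ) ≤ (r : ℝ) ^ 20 →
    ‖∫ u in (-(r : ℝ) ^ 22)..((r : ℝ) ^ 22),
      ∫ t in ((r : ℝ) ^ (m + 2) - (r : ℝ) ^ (m + 1))..((r : ℝ) ^ (m + 2) + (r : ℝ) ^ (m + 1)),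
        (KK ((r : ℝ) ^ m) ((r : ℝ) ^ (m + 2)) (a + t * I) *
        ee d (1 / 2 + (a + t * I)) * exp ((a + t * I) * l)) *
        ((KK ((r : ℝ) ^ 21) 0 ((1 / 10 : ℝ) + u * I) *
        exp (((1 / 10 : ℝ) + u * I) * (Real.log p : ℝ))) * Phi (a + t * I) ((1 / 10 : ℝ) + u * I))‖ ≤
      (r : ℝ) ^ (m + 28) * Real.exp (-((r : ℝ) / 4)) := by
  obtain ⟨C, hC1, hPhi⟩ := Phi_boundG ha0
  refine ⟨C, hC1, fun m hm r hr hCr d l hl p hp1 hp2 => ?_⟩
  have hr0 : (0 : ℝ) < r := by linarith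
  have hr1 : (1 : ℝ) ≤ r := by linarith
  have hC0 : 0 ≤ C := by linarith
  have hU0 : 0 < (r : ℝ) ^ m := by positivity
  have hTV : (r : ℝ) ^ (m + 1) ≤ (r : ℝ) ^ (m + 2) := pow_le_pow_right₀ hr1 (by omega)
  set τ := Real.exp (-((r : ℝ) / 4)) with hτ
  have hτ0 : 0 < τ := Real.exp_pos _
  have hp0 : (0 : ℝ) < p := lt_of_lt_of_le (by positivity) hp1
  have hGd : Differentiable ℂ (fun z => KK ((r : ℝ) ^ m) ((r : ℝ) ^ (m + 2)) z *
      ee d (1 / 2 + z) * exp (z * l)) := ((KK_diff _ _).mul (ee_diff d)).mul (by fun_prop)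
  have hHd : Differentiable ℂ (fun w => KK ((r : ℝ) ^ 21) 0 w * exp (w * (Real.log p : ℝ))) :=
    (KK_diff _ 0).mul (by fun_prop)
  -- bounds for `G` and `H`
  have hGn : ∀ x y : ℝ, 0 ≤ x → x ≤ r → 0 ≤ y → ‖KK ((r : ℝ) ^ m) ((r : ℝ) ^ (m + 2)) (x + y * I) *
      ee d (1 / 2 + (x + y * I)) * exp ((x + y * I) * l)‖ ≤
      Real.exp ((x ^ 2 - (y - (r : ℝ) ^ (m + 2)) ^ 2) / ((r : ℝ) ^ m) ^ 2) * 2 *
        (r : ℝ) ^ (r : ℝ) := by
    intro x y hx hxr hy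
    rw [norm_mul, norm_mul, KK_norm _ _ x y hU0, exp_l_norm]
    have h2 := exp_l_leG (x := x) (b := (r : ℝ)) hr1 hx hxr hl
    have h4 := ee_norm_le d (x := x) hy
    gcongr
  have hHn : ∀ x y : ℝ, ‖KK ((r : ℝ) ^ 21) 0 (x + y * I) * exp ((x + y * I) * (Real.log p : ℝ))‖ =
      Real.exp ((x ^ 2 - y ^ 2) / ((r : ℝ) ^ 21) ^ 2) * Real.exp (x * Real.log p) := by
    intro x y
    rw [norm_mul, KK_norm _ 0 x y (by positivity), exp_xy_norm x y (Real.log p), sub_zero]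
  have hp10 : Real.exp ((1 / 10 : ℝ) * Real.log p) ≤ (r : ℝ) ^ 2 := by
    have h3 : Real.log p ≤ 20 * Real.log r := by
      have := Real.log_le_log hp0 hp2
      rw [Real.log_pow] at this
      exact_mod_cast this
    calc Real.exp (1 / 10 * Real.log p) ≤ Real.exp (2 * Real.log r) :=
          Real.exp_le_exp.2 (by linarith)
      _ = (r : ℝ) ^ 2 := by
        rw [mul_comm, Real.exp_mul, Real.exp_log hr0]
        norm_num
  have hlogp : 0 ≤ Real.log p := by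
    apply Real.log_nonneg
    exact (one_le_pow₀ hr1).trans hp1
  have hrr0 : 0 < (r : ℝ) ^ (r : ℝ) := Real.rpow_pos_of_pos hr0 _
  have key := dbl_shift hGd hHd (a := a) (r := (r : ℝ)) (T := (r : ℝ) ^ (m + 2))
    (V := (r : ℝ) ^ (m + 1)) (V' := (r : ℝ) ^ 22) (C := C) (g1 := 6 * τ)
    (g2 := 6 * (r : ℝ) ^ (r : ℝ)) (h1 := 3 * (r : ℝ) ^ 2)
    (h2 := 3 * Real.exp (-((r : ℝ) ^ 2)) * (r : ℝ) ^ 2) (h3 := 3 * ((r : ℝ) ^ (5 * (r : ℝ)))⁻¹)
    ha0 (by linarith) (by linarith) ha1 (by positivity) (by positivity) hC0 hPhi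
    (by positivity) (by positivity) (by positivity) (by positivity) (by positivity)
    ?_ ?_ ?_ ?_ ?_
  rotate_left
  · intro x hx y hy
    have hT1 : (r : ℝ) ^ (m + 1) ≤ (r : ℝ) ^ (m + 2) := hTV
    have hVp : 0 < (r : ℝ) ^ (m + 1) := by positivity
    have hy0 : 0 ≤ y := by rcases hy with h | h <;> rw [h] <;> linarith
    have hx0 : 0 ≤ x := by linarith [hx.1]
    have h1 := hGn x y hx0 hx.2 hy0
    have h2 : (y - (r : ℝ) ^ (m + 2)) ^ 2 = ((r : ℝ) ^ (m + 1)) ^ 2 := by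
      rcases hy with h | h <;> rw [h] <;> ring
    rw [h2] at h1
    have h3 := exp_sub_le hr hm (x := x) (pow_le_pow_left₀ hx0 hx.2 2)
    have h4 := e_rr hr
    calc _ ≤ _ := h1
      _ ≤ (3 * Real.exp (-((r : ℝ) ^ 2))) * 2 * (r : ℝ) ^ (r : ℝ) := by gcongr
      _ = 6 * (Real.exp (-((r : ℝ) ^ 2)) * (r : ℝ) ^ (r : ℝ)) := by ring
      _ ≤ 6 * τ := by gcongr
  · intro t ht
    have hVp : 0 < (r : ℝ) ^ (m + 1) := by positivity
    have ht0 : 0 ≤ t := by linarith [ht.1]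
    have h1 := hGn r t hr0.le le_rfl ht0
    refine h1.trans ?_
    have h2 : Real.exp (((r : ℝ) ^ 2 - (t - (r : ℝ) ^ (m + 2)) ^ 2) / ((r : ℝ) ^ m) ^ 2) ≤ 3 := by
      refine le_trans (Real.exp_le_exp.2 ?_) (exp_sq_le hr hm (x := (r : ℝ)) le_rfl)
      apply div_le_div_of_nonneg_right _ (by positivity)
      nlinarith [sq_nonneg (t - (r : ℝ) ^ (m + 2))]
    calc _ ≤ 3 * 2 * (r : ℝ) ^ (r : ℝ) := by gcongr
      _ = _ := by ring
  · intro u
    rw [hHn]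
    have h1 : Real.exp (((1 / 10 : ℝ) ^ 2 - u ^ 2) / ((r : ℝ) ^ 21) ^ 2) ≤ 3 := by
      refine le_trans (Real.exp_le_exp.2 ?_) (exp_sq_le hr (k := 21) (by norm_num)
        (x := 1 / 10) (by nlinarith))
      apply div_le_div_of_nonneg_right _ (by positivity)
      nlinarith [sq_nonneg u]
    gcongr
  · intro x hx y hy
    rw [hHn, hy]
    have h3 : x ^ 2 ≤ (r : ℝ) ^ 2 := by
      have h4 : -(r : ℝ) ≤ x := by linarith [hx.1]
      have h5 : x ≤ r := by linarith [hx.2]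
      nlinarith
    have h4 := exp_sub_le hr (k := 21) (by norm_num) h3
    have h5 : Real.exp (x * Real.log p) ≤ (r : ℝ) ^ 2 := by
      refine le_trans (Real.exp_le_exp.2 ?_) hp10
      exact mul_le_mul_of_nonneg_right hx.2 hlogp
    exact mul_le_mul h4 h5 (Real.exp_pos _).le (by positivity)
  · intro u
    rw [hHn]
    have h3 : Real.exp (((-((r : ℝ) / 2)) ^ 2 - u ^ 2) / ((r : ℝ) ^ 21) ^ 2) ≤ 3 := by
      refine le_trans (Real.exp_le_exp.2 ?_) (exp_sq_le hr (k := 21) (by norm_num)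
        (x := -((r : ℝ) / 2)) (by nlinarith))
      apply div_le_div_of_nonneg_right _ (by positivity)
      nlinarith [sq_nonneg u]
    have h4 : Real.exp (-((r : ℝ) / 2) * Real.log p) ≤ ((r : ℝ) ^ (5 * (r : ℝ)))⁻¹ := by
      rw [Real.rpow_def_of_pos hr0, ← Real.exp_neg]
      apply Real.exp_le_exp.2
      have h5 : 10 * Real.log r ≤ Real.log p := by
        have := Real.log_le_log (by positivity) hp1
        rw [Real.log_pow] at this
        exact_mod_cast this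
      nlinarith
    exact mul_le_mul h3 h4 (Real.exp_pos _).le (by norm_num)
  refine key.trans ?_
  -- arithmetic
  have c1 : (r : ℝ) ^ (r : ℝ) * ((r : ℝ) ^ (5 * (r : ℝ)))⁻¹ ≤ τ := by
    rw [← Real.rpow_neg hr0.le, ← Real.rpow_add hr0, hτ, Real.rpow_def_of_pos hr0]
    apply Real.exp_le_exp.2
    have hlog1 : 1 ≤ Real.log r := by
      rw [Real.le_log_iff_exp_le hr0]
      have := Real.exp_one_lt_d9
      linarith
    nlinarith
  have c2 : (r : ℝ) ^ (r : ℝ) * Real.exp (-((r : ℝ) ^ 2)) ≤ τ := by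
    rw [mul_comm]; exact e_rr hr
  have h2 : 2 * (((r : ℝ) - a) * (6 * τ * (3 * (r : ℝ) ^ 2 * C))) * (2 * (r : ℝ) ^ 22) ≤
      72 * ((r : ℝ) ^ (m + 26) * τ) := by
    calc _ ≤ 2 * ((r : ℝ) * (6 * τ * (3 * (r : ℝ) ^ 2 * r))) * (2 * (r : ℝ) ^ 22) := by
          have : (r : ℝ) - a ≤ r := by linarith
          gcongr
      _ = 72 * ((r : ℝ) ^ 26 * τ) := by ring
      _ ≤ 72 * ((r : ℝ) ^ (m + 26) * τ) := by
          have : (r : ℝ) ^ 26 ≤ (r : ℝ) ^ (m + 26) := pow_le_pow_right₀ hr1 (by omega)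
          gcongr
  have h3 : 6 * (r : ℝ) ^ (r : ℝ) * (3 * ((r : ℝ) ^ (5 * (r : ℝ)))⁻¹ * C * (2 * (r : ℝ) ^ 22) +
      2 * ((1 / 10 + (r : ℝ) / 2) * (3 * Real.exp (-((r : ℝ) ^ 2)) * (r : ℝ) ^ 2 * C))) *
      (2 * (r : ℝ) ^ (m + 1)) ≤ 144 * ((r : ℝ) ^ (m + 26) * τ) := by
    calc _ = (36 * C * (r : ℝ) ^ 22 * ((r : ℝ) ^ (r : ℝ) * ((r : ℝ) ^ (5 * (r : ℝ)))⁻¹) +
          36 * (1 / 10 + (r : ℝ) / 2) * (r : ℝ) ^ 2 * C *
          ((r : ℝ) ^ (r : ℝ) * Real.exp (-((r : ℝ) ^ 2)))) * (2 * (r : ℝ) ^ (m + 1)) := by ring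
      _ ≤ (36 * r * (r : ℝ) ^ 22 * τ +
          36 * r * (r : ℝ) ^ 2 * r * τ) * (2 * (r : ℝ) ^ (m + 1)) := by
          have : (1 / 10 + (r : ℝ) / 2) ≤ r := by linarith
          gcongr
      _ = 72 * ((r : ℝ) ^ (m + 24) * τ) + 72 * ((r : ℝ) ^ (m + 5) * τ) := by ring
      _ ≤ 72 * ((r : ℝ) ^ (m + 26) * τ) + 72 * ((r : ℝ) ^ (m + 26) * τ) := by
          have : (r : ℝ) ^ (m + 24) ≤ (r : ℝ) ^ (m + 26) := pow_le_pow_right₀ hr1 (by omega)
          have : (r : ℝ) ^ (m + 5) ≤ (r : ℝ) ^ (m + 26) := pow_le_pow_right₀ hr1 (by omega)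
          gcongr
      _ = _ := by ring
  have h4 : 216 * ((r : ℝ) ^ (m + 26) * τ) ≤ (r : ℝ) ^ (m + 28) * τ := by
    have : (r : ℝ) ^ (m + 28) * τ = (r * r) * ((r : ℝ) ^ (m + 26) * τ) := by ring
    rw [this]
    apply mul_le_mul_of_nonneg_right _ (by positivity)
    nlinarith
  linarith

end Pool.Agent.KS6_76.RT
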