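import Pool.Agent.KS6_76.RT.EB
import Pool.Agent.KS6_76.RT.PhiInt
import Pool.Graph.R_seed8.H491R3.GPart

/-! The double integral which extracts the diagonal. -/

set_option autoImplicit false

namespace Pool.Agent.KS6_76.RT

open Finset Complex MeasureTheory Pool.Agent.H491R3

theorem kapG {m r n₀ : ℕ} (hr : 1 ≤ r) (hn₀ : 1 ≤ n₀) {x y : ℝ} (hx : 0 < x) (hy : 0 < y)
    (hx2 : x ≤ 2 * ((n₀ : ℝ) * (r : ℝ) ^ (m + 4))) (hy2 : y ≤ 2 * ((n₀ : ℝ) * (r : ℝ) ^ (m + 4))) :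
    Real.exp (-(((r : ℝ) ^ m) ^ 2 * (Real.log x - Real.log y) ^ 2 / 4)) ≤
      kg ((n₀ * r ^ 4 : ℕ) : ℝ) (x - y) := by
  have hr0 : (0 : ℝ) < r := by exact_mod_cast hr
  have hn0 : (0 : ℝ) < n₀ := by exact_mod_cast hn₀
  unfold kg
  apply Real.exp_le_exp.2
  have h := log_sep (X := (n₀ : ℝ) * (r : ℝ) ^ (m + 4)) (by positivity) hx hy hx2 hy2
  have h2 : (x - y) ^ 2 / (16 * (((n₀ * r ^ 4 : ℕ) : ℝ)) ^ 2) =
      ((r : ℝ) ^ m) ^ 2 * ((x - y) ^ 2 / (4 * ((n₀ : ℝ) * (r : ℝ) ^ (m + 4)) ^ 2)) / 4 := by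
    push_cast
    field_simp
    ring
  rw [h2]
  have : ((r : ℝ) ^ m) ^ 2 * ((x - y) ^ 2 / (4 * ((n₀ : ℝ) * (r : ℝ) ^ (m + 4)) ^ 2)) ≤
      ((r : ℝ) ^ m) ^ 2 * (Real.log x - Real.log y) ^ 2 := by gcongr
  linarith

theorem SrG_window {m : ℕ} {ρ : ℝ} (hρ : ρ ≤ 6 / 5) {r : ℕ} {d : OddSqf} (h : d ∈ SrG m ρ r) :
    d.1.natAbs ∈ Ico (r ^ (m + 4)) (2 * r ^ (m + 4)) ∧ 0 < d.1 ∧
      (r : ℝ) ^ (m + 4) < |(d.1 : ℝ)| ∧ |(d.1 : ℝ)| ≤ 6 / 5 * (r : ℝ) ^ (m + 4) := by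
  rw [mem_SrG (by linarith)] at h
  obtain ⟨h1, h2⟩ := h
  have hR : (0 : ℝ) ≤ (r : ℝ) ^ (m + 4) := by positivity
  have hpos : (0 : ℝ) < (d.1 : ℝ) := by linarith
  have hpos' : 0 < d.1 := by exact_mod_cast hpos
  have h3 : (d.1 : ℝ) ≤ 6 / 5 * (r : ℝ) ^ (m + 4) := by nlinarith
  have hR0 : (0 : ℝ) < (r : ℝ) ^ (m + 4) := by nlinarith
  refine ⟨?_, hpos', ?_, ?_⟩
  · rw [mem_Ico]
    have hn := natAbs_cast_real d
    rw [abs_of_pos hpos] at hn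
    constructor
    · have : ((r ^ (m + 4) : ℕ) : ℝ) ≤ ((d.1.natAbs : ℕ) : ℝ) := by
        rw [hn]; push_cast; linarith
      exact_mod_cast this
    · have : ((d.1.natAbs : ℕ) : ℝ) < ((2 * r ^ (m + 4) : ℕ) : ℝ) := by
        rw [hn]; push_cast; linarith
      exact_mod_cast this
  · rwa [abs_of_pos hpos]
  · rwa [abs_of_pos hpos]

theorem SrG_card {m : ℕ} {ρ : ℝ} (hρ : ρ ≤ 6 / 5) (r : ℕ) :
    (#(SrG m ρ r) : ℝ) ≤ (r : ℝ) ^ (m + 4) := by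
  have h := sum_inj (SrG m ρ r) (Ico (r ^ (m + 4)) (2 * r ^ (m + 4))) (fun _ => 1)
    (fun _ => zero_le_one)
    (fun d hd => (SrG_window hρ hd).1) (Or.inl fun d hd => (SrG_window hρ hd).2.1)
  rw [sum_const, sum_const, Nat.card_Ico, nsmul_eq_mul, mul_one, nsmul_eq_mul, mul_one] at h
  have e : 2 * r ^ (m + 4) - r ^ (m + 4) = r ^ (m + 4) := by omega
  rw [e] at h
  exact_mod_cast h

theorem DrG_card {m r : ℕ} (hr : 1 ≤ r) : (#(DrG m r) : ℝ) ≤ 3 * (r : ℝ) ^ (m + 5) := by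
  classical
  have h1 : #(DrG m r) ≤ 2 * r ^ (m + 5) + 1 := by
    unfold DrG Dset
    rw [Finset.card_subtype]
    refine (card_filter_le _ _).trans ?_
    rw [Int.card_Icc]
    have : (((r ^ (m + 5) : ℕ) : ℤ) + 1 - -((r ^ (m + 5) : ℕ) : ℤ)).toNat =
        2 * r ^ (m + 5) + 1 := by
      omega
    rw [this]
  have h2 : 1 ≤ r ^ (m + 5) := Nat.one_le_pow _ _ hr
  have h3 : #(DrG m r) ≤ 3 * r ^ (m + 5) := by omega
  exact_mod_cast h3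

/-- the Dirichlet polynomial over the window -/
noncomputable def psiG (m : ℕ) (ρ : ℝ) (r p : ℕ) (β : ℂ) : ℂ := ∑ e ∈ SrG m ρ r,
  ((Wr e * kr e p : ℝ) : ℂ) * exp (-(β * (Real.log |(e.1 : ℝ)| : ℝ)))

theorem psi_doubleG {m : ℕ} {ρ : ℝ} (hρ : ρ ≤ 6 / 5) {r : ℕ} (hr : 1 ≤ r) :
    ∑ a ∈ SrG m ρ r, ∑ b ∈ SrG m ρ r, Real.exp (-(((r : ℝ) ^ m) ^ 2 *
      (Real.log |(b.1 : ℝ)| - Real.log |(a.1 : ℝ)|) ^ 2 / 4)) ≤ 35 * (r : ℝ) ^ (m + 8) := by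
  have hr0 : (0 : ℝ) < r := by exact_mod_cast hr
  set J := Ico (r ^ (m + 4)) (2 * r ^ (m + 4)) with hJ
  have h1 : ∀ a ∈ SrG m ρ r, ∑ b ∈ SrG m ρ r, Real.exp (-(((r : ℝ) ^ m) ^ 2 *
      (Real.log |(b.1 : ℝ)| - Real.log |(a.1 : ℝ)|) ^ 2 / 4)) ≤
      ∑ m ∈ J, kg ((r ^ 4 : ℕ) : ℝ) ((m : ℝ) - ((a.1.natAbs : ℕ) : ℝ)) := by
    intro a ha
    have h := sum_inj (SrG m ρ r) J
      (fun m => kg ((r ^ 4 : ℕ) : ℝ) ((m : ℝ) - ((a.1.natAbs : ℕ) : ℝ)))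
      (fun m => (kg_pos _ _).le) (fun d hd => (SrG_window hρ hd).1)
      (Or.inl fun d hd => (SrG_window hρ hd).2.1)
    refine le_trans (sum_le_sum fun b hb => ?_) h
    obtain ⟨-, -, a3, a4⟩ := SrG_window hρ ha
    obtain ⟨-, -, b3, b4⟩ := SrG_window hρ hb
    have hX : (0 : ℝ) < (r : ℝ) ^ (m + 4) := by positivity
    have := kapG (m := m) (n₀ := 1) hr le_rfl (x := |(b.1 : ℝ)|) (y := |(a.1 : ℝ)|) (by linarith)
      (by linarith) (by push_cast; linarith) (by push_cast; linarith)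
    rw [one_mul] at this
    rw [natAbs_cast_real, natAbs_cast_real]
    exact this
  have h2 := sum_le_sum h1
  have h3 := sum_inj (SrG m ρ r) J
      (fun n => ∑ m ∈ J, kg ((r ^ 4 : ℕ) : ℝ) ((m : ℝ) - (n : ℝ)))
      (fun n => sum_nonneg fun m _ => (kg_pos _ _).le) (fun d hd => (SrG_window hρ hd).1)
      (Or.inl fun d hd => (SrG_window hρ hd).2.1)
  have h4 := pair_gauss (Y := r ^ 4) (N := r ^ (m + 4)) (Nat.one_le_pow _ _ hr)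
  refine h2.trans (h3.trans ?_)
  rw [sum_comm]
  refine h4.trans (le_of_eq ?_)
  push_cast
  ring

/-- the size of the Dirichlet polynomial in mean -/
noncomputable def lamG (a : ℝ) (m r : ℕ) : ℝ :=
  6 * Real.sqrt ((r : ℝ) ^ (m + 8)) * ((r : ℝ) ^ (m + 4)) ^ (-a)

theorem psi_l1G {a : ℝ} (ha0 : 0 < a) {m : ℕ} {ρ : ℝ} (hρ : ρ ≤ 6 / 5) {r : ℕ} (hr : 1 ≤ r)
    (T : ℝ) (p : ℕ) :
    Integrable (fun t : ℝ => Real.exp (-((t - T) ^ 2 / ((r : ℝ) ^ m) ^ 2)) *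
      ‖psiG m ρ r p ((a : ℂ) + t * I)‖) ∧
    ∫ t : ℝ, Real.exp (-((t - T) ^ 2 / ((r : ℝ) ^ m) ^ 2)) *
      ‖psiG m ρ r p ((a : ℂ) + t * I)‖ ≤ Real.sqrt Real.pi * (r : ℝ) ^ m * lamG a m r := by
  have hr0 : (0 : ℝ) < r := by exact_mod_cast hr
  set c : OddSqf → ℂ := fun e => ((Wr e * kr e p : ℝ) : ℂ) *
    ((Real.exp (-(a * Real.log |(e.1 : ℝ)|)) : ℝ) : ℂ) with hc
  set l : OddSqf → ℝ := fun e => Real.log |(e.1 : ℝ)| with hl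
  have hpsi : ∀ t : ℝ, psiG m ρ r p ((a : ℂ) + t * I) =
      ∑ a ∈ SrG m ρ r, c a * exp (-(t * l a * I)) := by
    intro t
    unfold psiG
    apply sum_congr rfl
    intro e _
    simp only [hc, hl]
    rw [mul_assoc]
    congr 1
    rw [ofReal_exp, ← exp_add]
    congr 1
    push_cast
    ring
  set Pa := ((r : ℝ) ^ (m + 4)) ^ (-a) with hPa
  have hPa0 : 0 < Pa := Real.rpow_pos_of_pos (by positivity) _
  have hcn : ∀ e ∈ SrG m ρ r, ‖c e‖ ≤ Pa := by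
    intro e he
    obtain ⟨-, -, a3, -⟩ := SrG_window hρ he
    have hX : (0 : ℝ) < (r : ℝ) ^ (m + 4) := by positivity
    simp only [hc]
    rw [norm_mul, norm_real, norm_real, Real.norm_eq_abs, Real.norm_eq_abs, abs_mul, Wr_abs, one_mul,
      abs_of_pos (Real.exp_pos _)]
    have h1 : Real.exp (-(a * Real.log |(e.1 : ℝ)|)) ≤ Pa := by
      have h2 : Real.log ((r : ℝ) ^ (m + 4)) ≤ Real.log |(e.1 : ℝ)| := Real.log_le_log hX a3.le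
      rw [hPa, Real.rpow_def_of_pos hX]
      apply Real.exp_le_exp.2
      nlinarith
    calc |kr e p| * Real.exp (-(a * Real.log |(e.1 : ℝ)|)) ≤ 1 * Pa :=
          mul_le_mul (kr_abs e p) h1 (Real.exp_pos _).le zero_le_one
      _ = _ := one_mul _
  have hb : ∑ a ∈ SrG m ρ r, ∑ b ∈ SrG m ρ r, ‖c a‖ * ‖c b‖ *
      Real.exp (-(((r : ℝ) ^ m) ^ 2 * (l b - l a) ^ 2 / 4)) ≤ (lamG a m r) ^ 2 := by
    calc _ ≤ ∑ a ∈ SrG m ρ r, ∑ b ∈ SrG m ρ r, (Pa * Pa) *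
          Real.exp (-(((r : ℝ) ^ m) ^ 2 * (l b - l a) ^ 2 / 4)) := by
          apply sum_le_sum
          intro a ha
          apply sum_le_sum
          intro b hb
          apply mul_le_mul_of_nonneg_right _ (Real.exp_pos _).le
          exact mul_le_mul (hcn a ha) (hcn b hb) (norm_nonneg _) hPa0.le
      _ = (Pa * Pa) * ∑ a ∈ SrG m ρ r, ∑ b ∈ SrG m ρ r,
          Real.exp (-(((r : ℝ) ^ m) ^ 2 * (l b - l a) ^ 2 / 4)) := by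
          simp_rw [mul_sum]
      _ ≤ (Pa * Pa) * (35 * (r : ℝ) ^ (m + 8)) :=
          mul_le_mul_of_nonneg_left (psi_doubleG hρ hr) (by positivity)
      _ ≤ (lamG a m r) ^ 2 := by
          unfold lamG
          rw [← hPa, mul_pow, mul_pow, Real.sq_sqrt (by positivity)]
          have : 0 ≤ Pa * Pa * (r : ℝ) ^ (m + 8) := by positivity
          nlinarith
  have hlam : 0 < lamG a m r := by
    unfold lamG
    rw [← hPa]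
    positivity
  have h := l1_bound (SrG m ρ r) c l (U := (r : ℝ) ^ m) (by positivity) T hlam hb
  simp_rw [hpsi]
  exact h

theorem psiG_cont (a : ℝ) (m : ℕ) (ρ : ℝ) (r p : ℕ) :
    Continuous (fun t : ℝ => psiG m ρ r p ((a : ℂ) + t * I)) := by
  unfold psiG
  fun_prop

/-- the coefficients of the double sums -/
noncomputable def acoG (v : OddSqf → ℝ) (p : ℕ) (d e : OddSqf) : ℂ :=
  ((v d * (Wr e * kr e p) : ℝ) : ℂ)

theorem acoG_norm {v : OddSqf → ℝ} (hv : ∀ d, |v d| ≤ 1) (p : ℕ) (d e : OddSqf) :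
    ‖acoG v p d e‖ ≤ 1 := by
  unfold acoG
  rw [norm_real, Real.norm_eq_abs, abs_mul, abs_mul, Wr_abs, one_mul]
  calc |v d| * |kr e p| ≤ 1 * 1 := mul_le_mul (hv d) (kr_abs e p) (abs_nonneg _) (by norm_num)
    _ = 1 := by norm_num

/-- the kernel in `β` -/
noncomputable def Gk (d : OddSqf) (m r : ℕ) (l : ℝ) (z : ℂ) : ℂ :=
  KK ((r : ℝ) ^ m) ((r : ℝ) ^ (m + 2)) z * ee d (1 / 2 + z) * exp (z * l)

/-- the kernel in `γ` -/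
noncomputable def Hk (r p : ℕ) (z : ℂ) : ℂ :=
  KK ((r : ℝ) ^ 21) 0 z * exp (z * (Real.log p : ℝ))

theorem Gk_diff (d : OddSqf) (m r : ℕ) (l : ℝ) : Differentiable ℂ (Gk d m r l) := by
  unfold Gk
  exact ((KK_diff _ _).mul (ee_diff d)).mul (by fun_prop)

theorem Hk_diff (r p : ℕ) : Differentiable ℂ (Hk r p) := by
  unfold Hk
  exact (KK_diff _ 0).mul (by fun_prop)

theorem expandG (v : OddSqf → ℝ) (m : ℕ) (ρ : ℝ) (r p : ℕ) (β γ : ℂ) :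
    (KK ((r : ℝ) ^ m) ((r : ℝ) ^ (m + 2)) β * psiG m ρ r p β) *
      (Hk r p γ * ∑ d ∈ DrG m r, ((v d : ℝ) : ℂ) * Tt β γ d) =
    ∑ d ∈ DrG m r, ∑ e ∈ SrG m ρ r, (acoG v p d e * (W d * (Hk r p γ * (L d (1 / 2 + γ))⁻¹)) *
      (Gk d m r (ll d e) β * L d (1 / 2 + β)) -
      acoG v p d e * (Gk d m r (ll d e) β * (Hk r p γ * Phi β γ))) := by
  unfold psiG
  rw [mul_sum, mul_sum, mul_sum]
  apply sum_congr rfl
  intro d _
  rw [sum_mul]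
  apply sum_congr rfl
  intro e _
  unfold Tt Gk acoG
  have h : exp (β * (ll d e : ℝ)) = exp (β * (Real.log |(d.1 : ℝ)| : ℝ)) *
      exp (-(β * (Real.log |(e.1 : ℝ)| : ℝ))) := by
    rw [← exp_add]
    congr 1
    unfold ll
    push_cast
    ring
  rw [h]
  push_cast
  ring

/-- the double integral -/
noncomputable def DD (a : ℝ) (v : OddSqf → ℝ) (m : ℕ) (ρ : ℝ) (r p : ℕ) : ℂ :=
  ∫ u in (-(r : ℝ) ^ 22)..((r : ℝ) ^ 22),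
    ∫ t in ((r : ℝ) ^ (m + 2) - (r : ℝ) ^ (m + 1))..((r : ℝ) ^ (m + 2) + (r : ℝ) ^ (m + 1)),
      (KK ((r : ℝ) ^ m) ((r : ℝ) ^ (m + 2)) ((a : ℂ) + t * I) * psiG m ρ r p ((a : ℂ) + t * I)) *
      (Hk r p ((1 / 10 : ℝ) + u * I) * ∑ d ∈ DrG m r, ((v d : ℝ) : ℂ) *
        Tt ((a : ℂ) + t * I) ((1 / 10 : ℝ) + u * I) d)

theorem DD_upper {a : ℝ} (ha0 : 0 < a) (ha1 : a ≤ 1 / 2) {v : OddSqf → ℝ} {m : ℕ} {ρ : ℝ}
    (hρ : ρ ≤ 6 / 5) {r p : ℕ} (hr : 1000 ≤ (r : ℝ)) (hp : 1 ≤ p) {M : ℝ} (hM : 0 ≤ M)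
    (hE : ∀ t u : ℝ, (r : ℝ) ^ (m + 2) - (r : ℝ) ^ (m + 1) ≤ t →
      t ≤ (r : ℝ) ^ (m + 2) + (r : ℝ) ^ (m + 1) → |u| ≤ (r : ℝ) ^ 22 →
      ‖∑ d ∈ DrG m r, ((v d : ℝ) : ℂ) * Tt ((a : ℂ) + t * I) ((1 / 10 : ℝ) + u * I) d‖ ≤ M) :
    ‖DD a v m ρ r p‖ ≤ (2 * (p : ℝ) ^ (1 / 10 : ℝ) * (Real.sqrt Real.pi * (r : ℝ) ^ 21)) *
      (2 * M * (Real.sqrt Real.pi * (r : ℝ) ^ m * lamG a m r)) := by
  have hr0 : (0 : ℝ) < r := by linarith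
  have hr1 : (1 : ℝ) ≤ r := by linarith
  have hrn : 1 ≤ r := by exact_mod_cast hr1
  have hp0 : (0 : ℝ) < p := by exact_mod_cast hp
  obtain ⟨g1, g2⟩ := psi_l1G ha0 hρ hrn ((r : ℝ) ^ (m + 2)) p
  set g : ℝ → ℝ := fun t => Real.exp (-((t - (r : ℝ) ^ (m + 2)) ^ 2 / ((r : ℝ) ^ m) ^ 2)) *
      ‖psiG m ρ r p ((a : ℂ) + t * I)‖ with hg
  have hm1 : 0 < (r : ℝ) ^ (m + 1) := by positivity
  have hle : ((r : ℝ) ^ (m + 2) - (r : ℝ) ^ (m + 1)) ≤ ((r : ℝ) ^ (m + 2) + (r : ℝ) ^ (m + 1)) := by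
    linarith
  have hlam0 : 0 ≤ lamG a m r := by unfold lamG; positivity
  have hHn : ∀ u : ℝ, ‖Hk r p ((1 / 10 : ℝ) + u * I)‖ ≤
      2 * (p : ℝ) ^ (1 / 10 : ℝ) * Real.exp (-((u - 0) ^ 2 / ((r : ℝ) ^ 21) ^ 2)) := by
    intro u
    unfold Hk
    have e1 := KK_le hrn (k := 21) (a := 1 / 10) (T := 0) (t := u) (by
      rw [abs_of_pos (by norm_num)]; norm_num)
    have e2 : ‖exp (((1 / 10 : ℝ) + u * I) * (Real.log p : ℝ))‖ = (p : ℝ) ^ (1 / 10 : ℝ) := by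
      rw [exp_xy_norm (1 / 10) u (Real.log p), mul_comm, Real.exp_mul, Real.exp_log hp0]
    rw [norm_mul, e2]
    calc _ ≤ (2 * Real.exp (-((u - 0) ^ 2 / ((r : ℝ) ^ 21) ^ 2))) * (p : ℝ) ^ (1 / 10 : ℝ) := by
          gcongr
      _ = _ := by ring
  -- the inner integral
  have hin : ∀ u : ℝ, |u| ≤ (r : ℝ) ^ 22 →
      ‖∫ t in ((r : ℝ) ^ (m + 2) - (r : ℝ) ^ (m + 1))..((r : ℝ) ^ (m + 2) + (r : ℝ) ^ (m + 1)),
      (KK ((r : ℝ) ^ m) ((r : ℝ) ^ (m + 2)) ((a : ℂ) + t * I) * psiG m ρ r p ((a : ℂ) + t * I)) *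
      (Hk r p ((1 / 10 : ℝ) + u * I) * ∑ d ∈ DrG m r, ((v d : ℝ) : ℂ) *
        Tt ((a : ℂ) + t * I) ((1 / 10 : ℝ) + u * I) d)‖ ≤
      (2 * M * ‖Hk r p ((1 / 10 : ℝ) + u * I)‖) *
        (Real.sqrt Real.pi * (r : ℝ) ^ m * lamG a m r) := by
    intro u hu
    have h1 : ‖∫ t in ((r : ℝ) ^ (m + 2) - (r : ℝ) ^ (m + 1))..((r : ℝ) ^ (m + 2) +
        (r : ℝ) ^ (m + 1)),
      (KK ((r : ℝ) ^ m) ((r : ℝ) ^ (m + 2)) ((a : ℂ) + t * I) * psiG m ρ r p ((a : ℂ) + t * I)) *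
      (Hk r p ((1 / 10 : ℝ) + u * I) * ∑ d ∈ DrG m r, ((v d : ℝ) : ℂ) *
        Tt ((a : ℂ) + t * I) ((1 / 10 : ℝ) + u * I) d)‖ ≤
      ∫ t in ((r : ℝ) ^ (m + 2) - (r : ℝ) ^ (m + 1))..((r : ℝ) ^ (m + 2) + (r : ℝ) ^ (m + 1)),
        (2 * M * ‖Hk r p ((1 / 10 : ℝ) + u * I)‖) * g t := by
      apply intervalIntegral.norm_integral_le_of_norm_le hle
      · refine Filter.Eventually.of_forall fun t ht => ?_
        rw [norm_mul, norm_mul, norm_mul]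
        have e1 := KK_le hrn (k := m) (a := a) (T := (r : ℝ) ^ (m + 2)) (t := t) (by
          rw [abs_of_pos ha0]; exact ha1)
        have e2 := hE t u ht.1.le ht.2 hu
        calc _ ≤ ((2 * Real.exp (-((t - (r : ℝ) ^ (m + 2)) ^ 2 / ((r : ℝ) ^ m) ^ 2))) *
              ‖psiG m ρ r p ((a : ℂ) + t * I)‖) * (‖Hk r p ((1 / 10 : ℝ) + u * I)‖ * M) := by gcongr
          _ = _ := by simp only [hg]; ring
      · exact (g1.const_mul _).intervalIntegrable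
    refine h1.trans ?_
    rw [intervalIntegral.integral_const_mul, intervalIntegral.integral_of_le hle]
    have h2 : ∫ t in Set.Ioc ((r : ℝ) ^ (m + 2) - (r : ℝ) ^ (m + 1)) ((r : ℝ) ^ (m + 2) +
        (r : ℝ) ^ (m + 1)), g t ≤ ∫ t, g t :=
      setIntegral_le_integral g1 (Filter.Eventually.of_forall fun t => by
        simp only [hg]; positivity)
    exact mul_le_mul_of_nonneg_left (h2.trans g2) (by positivity)
  -- the outer integral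
  obtain ⟨k1, k2⟩ := gauss_one (U := (r : ℝ) ^ 21) (by positivity) 0
  have h22 : (0 : ℝ) < (r : ℝ) ^ 22 := by positivity
  have hle2 : -(r : ℝ) ^ 22 ≤ (r : ℝ) ^ 22 := by linarith
  set c : ℝ := 2 * (p : ℝ) ^ (1 / 10 : ℝ) *
    (2 * M * (Real.sqrt Real.pi * (r : ℝ) ^ m * lamG a m r)) with hc
  have hc0 : 0 ≤ c := by positivity
  have h3 : ‖DD a v m ρ r p‖ ≤ ∫ u in (-(r : ℝ) ^ 22)..((r : ℝ) ^ 22),
      c * Real.exp (-((u - 0) ^ 2 / ((r : ℝ) ^ 21) ^ 2)) := by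
    unfold DD
    apply intervalIntegral.norm_integral_le_of_norm_le hle2
    · refine Filter.Eventually.of_forall fun u hu => ?_
      refine (hin u (abs_le.2 ⟨hu.1.le, hu.2⟩)).trans ?_
      have := hHn u
      calc _ ≤ (2 * M * (2 * (p : ℝ) ^ (1 / 10 : ℝ) *
            Real.exp (-((u - 0) ^ 2 / ((r : ℝ) ^ 21) ^ 2)))) *
            (Real.sqrt Real.pi * (r : ℝ) ^ m * lamG a m r) := by gcongr
        _ = _ := by rw [hc]; ring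
    · exact (k1.const_mul _).intervalIntegrable
  refine h3.trans ?_
  rw [intervalIntegral.integral_const_mul, intervalIntegral.integral_of_le hle2]
  have h4 : ∫ u in Set.Ioc (-(r : ℝ) ^ 22) ((r : ℝ) ^ 22),
      Real.exp (-((u - 0) ^ 2 / ((r : ℝ) ^ 21) ^ 2)) ≤
      ∫ u, Real.exp (-((u - 0) ^ 2 / ((r : ℝ) ^ 21) ^ 2)) :=
    setIntegral_le_integral k1 (Filter.Eventually.of_forall fun t => (Real.exp_pos _).le)
  rw [k2] at h4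
  calc _ ≤ c * (Real.sqrt Real.pi * (r : ℝ) ^ 21) := mul_le_mul_of_nonneg_left h4 hc0
    _ = _ := by rw [hc]; ring

end Pool.Agent.KS6_76.RT
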