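import Pool.Agent.KS6_76.RT.Dp

set_option autoImplicit false

namespace Pool.Agent.KS6_76.RT

open Finset Complex MeasureTheory Pool.Agent.H491R3

/-- the `β`-integral -/
noncomputable def Bi (a : ℝ) (d : OddSqf) (m r : ℕ) (l : ℝ) : ℂ :=
  ∫ t in ((r : ℝ) ^ (m + 2) - (r : ℝ) ^ (m + 1))..((r : ℝ) ^ (m + 2) + (r : ℝ) ^ (m + 1)),
    Gk d m r l ((a : ℂ) + t * I) * L d (1 / 2 + ((a : ℂ) + t * I))

/-- the `γ`-integral -/
noncomputable def Gi (d : OddSqf) (r p : ℕ) : ℂ :=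
  ∫ u in (-(r : ℝ) ^ 22)..((r : ℝ) ^ 22),
    Hk r p ((1 / 10 : ℝ) + u * I) * (L d (1 / 2 + ((1 / 10 : ℝ) + u * I)))⁻¹

/-- the double integral with `Φ` -/
noncomputable def Pi2 (a : ℝ) (d : OddSqf) (m r p : ℕ) (l : ℝ) : ℂ :=
  ∫ u in (-(r : ℝ) ^ 22)..((r : ℝ) ^ 22),
    ∫ t in ((r : ℝ) ^ (m + 2) - (r : ℝ) ^ (m + 1))..((r : ℝ) ^ (m + 2) + (r : ℝ) ^ (m + 1)),
      Gk d m r l ((a : ℂ) + t * I) * (Hk r p ((1 / 10 : ℝ) + u * I) *
        Phi ((a : ℂ) + t * I) ((1 / 10 : ℝ) + u * I))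

theorem Phi_cont_t {b : ℝ} (hb : 0 < b) (u : ℝ) :
    Continuous (fun t : ℝ => Phi ((b : ℂ) + t * I) ((1 / 10 : ℝ) + u * I)) := by
  have hpath : Continuous (fun t : ℝ => ((b : ℂ) + t * I)) := by fun_prop
  exact (Phi_diff (γ := ((1 / 10 : ℝ) : ℂ) + u * I) (by simp)).continuousOn.comp_continuous hpath
    (fun t => by simpa using hb)

theorem Gk_cont (a : ℝ) (d : OddSqf) (m r : ℕ) (l : ℝ) :
    Continuous (fun t : ℝ => Gk d m r l ((a : ℂ) + t * I)) := by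
  have hpathβ : Continuous (fun t : ℝ => ((a : ℂ) + t * I)) := by fun_prop
  exact (Gk_diff d m r l).continuous.comp hpathβ

theorem Hk_cont (r p : ℕ) : Continuous (fun u : ℝ => Hk r p ((1 / 10 : ℝ) + u * I)) := by
  have hpathγ : Continuous (fun u : ℝ => (((1 / 10 : ℝ) : ℂ) + u * I)) := by fun_prop
  exact (Hk_diff r p).continuous.comp hpathγ

theorem L_cont_t (a : ℝ) (d : OddSqf) :
    Continuous (fun t : ℝ => L d (1 / 2 + ((a : ℂ) + t * I))) :=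
  (L_diff d).continuous.comp (by fun_prop)

theorem inner_cont {a : ℝ} (ha0 : 0 < a) (d : OddSqf) (m r p : ℕ) (l : ℝ) :
    Continuous (fun z : ℝ × ℝ => Gk d m r l ((a : ℂ) + z.2 * I) *
      (Hk r p ((1 / 10 : ℝ) + z.1 * I) *
        Phi ((a : ℂ) + z.2 * I) ((1 / 10 : ℝ) + z.1 * I))) := by
  have c1 : Continuous (fun z : ℝ × ℝ => Gk d m r l ((a : ℂ) + z.2 * I)) :=
    (Gk_cont a d m r l).comp continuous_snd
  have c2 : Continuous (fun z : ℝ × ℝ => Hk r p ((1 / 10 : ℝ) + z.1 * I)) :=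
    (Hk_cont r p).comp continuous_fst
  exact c1.mul (c2.mul (Phi_cont_line ha0))

/-- the inner integral -/
theorem inner_expand {a : ℝ} (ha0 : 0 < a) (v : OddSqf → ℝ) (m : ℕ) (ρ : ℝ) (r p : ℕ) (u A B : ℝ) :
    (∫ t in A..B,
      (KK ((r : ℝ) ^ m) ((r : ℝ) ^ (m + 2)) ((a : ℂ) + t * I) * psiG m ρ r p ((a : ℂ) + t * I)) *
      (Hk r p ((1 / 10 : ℝ) + u * I) * ∑ d ∈ DrG m r, ((v d : ℝ) : ℂ) *
        Tt ((a : ℂ) + t * I) ((1 / 10 : ℝ) + u * I) d)) =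
      ∑ d ∈ DrG m r, ∑ e ∈ SrG m ρ r, (acoG v p d e * (W d *
        (Hk r p ((1 / 10 : ℝ) + u * I) * (L d (1 / 2 + ((1 / 10 : ℝ) + u * I)))⁻¹)) *
        (∫ t in A..B, Gk d m r (ll d e) ((a : ℂ) + t * I) * L d (1 / 2 + ((a : ℂ) + t * I))) -
        acoG v p d e *
        ∫ t in A..B, Gk d m r (ll d e) ((a : ℂ) + t * I) * (Hk r p ((1 / 10 : ℝ) + u * I) *
        Phi ((a : ℂ) + t * I) ((1 / 10 : ℝ) + u * I))) := by
  have cP1 : ∀ (d : OddSqf) (l : ℝ), Continuous (fun t : ℝ => Gk d m r l ((a : ℂ) + t * I) *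
      (Hk r p ((1 / 10 : ℝ) + u * I) *
        Phi ((a : ℂ) + t * I) ((1 / 10 : ℝ) + u * I))) := fun d l =>
    (Gk_cont a d m r l).mul (continuous_const.mul (Phi_cont_t ha0 u))
  have cQ : ∀ (d : OddSqf) (l : ℝ), Continuous (fun t : ℝ => Gk d m r l ((a : ℂ) + t * I) *
      L d (1 / 2 + ((a : ℂ) + t * I))) := fun d l => (Gk_cont a d m r l).mul (L_cont_t a d)
  simp_rw [expandG]
  rw [intervalIntegral.integral_finsetSum]
  · apply sum_congr rfl
    intro d _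
    rw [intervalIntegral.integral_finsetSum]
    · apply sum_congr rfl
      intro e _
      rw [intervalIntegral.integral_sub, intervalIntegral.integral_const_mul,
        intervalIntegral.integral_const_mul]
      · exact (continuous_const.mul (cQ d _)).intervalIntegrable _ _
      · exact (continuous_const.mul (cP1 d _)).intervalIntegrable _ _
    · intro e _
      exact ((continuous_const.mul (cQ d _)).sub
        (continuous_const.mul (cP1 d _))).intervalIntegrable _ _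
  · intro d _
    exact (continuous_finsetSum _ fun e _ => (continuous_const.mul (cQ d _)).sub
        (continuous_const.mul (cP1 d _))).intervalIntegrable _ _

theorem DD_expand (hG : GRH) {a : ℝ} (ha0 : 0 < a) (v : OddSqf → ℝ) (m : ℕ) (ρ : ℝ) (r p : ℕ) :
    DD a v m ρ r p = ∑ d ∈ DrG m r, ∑ e ∈ SrG m ρ r, (acoG v p d e *
      (W d * Gi d r p * Bi a d m r (ll d e)) - acoG v p d e * Pi2 a d m r p (ll d e)) := by
  have cI : ∀ (d : OddSqf) (l A B : ℝ), Continuous (fun u : ℝ => ∫ t in A..B,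
          Gk d m r l ((a : ℂ) + t * I) * (Hk r p ((1 / 10 : ℝ) + u * I) *
        Phi ((a : ℂ) + t * I) ((1 / 10 : ℝ) + u * I))) := fun d l A B =>
    intervalIntegral.continuous_parametric_intervalIntegral_of_continuous'
      (inner_cont ha0 d m r p l) A B
  have cA : ∀ (d e : OddSqf) (c : ℂ), Continuous (fun u : ℝ => acoG v p d e * (W d *
        (Hk r p ((1 / 10 : ℝ) + u * I) * (L d (1 / 2 + ((1 / 10 : ℝ) + u * I)))⁻¹)) * c) :=
    fun d e c => (continuous_const.mul (continuous_const.mul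
      ((Hk_cont r p).mul (L_cont_gamma hG d)))).mul continuous_const
  unfold DD
  simp_rw [inner_expand ha0]
  rw [intervalIntegral.integral_finsetSum]
  · apply sum_congr rfl
    intro d _
    rw [intervalIntegral.integral_finsetSum]
    · apply sum_congr rfl
      intro e _
      rw [intervalIntegral.integral_sub, intervalIntegral.integral_mul_const,
        intervalIntegral.integral_const_mul, intervalIntegral.integral_const_mul,
        intervalIntegral.integral_const_mul]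
      · unfold Gi Pi2 Bi
        ring
      · exact (cA d e _).intervalIntegrable _ _
      · exact (continuous_const.mul (cI d _ _ _)).intervalIntegrable _ _
    · intro e _
      exact ((cA d e _).sub (continuous_const.mul (cI d _ _ _))).intervalIntegrable _ _
  · intro d _
    exact (continuous_finsetSum _ fun e _ => (cA d e _).sub
      (continuous_const.mul (cI d _ _ _))).intervalIntegrable _ _

theorem gamma_errG {r p S B : ℝ} {E : ℕ} (hr : 1000 ≤ r) (hp0 : 1 ≤ p) (hp : p ≤ r ^ 20)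
    (hS0 : 0 ≤ S) (hS : S ≤ r) (hB0 : 0 ≤ B) (hB : B ≤ r ^ E) :
    p ^ 2 * (8 * r ^ 21) * (Real.exp (-((r ^ 21) ^ 2 / (32 * p ^ 2))) +
        Real.exp (-((r ^ 22) ^ 2 / (2 * (r ^ 21) ^ 2)))) * S +
      4 * (Real.exp ((4 - (r ^ 22) ^ 2) / (r ^ 21) ^ 2) * p ^ 2 * B) ≤
      r ^ (E + 63) * Real.exp (-(r / 4)) := by
  have hr0 : 0 < r := by linarith
  have hr1 : 1 ≤ r := by linarith
  set τ := Real.exp (-(r / 4)) with hτ
  have hτ0 : 0 < τ := Real.exp_pos _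
  have hp2 : p ^ 2 ≤ r ^ 40 := by
    calc p ^ 2 ≤ (r ^ 20) ^ 2 := pow_le_pow_left₀ (by linarith) hp 2
      _ = r ^ 40 := by ring
  have e1 : Real.exp (-((r ^ 21) ^ 2 / (32 * p ^ 2))) ≤ τ := by
    apply Real.exp_le_exp.2
    have h1 : r ^ 2 / 32 ≤ (r ^ 21) ^ 2 / (32 * p ^ 2) := by
      rw [div_le_div_iff₀ (by norm_num) (by positivity)]
      calc r ^ 2 * (32 * p ^ 2) ≤ r ^ 2 * (32 * r ^ 40) := by gcongr
        _ = (r ^ 21) ^ 2 * 32 := by ring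
    have h2 : r / 4 ≤ r ^ 2 / 32 := by nlinarith
    linarith
  have e2 : Real.exp (-((r ^ 22) ^ 2 / (2 * (r ^ 21) ^ 2))) ≤ τ := by
    apply Real.exp_le_exp.2
    have h1 : (r ^ 22) ^ 2 / (2 * (r ^ 21) ^ 2) = r ^ 2 / 2 := by
      field_simp
    rw [h1]
    nlinarith
  have e3 : Real.exp ((4 - (r ^ 22) ^ 2) / (r ^ 21) ^ 2) ≤ 2 * τ := by
    have h1 : (4 - (r ^ 22) ^ 2) / (r ^ 21) ^ 2 = 4 / (r ^ 21) ^ 2 + -(r ^ 2) := by
      field_simp
      ring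
    rw [h1, Real.exp_add]
    have h2 : Real.exp (4 / (r ^ 21) ^ 2) ≤ 2 := by
      refine le_trans (Real.exp_le_exp.2 ?_) exp_half_le
      rw [div_le_iff₀ (by positivity)]
      have h3 : 1000 ≤ (r ^ 21) ^ 2 := by
        calc (1000 : ℝ) ≤ r := hr
          _ = r ^ 1 := (pow_one r).symm
          _ ≤ r ^ 42 := pow_le_pow_right₀ hr1 (by norm_num)
          _ = (r ^ 21) ^ 2 := by ring
      linarith
    have h4 : Real.exp (-(r ^ 2)) ≤ τ := by
      apply Real.exp_le_exp.2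
      nlinarith
    gcongr
  have t1 : p ^ 2 * (8 * r ^ 21) * (Real.exp (-((r ^ 21) ^ 2 / (32 * p ^ 2))) +
        Real.exp (-((r ^ 22) ^ 2 / (2 * (r ^ 21) ^ 2)))) * S ≤ 16 * r ^ (E + 62) * τ := by
    calc _ ≤ r ^ 40 * (8 * r ^ 21) * (τ + τ) * r := by gcongr
      _ = 16 * r ^ 62 * τ := by ring
      _ ≤ 16 * r ^ (E + 62) * τ := by
        have : r ^ 62 ≤ r ^ (E + 62) := pow_le_pow_right₀ hr1 (by omega)
        gcongr
  have t2 : 4 * (Real.exp ((4 - (r ^ 22) ^ 2) / (r ^ 21) ^ 2) * p ^ 2 * B) ≤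
      8 * r ^ (E + 62) * τ := by
    calc _ ≤ 4 * ((2 * τ) * r ^ 40 * r ^ E) := by gcongr
      _ = 8 * r ^ (E + 40) * τ := by ring
      _ ≤ 8 * r ^ (E + 62) * τ := by
        have : r ^ (E + 40) ≤ r ^ (E + 62) := pow_le_pow_right₀ hr1 (by omega)
        gcongr
  have t3 : 24 * r ^ (E + 62) * τ ≤ r ^ (E + 63) * τ := by
    apply mul_le_mul_of_nonneg_right _ hτ0.le
    have : r ^ (E + 63) = r * r ^ (E + 62) := by ring
    rw [this]
    apply mul_le_mul_of_nonneg_right _ (by positivity)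
    linarith
  linarith

theorem invL_trunc (hG : GRH) {m r : ℕ} (hr : 1000 ≤ (r : ℝ)) {d : OddSqf}
    (hd : |(d.1 : ℝ)| ≤ (r : ℝ) ^ (m + 5)) {s : ℂ} (hs : 3 / 5 ≤ s.re)
    (him : |s.im| ≤ (r : ℝ) ^ 22) : ‖(L d s)⁻¹‖ ≤ (r : ℝ) ^ (56 * m + 1569) := by
  have hr0 : (0 : ℝ) < r := by linarith
  have hr1 : (1 : ℝ) ≤ r := by linarith
  refine (invL_poly hG d hs).trans ?_
  have h22 : (5 : ℝ) ≤ (r : ℝ) ^ 22 := by
    calc (5 : ℝ) ≤ r := by linarith
      _ = (r : ℝ) ^ 1 := (pow_one _).symm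
      _ ≤ (r : ℝ) ^ 22 := pow_le_pow_right₀ hr1 (by norm_num)
  have h11 : 128 * (|s.im| + 5) ≤ (r : ℝ) ^ 23 := by
    calc 128 * (|s.im| + 5) ≤ 128 * ((r : ℝ) ^ 22 + (r : ℝ) ^ 22) := by gcongr
      _ = 256 * (r : ℝ) ^ 22 := by ring
      _ ≤ r * (r : ℝ) ^ 22 := by
          apply mul_le_mul_of_nonneg_right _ (by positivity)
          linarith
      _ = _ := by ring
  have h0 : 0 ≤ |s.im| := abs_nonneg _
  calc 4 * (128 * (|s.im| + 5)) ^ 56 * |(d.1 : ℝ)| ^ 56 ≤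
      r * ((r : ℝ) ^ 23) ^ 56 * ((r : ℝ) ^ (m + 5)) ^ 56 := by
        have : (4 : ℝ) ≤ r := by linarith
        gcongr
    _ = (r : ℝ) ^ (56 * m + 1569) := by ring

/-- the main value of the `γ`-integral -/
noncomputable def G0 (d : OddSqf) (r p : ℕ) : ℂ :=
  -(kr d p : ℂ) * (p : ℂ) ^ (-(1 / 2) : ℂ) * ((Real.sqrt Real.pi * (r : ℝ) ^ 21 : ℝ) : ℂ)

theorem Gi_near (hG : GRH) {m r : ℕ} (hr : 1000 ≤ (r : ℝ))
    (hS : ∑' n : ℕ, 1 / (n : ℝ) ^ (5 / 2 : ℝ) ≤ r) {d : OddSqf}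
    (hd : |(d.1 : ℝ)| ≤ (r : ℝ) ^ (m + 5)) {p : ℕ} (hp : p.Prime) (hp2 : (p : ℝ) ≤ (r : ℝ) ^ 20) :
    ‖Gi d r p - G0 d r p‖ ≤ (r : ℝ) ^ (56 * m + 1632) * Real.exp (-((r : ℝ) / 4)) := by
  have hr0 : (0 : ℝ) < r := by linarith
  have hr1 : (1 : ℝ) ≤ r := by linarith
  have hp1 : (1 : ℝ) ≤ p := by exact_mod_cast hp.one_lt.le
  have h21 : (3 : ℝ) ≤ (r : ℝ) ^ 21 := by
    calc (3 : ℝ) ≤ r := by linarith
      _ = (r : ℝ) ^ 1 := (pow_one _).symm
      _ ≤ (r : ℝ) ^ 21 := pow_le_pow_right₀ hr1 (by norm_num)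
  have g := gamma_ext hG d hp (U := (r : ℝ) ^ 21) (V := (r : ℝ) ^ 22)
    (B1 := (r : ℝ) ^ (56 * m + 1569)) h21
    (by positivity) (fun s hs him => invL_trunc hG hr hd hs (le_of_eq him))
  rw [mc_prime d hp, chi_kr] at g
  refine g.trans ?_
  exact gamma_errG (p := (p : ℝ)) (B := (r : ℝ) ^ (56 * m + 1569)) (E := 56 * m + 1569) hr hp1 hp2
    (tsum_nonneg fun n => by positivity) hS (by positivity) le_rfl

end Pool.Agent.KS6_76.RT
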