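import Pool.Agent.KS6_76.RT.Dp2

set_option autoImplicit false

namespace Pool.Agent.KS6_76.RT

open Finset Complex MeasureTheory Pool.Agent.H491R3

/-- the extracted sum -/
noncomputable def mmG (v : OddSqf → ℝ) (m : ℕ) (ρ : ℝ) (r p : ℕ) : ℂ :=
  ∑ d ∈ DrG m r, ∑ e ∈ SrG m ρ r,
    ((v d * (Wr d * kr d p) * (Wr e * kr e p) : ℝ) : ℂ) *
      (sg d * SL d (2 * r) ((r : ℝ) ^ m) ((r : ℝ) ^ (m + 2)) (ll d e))

/-- the main value of the `β`-integral -/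
noncomputable def B0 (d : OddSqf) (m r : ℕ) (l : ℝ) : ℂ :=
  sg d * (((Real.sqrt Real.pi * (r : ℝ) ^ m : ℝ) : ℂ) *
        SL d (2 * r) ((r : ℝ) ^ m) ((r : ℝ) ^ (m + 2)) l)

theorem Kap_le_one (U T l : ℝ) : ‖Kap U T l‖ ≤ 1 := by
  rw [Kap_norm, Real.exp_le_one_iff]
  have : 0 ≤ U ^ 2 * l ^ 2 / 4 := by positivity
  linarith

theorem sqrt_pi_le : Real.sqrt Real.pi ≤ 2 := by
  rw [Real.sqrt_le_left (by norm_num)]
  have := Real.pi_lt_d2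
  linarith

theorem sqrt_pi_ge : 1 ≤ Real.sqrt Real.pi := by
  rw [Real.one_le_sqrt]
  have := Real.pi_gt_three
  linarith

theorem inv_sqrt_le {n : ℕ} (hn : 1 ≤ n) : (Real.sqrt n)⁻¹ ≤ 1 := by
  apply inv_le_one_of_one_le₀
  rw [Real.one_le_sqrt]
  exact_mod_cast hn

theorem SL_norm (d : OddSqf) (N : ℕ) (U T l : ℝ) : ‖SL d N U T l‖ ≤ N := by
  unfold SL
  refine (norm_sum_le _ _).trans ?_
  calc _ ≤ ∑ n ∈ Icc 1 N, (1 : ℝ) := by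
        apply sum_le_sum
        intro n hn
        rw [mem_Icc] at hn
        have h1 := kr_norm d n
        have h2 : ‖(((Real.sqrt n)⁻¹ : ℝ) : ℂ)‖ ≤ 1 := by
          rw [norm_real, Real.norm_eq_abs, abs_of_nonneg (by positivity)]
          exact inv_sqrt_le hn.1
        have h3 := Kap_le_one U T (l - Real.log n)
        rw [norm_mul, norm_mul]
        calc _ ≤ (1 : ℝ) * 1 * 1 := by gcongr
          _ = 1 := by norm_num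
    _ = N := by simp

theorem ll_leG {m : ℕ} {ρ : ℝ} (hρ : ρ ≤ 6 / 5) {r : ℕ} (hr : 1 ≤ r) {d e : OddSqf}
    (hd : d ∈ DrG m r) (he : e ∈ SrG m ρ r) : ll d e ≤ Real.log r := by
  have hr0 : (0 : ℝ) < r := by exact_mod_cast hr
  rw [mem_DrG] at hd
  obtain ⟨-, -, h3, -⟩ := SrG_window hρ he
  have hd1 := abs_ge_one d
  have hX : (0 : ℝ) < (r : ℝ) ^ (m + 4) := by positivity
  have h4 : Real.log |(d.1 : ℝ)| ≤ Real.log ((r : ℝ) ^ (m + 5)) :=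
    Real.log_le_log (by linarith) hd
  have h5 : Real.log ((r : ℝ) ^ (m + 4)) ≤ Real.log |(e.1 : ℝ)| := Real.log_le_log hX h3.le
  rw [Real.log_pow] at h4 h5
  push_cast at h4 h5
  unfold ll
  linarith

theorem pair_err (hG : GRH) {a : ℝ} (ha0 : 0 < a) (ha1 : a ≤ 1 / 2) {Cφ : ℝ}
    (hφ : ∀ m : ℕ, 1 ≤ m → ∀ r : ℕ, 1000 ≤ (r : ℝ) → Cφ ≤ r → ∀ d : OddSqf, ∀ l : ℝ,
      l ≤ Real.log r → ∀ p : ℕ, (r : ℝ) ^ 10 ≤ p → (p : ℝ) ≤ (r : ℝ) ^ 20 →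
      ‖Pi2 a d m r p l‖ ≤ (r : ℝ) ^ (m + 28) * Real.exp (-((r : ℝ) / 4)))
    {m : ℕ} (hm : 1 ≤ m) {ρ : ℝ} (hρ : ρ ≤ 6 / 5) {r p : ℕ} (hr : 1000 ≤ (r : ℝ))
    (hCr : Cφ ≤ r) (hS : ∑' n : ℕ, 1 / (n : ℝ) ^ (5 / 2 : ℝ) ≤ r) (hp : p.Prime)
    (hp1 : (r : ℝ) ^ 10 ≤ p) (hp2 : (p : ℝ) ≤ (r : ℝ) ^ 20)
    {v : OddSqf → ℝ} (hv : ∀ d, |v d| ≤ 1) {d e : OddSqf} (hd : d ∈ DrG m r)
    (he : e ∈ SrG m ρ r) :
    ‖acoG v p d e * (W d * (Gi d r p * Bi a d m r (ll d e) - G0 d r p * B0 d m r (ll d e)) -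
      Pi2 a d m r p (ll d e))‖ ≤ (r : ℝ) ^ (59 * m + 1646) * Real.exp (-((r : ℝ) / 4)) := by
  have hr0 : (0 : ℝ) < r := by linarith
  have hr1 : (1 : ℝ) ≤ r := by linarith
  have hrn : 1 ≤ r := by exact_mod_cast hr1
  set τ := Real.exp (-((r : ℝ) / 4)) with hτ
  have hτ0 : 0 < τ := Real.exp_pos _
  have hτ1 : τ ≤ 1 := by
    rw [hτ, Real.exp_le_one_iff]
    linarith
  have hl := ll_leG hρ hrn hd he
  have hd' := mem_DrG.1 hd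
  have g1 := Gi_near hG hr hS hd' hp hp2
  have g2 := hφ m hm r hr hCr d _ hl p hp1 hp2
  have g3 := beta_LG d ha0 ha1 hm hr hd' hl
  have g3' : ‖Bi a d m r (ll d e) - B0 d m r (ll d e)‖ ≤ (r : ℝ) ^ (3 * m + 12) * τ := g3
  have hrm : 0 < (r : ℝ) ^ m := by positivity
  have g4 : ‖B0 d m r (ll d e)‖ ≤ 4 * (r : ℝ) ^ (m + 1) := by
    unfold B0
    rw [norm_mul, norm_mul, sg_norm, one_mul, norm_real, Real.norm_eq_abs,
      abs_of_nonneg (by positivity)]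
    have h1 := SL_norm d (2 * r) ((r : ℝ) ^ m) ((r : ℝ) ^ (m + 2)) (ll d e)
    have h2 := sqrt_pi_le
    push_cast at h1
    calc _ ≤ 2 * (r : ℝ) ^ m * (2 * r) := by gcongr
      _ = _ := by ring
  have g5 : ‖Bi a d m r (ll d e)‖ ≤ (r : ℝ) ^ (3 * m + 13) := by
    have h1 : ‖Bi a d m r (ll d e)‖ ≤ ‖Bi a d m r (ll d e) - B0 d m r (ll d e)‖ +
        ‖B0 d m r (ll d e)‖ := by
      have := norm_add_le (Bi a d m r (ll d e) - B0 d m r (ll d e)) (B0 d m r (ll d e))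
      rwa [sub_add_cancel] at this
    have h2 : (r : ℝ) ^ (3 * m + 12) * τ ≤ (r : ℝ) ^ (3 * m + 12) := by
      have : 0 < (r : ℝ) ^ (3 * m + 12) := by positivity
      nlinarith
    have h3 : (r : ℝ) ^ (m + 1) ≤ (r : ℝ) ^ (3 * m + 12) := pow_le_pow_right₀ hr1 (by omega)
    have h4 : (r : ℝ) ^ (3 * m + 13) = r * (r : ℝ) ^ (3 * m + 12) := by ring
    have h5 : 0 < (r : ℝ) ^ (3 * m + 12) := by positivity
    rw [h4]
    nlinarith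
  have g6 : ‖G0 d r p‖ ≤ 2 * (r : ℝ) ^ 21 := by
    unfold G0
    rw [norm_mul, norm_mul, norm_neg, norm_real ((Real.sqrt Real.pi * (r : ℝ) ^ 21 : ℝ)),
      Real.norm_eq_abs, abs_of_nonneg (by positivity), norm_natCast_cpow_of_pos hp.pos]
    have h1 := kr_norm d p
    have h2 : (p : ℝ) ^ (-(1 / 2) : ℂ).re ≤ 1 := by
      apply Real.rpow_le_one_of_one_le_of_nonpos
      · exact_mod_cast hp.one_lt.le
      · simp
    have h3 := sqrt_pi_le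
    have h4 : 0 ≤ (p : ℝ) ^ (-(1 / 2) : ℂ).re := by positivity
    calc _ ≤ 1 * 1 * (2 * (r : ℝ) ^ 21) := by gcongr
      _ = _ := by ring
  have h5 : ‖W d‖ = 1 := by
    rw [W_real, norm_real, Real.norm_eq_abs, Wr_abs]
  have e1 : Gi d r p * Bi a d m r (ll d e) - G0 d r p * B0 d m r (ll d e) =
      (Gi d r p - G0 d r p) * Bi a d m r (ll d e) +
      G0 d r p * (Bi a d m r (ll d e) - B0 d m r (ll d e)) := by ring
  have g7 : ‖Gi d r p * Bi a d m r (ll d e) - G0 d r p * B0 d m r (ll d e)‖ ≤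
      ((r : ℝ) ^ (56 * m + 1632) * τ) * (r : ℝ) ^ (3 * m + 13) +
      2 * (r : ℝ) ^ 21 * ((r : ℝ) ^ (3 * m + 12) * τ) := by
    rw [e1]
    refine (norm_add_le _ _).trans ?_
    rw [norm_mul, norm_mul]
    gcongr
  rw [norm_mul]
  have g8 := acoG_norm hv p d e
  have g9 : ‖W d * (Gi d r p * Bi a d m r (ll d e) - G0 d r p * B0 d m r (ll d e)) -
      Pi2 a d m r p (ll d e)‖ ≤ (r : ℝ) ^ (59 * m + 1646) * τ := by
    refine (norm_sub_le _ _).trans ?_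
    rw [norm_mul, h5, one_mul]
    have k1 : (r : ℝ) ^ (3 * m + 33) ≤ (r : ℝ) ^ (59 * m + 1645) :=
      pow_le_pow_right₀ hr1 (by omega)
    have k2 : (r : ℝ) ^ (m + 28) ≤ (r : ℝ) ^ (59 * m + 1645) := pow_le_pow_right₀ hr1 (by omega)
    calc _ ≤ ((r : ℝ) ^ (56 * m + 1632) * τ) * (r : ℝ) ^ (3 * m + 13) +
          2 * (r : ℝ) ^ 21 * ((r : ℝ) ^ (3 * m + 12) * τ) + (r : ℝ) ^ (m + 28) * τ := by linarith
      _ = ((r : ℝ) ^ (59 * m + 1645) + 2 * (r : ℝ) ^ (3 * m + 33) + (r : ℝ) ^ (m + 28)) * τ := by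
          ring
      _ ≤ ((r : ℝ) ^ (59 * m + 1645) + 2 * (r : ℝ) ^ (59 * m + 1645) +
          (r : ℝ) ^ (59 * m + 1645)) * τ := by gcongr
      _ = 4 * (r : ℝ) ^ (59 * m + 1645) * τ := by ring
      _ ≤ r * (r : ℝ) ^ (59 * m + 1645) * τ := by
          have : (4 : ℝ) ≤ r := by linarith
          gcongr
      _ = _ := by ring
  calc _ ≤ 1 * ((r : ℝ) ^ (59 * m + 1646) * τ) := mul_le_mul g8 g9 (norm_nonneg _) zero_le_one
    _ = _ := one_mul _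

theorem phi_int' {a : ℝ} (ha0 : 0 < a) (ha1 : a ≤ 1 / 2) : ∃ C : ℝ, 1 ≤ C ∧
    ∀ m : ℕ, 1 ≤ m → ∀ r : ℕ, 1000 ≤ (r : ℝ) → C ≤ r → ∀ d : OddSqf, ∀ l : ℝ, l ≤ Real.log r →
    ∀ p : ℕ, (r : ℝ) ^ 10 ≤ p → (p : ℝ) ≤ (r : ℝ) ^ 20 →
    ‖Pi2 a d m r p l‖ ≤ (r : ℝ) ^ (m + 28) * Real.exp (-((r : ℝ) / 4)) := by
  obtain ⟨C, hC, h⟩ := phi_int ha0 ha1
  refine ⟨C, hC, fun m hm r hr hCr d l hl p hp1 hp2 => ?_⟩
  have := h m hm r hr hCr d l hl p hp1 hp2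
  unfold Pi2 Gk Hk
  exact this

theorem mmG_upper (hG : GRH) {a : ℝ} (ha0 : 0 < a) (ha1 : a ≤ 1 / 2) : ∃ C : ℝ,
    ∀ (m : ℕ) (ρ : ℝ) (r p : ℕ), 1 ≤ m → ρ ≤ 6 / 5 → 1000 ≤ (r : ℝ) → C ≤ r → p.Prime →
    (r : ℝ) ^ 10 ≤ p → (p : ℝ) ≤ (r : ℝ) ^ 20 → ∀ (v : OddSqf → ℝ) (M : ℝ), (∀ d, |v d| ≤ 1) →
    0 ≤ M → (∀ t u : ℝ, (r : ℝ) ^ (m + 2) - (r : ℝ) ^ (m + 1) ≤ t →
      t ≤ (r : ℝ) ^ (m + 2) + (r : ℝ) ^ (m + 1) → |u| ≤ (r : ℝ) ^ 22 →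
      ‖∑ d ∈ DrG m r, ((v d : ℝ) : ℂ) * Tt ((a : ℂ) + t * I) ((1 / 10 : ℝ) + u * I) d‖ ≤ M) →
    ‖mmG v m ρ r p‖ ≤ 4 * (r : ℝ) ^ 12 * (M * lamG a m r) +
      (r : ℝ) ^ (61 * m + 1666) * Real.exp (-((r : ℝ) / 4)) := by
  obtain ⟨Cφ, hCφ, hφ⟩ := phi_int' ha0 ha1
  set S := ∑' n : ℕ, 1 / (n : ℝ) ^ (5 / 2 : ℝ) with hS
  have hS0 : 0 ≤ S := tsum_nonneg fun n => by positivity
  refine ⟨Cφ + S, fun m ρ r p hm hρ hr hC hp hp1 hp2 v M hv hM hE => ?_⟩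
  have hr0 : (0 : ℝ) < r := by linarith
  have hr1 : (1 : ℝ) ≤ r := by linarith
  have hrn : 1 ≤ r := by exact_mod_cast hr1
  have hpp : (0 : ℝ) < p := by exact_mod_cast hp.pos
  set τ := Real.exp (-((r : ℝ) / 4)) with hτ
  have hτ0 : 0 < τ := Real.exp_pos _
  have hup := DD_upper ha0 ha1 hρ hr hp.one_lt.le hM hE
  have hlam0 : 0 ≤ lamG a m r := by unfold lamG; positivity
  set ω : ℝ := Real.sqrt Real.pi * (r : ℝ) ^ m with hω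
  set ω' : ℝ := Real.sqrt Real.pi * (r : ℝ) ^ 21 with hω'
  have hsp := sqrt_pi_ge
  have hω1 : 1 ≤ ω := by
    have : (1 : ℝ) ≤ (r : ℝ) ^ m := one_le_pow₀ hr1
    nlinarith
  have hω1' : 1 ≤ ω' := by
    have : (1 : ℝ) ≤ (r : ℝ) ^ 21 := one_le_pow₀ hr1
    nlinarith
  set q : ℂ := ((ω : ℝ) : ℂ) * ((ω' : ℝ) : ℂ) * (p : ℂ) ^ (-(1 / 2) : ℂ) with hq
  have hqn : ‖q‖ = ω * ω' * (p : ℝ) ^ (-(1 / 2) : ℝ) := by
    rw [hq, norm_mul, norm_mul, norm_real, norm_real, Real.norm_eq_abs, Real.norm_eq_abs,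
      abs_of_nonneg (by linarith), abs_of_nonneg (by linarith), norm_natCast_cpow_of_pos hp.pos]
    congr 2
    simp
  have hid : DD a v m ρ r p + q * mmG v m ρ r p = ∑ d ∈ DrG m r, ∑ e ∈ SrG m ρ r,
      acoG v p d e * (W d * (Gi d r p * Bi a d m r (ll d e) - G0 d r p * B0 d m r (ll d e)) -
      Pi2 a d m r p (ll d e)) := by
    rw [DD_expand hG ha0]
    unfold mmG
    rw [mul_sum, ← sum_add_distrib]
    apply sum_congr rfl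
    intro d _
    rw [mul_sum, ← sum_add_distrib]
    apply sum_congr rfl
    intro e _
    rw [hq]
    unfold B0 G0 acoG
    rw [W_real d, ← hω, ← hω']
    push_cast
    ring
  have hsum : ‖DD a v m ρ r p + q * mmG v m ρ r p‖ ≤ (r : ℝ) ^ (61 * m + 1656) * τ := by
    rw [hid]
    refine (norm_sum_le _ _).trans ?_
    refine (sum_le_sum fun d _ => norm_sum_le _ _).trans ?_
    calc _ ≤ ∑ d ∈ DrG m r, ∑ e ∈ SrG m ρ r, (r : ℝ) ^ (59 * m + 1646) * τ := by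
          apply sum_le_sum
          intro d hd
          apply sum_le_sum
          intro e he
          exact pair_err hG ha0 ha1 hφ hm hρ hr (by linarith) (by linarith) hp hp1 hp2 hv hd he
      _ = #(DrG m r) * (#(SrG m ρ r) * ((r : ℝ) ^ (59 * m + 1646) * τ)) := by
          rw [sum_const, sum_const, nsmul_eq_mul, nsmul_eq_mul]
      _ ≤ (3 * (r : ℝ) ^ (m + 5)) * ((r : ℝ) ^ (m + 4) * ((r : ℝ) ^ (59 * m + 1646) * τ)) := by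
          have h1 := DrG_card (m := m) hrn
          have h2 := SrG_card (m := m) hρ r
          gcongr
      _ = 3 * (r : ℝ) ^ (61 * m + 1655) * τ := by ring
      _ ≤ r * (r : ℝ) ^ (61 * m + 1655) * τ := by
          have : (3 : ℝ) ≤ r := by linarith
          gcongr
      _ = _ := by ring
  have h1 : ‖q‖ * ‖mmG v m ρ r p‖ ≤ ‖DD a v m ρ r p‖ + (r : ℝ) ^ (61 * m + 1656) * τ := by
    rw [← norm_mul]
    have := norm_sub_le (DD a v m ρ r p + q * mmG v m ρ r p) (DD a v m ρ r p)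
    rw [add_sub_cancel_left] at this
    linarith
  rw [hqn] at h1
  have e1 : (p : ℝ) ^ (1 / 10 : ℝ) ≤ (r : ℝ) ^ 2 := by
    calc (p : ℝ) ^ (1 / 10 : ℝ) ≤ ((r : ℝ) ^ 20) ^ (1 / 10 : ℝ) :=
          Real.rpow_le_rpow hpp.le hp2 (by norm_num)
      _ = (r : ℝ) ^ 2 := by
        rw [← Real.rpow_natCast, ← Real.rpow_mul hr0.le, ← Real.rpow_natCast]
        norm_num
  have e2 : ((r : ℝ) ^ 10)⁻¹ ≤ (p : ℝ) ^ (-(1 / 2) : ℝ) := by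
    rw [Real.rpow_neg hpp.le]
    apply inv_anti₀ (by positivity)
    calc (p : ℝ) ^ (1 / 2 : ℝ) ≤ ((r : ℝ) ^ 20) ^ (1 / 2 : ℝ) :=
          Real.rpow_le_rpow hpp.le hp2 (by norm_num)
      _ = (r : ℝ) ^ 10 := by
        rw [← Real.rpow_natCast, ← Real.rpow_mul hr0.le, ← Real.rpow_natCast]
        norm_num
  have hn0 : 0 ≤ ‖mmG v m ρ r p‖ := norm_nonneg _
  have h2 : ‖mmG v m ρ r p‖ * (ω * ω' * ((r : ℝ) ^ 10)⁻¹) ≤
      (2 * (r : ℝ) ^ 2 * ω') * (2 * M * (ω * lamG a m r)) +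
        (r : ℝ) ^ (61 * m + 1656) * τ := by
    calc ‖mmG v m ρ r p‖ * (ω * ω' * ((r : ℝ) ^ 10)⁻¹) ≤
        ‖mmG v m ρ r p‖ * (ω * ω' * (p : ℝ) ^ (-(1 / 2) : ℝ)) := by gcongr
      _ = ω * ω' * (p : ℝ) ^ (-(1 / 2) : ℝ) * ‖mmG v m ρ r p‖ := by ring
      _ ≤ _ := h1
      _ ≤ (2 * (p : ℝ) ^ (1 / 10 : ℝ) * ω') * (2 * M * (ω * lamG a m r)) +
          (r : ℝ) ^ (61 * m + 1656) * τ := by linarith
      _ ≤ _ := by gcongr
  have h3 : (2 * (r : ℝ) ^ 2 * ω') * (2 * M * (ω * lamG a m r)) +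
        (r : ℝ) ^ (61 * m + 1656) * τ ≤
      (4 * (r : ℝ) ^ 12 * (M * lamG a m r) + (r : ℝ) ^ (61 * m + 1666) * τ) *
        (ω * ω' * ((r : ℝ) ^ 10)⁻¹) := by
    have k1 : (2 * (r : ℝ) ^ 2 * ω') * (2 * M * (ω * lamG a m r)) =
        4 * (r : ℝ) ^ 12 * (M * lamG a m r) * (ω * ω' * ((r : ℝ) ^ 10)⁻¹) := by
      field_simp
      ring
    have k2 : (r : ℝ) ^ (61 * m + 1656) * τ ≤
        (r : ℝ) ^ (61 * m + 1666) * τ * (ω * ω' * ((r : ℝ) ^ 10)⁻¹) := by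
      have k3 : (r : ℝ) ^ (61 * m + 1666) * τ * (ω * ω' * ((r : ℝ) ^ 10)⁻¹) =
          (r : ℝ) ^ (61 * m + 1656) * τ * (ω * ω') := by
        field_simp
        ring
      rw [k3]
      have k4 : 1 ≤ ω * ω' := by nlinarith
      have k5 : 0 ≤ (r : ℝ) ^ (61 * m + 1656) * τ := by positivity
      nlinarith
    rw [k1, add_mul]
    linarith
  have h4 : 0 < ω * ω' * ((r : ℝ) ^ 10)⁻¹ := by positivity
  exact le_of_mul_le_mul_right (h2.trans h3) h4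

end Pool.Agent.KS6_76.RT
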