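import Pool.Graph.R_seed8.H491R3.Gam

/-! The decay of `H(1/2 + a + i t)`. -/

set_option autoImplicit false

namespace Pool.Agent.KS6_76.RT

open Complex Filter Topology Pool.Agent.H491R3

theorem cvx_log (t : ℝ) :
    ConvexOn ℝ (Set.Ioi 0) (fun z : ℝ => Real.log (z ^ 2 + t ^ 2) - 2 * Real.log z) := by
  have hd : ∀ z : ℝ, 0 < z → HasDerivAt (fun z : ℝ => Real.log (z ^ 2 + t ^ 2) - 2 * Real.log z)
      (-(2 * t ^ 2 / (z * (z ^ 2 + t ^ 2)))) z := by
    intro z hz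
    have h0 : z ^ 2 + t ^ 2 ≠ 0 := by positivity
    have h1 : HasDerivAt (fun z : ℝ => z ^ 2 + t ^ 2) (2 * z) z := by
      have := (hasDerivAt_pow 2 z).add_const (t ^ 2)
      simpa using this
    have h2 := (h1.log h0).sub ((Real.hasDerivAt_log hz.ne').const_mul 2)
    refine h2.congr_deriv ?_
    field_simp
    ring
  apply MonotoneOn.convexOn_of_deriv (convex_Ioi 0)
  · intro z hz
    exact (hd z hz).continuousAt.continuousWithinAt
  · intro z hz
    rw [interior_Ioi] at hz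
    exact (hd z hz).differentiableAt.differentiableWithinAt
  · rw [interior_Ioi]
    intro x hx y hy hxy
    have hx' : 0 < x := hx
    have hy' : 0 < y := hy
    rw [(hd x hx').deriv, (hd y hy').deriv, neg_le_neg_iff]
    apply div_le_div_of_nonneg_left (by positivity) (by positivity)
    have : x ^ 2 ≤ y ^ 2 := pow_le_pow_left₀ hx'.le hxy 2
    apply mul_le_mul hxy (by linarith) (by positivity) hy'.le

/-- the ratio for one factor -/
noncomputable def qf (z t : ℝ) : ℝ := z / Real.sqrt (z ^ 2 + t ^ 2)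

theorem qf_pos {z t : ℝ} (hz : 0 < z) : 0 < qf z t := by
  unfold qf
  positivity

theorem log_qf {z t : ℝ} (hz : 0 < z) :
    Real.log (qf z t) = -(1 / 2) * (Real.log (z ^ 2 + t ^ 2) - 2 * Real.log z) := by
  unfold qf
  rw [Real.log_div hz.ne' (by positivity), Real.log_sqrt (by positivity)]
  ring

theorem qf_interp {z0 z1 θ t : ℝ} (h0 : 0 < z0) (h1 : 0 < z1) (hθ : 0 ≤ θ) (hθ1 : θ ≤ 1) :
    qf z0 t ^ (1 - θ) * qf z1 t ^ θ ≤ qf ((1 - θ) * z0 + θ * z1) t := by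
  have hz : 0 < (1 - θ) * z0 + θ * z1 := by
    rcases eq_or_lt_of_le hθ with h | h
    · rw [← h]; linarith
    · have : 0 ≤ (1 - θ) * z0 := mul_nonneg (by linarith) h0.le
      have : 0 < θ * z1 := mul_pos h h1
      linarith
  have q0 := qf_pos (t := t) h0
  have q1 := qf_pos (t := t) h1
  have q2 := qf_pos (t := t) hz
  rw [← Real.log_le_log_iff (by positivity) q2, Real.log_mul (by positivity) (by positivity),
    Real.log_rpow q0, Real.log_rpow q1, log_qf h0, log_qf h1, log_qf hz]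
  have h := (cvx_log t).2 (show z0 ∈ Set.Ioi (0 : ℝ) from h0) (show z1 ∈ Set.Ioi (0 : ℝ) from h1)
    (show 0 ≤ 1 - θ by linarith) hθ (by ring)
  simp only [smul_eq_mul] at h
  nlinarith

theorem gseq_eq {y : ℝ} (hy : 0 < y) (t : ℝ) {n : ℕ} (hn : 0 < n) :
    ‖GammaSeq (y + t * I) n‖ / ‖GammaSeq (y : ℂ) n‖ =
      ∏ j ∈ Finset.range (n + 1), qf (y + j) t := by
  have hn' : (0 : ℝ) < n := by exact_mod_cast hn
  have key : ∀ (z : ℝ) (u : ℝ), ‖GammaSeq (z + u * I) n‖ =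
      (n : ℝ) ^ z * (Nat.factorial n : ℝ) / ∏ j ∈ Finset.range (n + 1), ‖((z : ℂ) + u * I + j)‖ := by
    intro z u
    unfold GammaSeq
    rw [norm_div, norm_mul, norm_prod]
    congr 2
    · rw [← ofReal_natCast, norm_cpow_eq_rpow_re_of_pos hn']
      simp
    · simp
  have key0 : GammaSeq (y : ℂ) n = GammaSeq (y + (0 : ℝ) * I) n := by simp
  have e : ∀ (z u : ℝ) (j : ℕ), ‖((z : ℂ) + u * I + j)‖ = Real.sqrt ((z + j) ^ 2 + u ^ 2) := by
    intro z u j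
    rw [Complex.norm_eq_sqrt_sq_add_sq]
    simp
  rw [key0, key, key]
  have hpos : ∀ u : ℝ, 0 < ∏ j ∈ Finset.range (n + 1), ‖((y : ℂ) + u * I + j)‖ := by
    intro u
    apply Finset.prod_pos
    intro j _
    rw [e]
    positivity
  have a1 := hpos t
  have a2 := hpos 0
  have hc : 0 < (n : ℝ) ^ y * (Nat.factorial n : ℝ) := by positivity
  have e3 : ∏ j ∈ Finset.range (n + 1), qf (y + j) t =
      (∏ j ∈ Finset.range (n + 1), ‖((y : ℂ) + (0 : ℝ) * I + j)‖) /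
      (∏ j ∈ Finset.range (n + 1), ‖((y : ℂ) + t * I + j)‖) := by
    rw [← Finset.prod_div_distrib]
    apply Finset.prod_congr rfl
    intro j _
    rw [e, e]
    unfold qf
    congr 1
    have : (y + (j : ℝ)) ^ 2 + (0 : ℝ) ^ 2 = (y + j) ^ 2 := by ring
    rw [this, Real.sqrt_sq (by positivity)]
  rw [e3]
  field_simp

theorem gamma_interp {a t : ℝ} (ha : 0 ≤ a) (ha1 : a ≤ 1 / 2) :
    (‖Gamma ((1 / 2 : ℝ) + t * I)‖ / ‖Gamma ((1 / 2 : ℝ) : ℂ)‖) ^ (1 - 2 * a) *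
      (‖Gamma ((1 : ℝ) + t * I)‖ / ‖Gamma ((1 : ℝ) : ℂ)‖) ^ (2 * a) ≤
      ‖Gamma ((1 / 2 + a : ℝ) + t * I)‖ / ‖Gamma ((1 / 2 + a : ℝ) : ℂ)‖ := by
  have hlim : ∀ y : ℝ, 0 < y → Tendsto (fun n : ℕ => ‖GammaSeq (y + t * I) n‖ /
      ‖GammaSeq (y : ℂ) n‖) atTop (𝓝 (‖Gamma (y + t * I)‖ / ‖Gamma (y : ℂ)‖)) := by
    intro y hy
    apply ((GammaSeq_tendsto_Gamma (y + t * I)).norm).div ((GammaSeq_tendsto_Gamma (y : ℂ)).norm)
    rw [norm_ne_zero_iff]
    exact Gamma_ne_zero_of_re_pos (by simpa using hy)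
  have l1 := ((hlim (1 / 2) (by norm_num)).rpow_const (p := 1 - 2 * a) (Or.inr (by linarith))).mul
    ((hlim 1 (by norm_num)).rpow_const (p := 2 * a) (Or.inr (by linarith)))
  have l2 := hlim (1 / 2 + a) (by linarith)
  refine le_of_tendsto_of_tendsto l1 l2 ((eventually_gt_atTop 0).mono fun n hn => ?_)
  simp only
  rw [gseq_eq (by norm_num) t hn, gseq_eq (by norm_num) t hn, gseq_eq (by linarith) t hn]
  have hp : ∀ y : ℝ, 0 < y → ∀ j ∈ Finset.range (n + 1), 0 ≤ qf (y + j) t := by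
    intro y hy j _
    exact (qf_pos (by positivity)).le
  rw [← Real.finsetProd_rpow _ _ (hp (1 / 2) (by norm_num)),
    ← Real.finsetProd_rpow _ _ (hp 1 (by norm_num)), ← Finset.prod_mul_distrib]
  apply Finset.prod_le_prod
  · intro j hj
    have h1 := hp (1 / 2) (by norm_num) j hj
    have h2 := hp 1 (by norm_num) j hj
    exact mul_nonneg (Real.rpow_nonneg h1 _) (Real.rpow_nonneg h2 _)
  · intro j _
    have h := qf_interp (z0 := 1 / 2 + j) (z1 := 1 + j) (θ := 2 * a) (t := t) (by positivity)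
      (by positivity) (by linarith) (by linarith)
    have e : (1 - 2 * a) * (1 / 2 + (j : ℝ)) + 2 * a * (1 + (j : ℝ)) = 1 / 2 + a + j := by ring
    rw [e] at h
    exact h

theorem gamma_one {t : ℝ} (ht : 0 < t) :
    t * Real.exp (-(Real.pi * t)) ≤ ‖Gamma ((1 : ℝ) + t * I)‖ ^ 2 := by
  have hI : (t : ℂ) * I ≠ 0 := by
    apply mul_ne_zero _ I_ne_zero
    exact_mod_cast ht.ne'
  have h := Gamma_mul_Gamma_one_sub ((t : ℂ) * I)
  have h1 : Gamma ((1 : ℝ) + t * I) = (t : ℂ) * I * Gamma ((t : ℂ) * I) := by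
    rw [← Gamma_add_one _ hI]
    congr 1
    push_cast
    ring
  have h2 : (1 : ℂ) - (t : ℂ) * I = (starRingEnd ℂ) ((1 : ℝ) + t * I) := by
    apply Complex.ext <;> simp
  have h3 : Gamma ((1 : ℝ) + t * I) * Gamma (1 - (t : ℂ) * I) =
      (t : ℂ) * I * (Real.pi / sin (Real.pi * ((t : ℂ) * I))) := by
    rw [h1, mul_assoc, h]
  rw [h2, Gamma_conj, mul_conj, normSq_eq_norm_sq] at h3
  have h4 : sin ((Real.pi : ℂ) * ((t : ℂ) * I)) = ((Real.sinh (Real.pi * t) : ℝ) : ℂ) * I := by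
    have : (Real.pi : ℂ) * ((t : ℂ) * I) = (Real.pi * t : ℂ) * I := by ring
    rw [this, Complex.sin_mul_I]
    push_cast
    rfl
  have hs : 0 < Real.sinh (Real.pi * t) := Real.sinh_pos_iff.2 (mul_pos Real.pi_pos ht)
  have h5 : ‖Gamma ((1 : ℝ) + t * I)‖ ^ 2 = Real.pi * t / Real.sinh (Real.pi * t) := by
    have hs' : ((Real.sinh (Real.pi * t) : ℝ) : ℂ) ≠ 0 := by exact_mod_cast hs.ne'
    rw [h4] at h3
    have : (t : ℂ) * I * (Real.pi / (((Real.sinh (Real.pi * t) : ℝ) : ℂ) * I)) =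
        ((Real.pi * t / Real.sinh (Real.pi * t) : ℝ) : ℂ) := by
      rw [ofReal_div, ofReal_mul]
      field_simp
    rw [this] at h3
    exact_mod_cast h3
  rw [h5, le_div_iff₀ hs]
  have h6 : Real.sinh (Real.pi * t) ≤ Real.exp (Real.pi * t) := by
    rw [Real.sinh_eq]
    have := Real.exp_pos (Real.pi * t)
    have := Real.exp_pos (-(Real.pi * t))
    linarith
  have h7 : Real.exp (-(Real.pi * t)) * Real.exp (Real.pi * t) = 1 := by
    rw [← Real.exp_add]; simp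
  have h8 : (1 : ℝ) ≤ Real.pi := by have := Real.pi_gt_three; linarith
  calc t * Real.exp (-(Real.pi * t)) * Real.sinh (Real.pi * t) ≤
      t * Real.exp (-(Real.pi * t)) * Real.exp (Real.pi * t) := by gcongr
    _ = t := by rw [mul_assoc, h7, mul_one]
    _ ≤ Real.pi * t := by nlinarith

theorem gamma_lower {a t : ℝ} (ha : 0 ≤ a) (ha1 : a ≤ 1 / 2) (ht : 0 < t) :
    Real.Gamma (1 / 2 + a) * (t ^ a * Real.exp (-(Real.pi * t / 2))) ≤
      ‖Gamma ((1 / 2 + a : ℝ) + t * I)‖ := by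
  have hG : 0 < Real.Gamma (1 / 2 + a) := Real.Gamma_pos_of_pos (by linarith)
  have h := gamma_interp (t := t) ha ha1
  have e1 : ‖Gamma ((1 / 2 : ℝ) : ℂ)‖ = Real.sqrt Real.pi := by
    rw [Gamma_ofReal, norm_real, Real.Gamma_one_half_eq, Real.norm_eq_abs,
      abs_of_nonneg (Real.sqrt_nonneg _)]
  have e2 : ‖Gamma ((1 : ℝ) : ℂ)‖ = 1 := by simp
  have e3 : ‖Gamma ((1 / 2 + a : ℝ) : ℂ)‖ = Real.Gamma (1 / 2 + a) := by
    rw [Gamma_ofReal, norm_real, Real.norm_eq_abs, abs_of_pos hG]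
  rw [e1, e2, e3, div_one, le_div_iff₀ hG] at h
  set E := Real.exp (-(Real.pi * t / 2)) with hE
  have hE0 : 0 < E := Real.exp_pos _
  have hs : 0 < Real.sqrt Real.pi := Real.sqrt_pos.2 Real.pi_pos
  have h1 : E ≤ ‖Gamma ((1 / 2 : ℝ) + t * I)‖ / Real.sqrt Real.pi := by
    rw [le_div_iff₀ hs, mul_comm]
    exact gamma_half ht.le
  have h2 : Real.sqrt t * E ≤ ‖Gamma ((1 : ℝ) + t * I)‖ := by
    apply le_of_sq_le_sq _ (norm_nonneg _)
    refine le_trans (le_of_eq ?_) (gamma_one ht)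
    rw [mul_pow, Real.sq_sqrt ht.le, hE, ← Real.exp_nat_mul]
    congr 2
    push_cast
    ring
  have h3 : E ^ (1 - 2 * a) ≤ (‖Gamma ((1 / 2 : ℝ) + t * I)‖ / Real.sqrt Real.pi) ^ (1 - 2 * a) :=
    Real.rpow_le_rpow hE0.le h1 (by linarith)
  have h4 : (Real.sqrt t * E) ^ (2 * a) ≤ ‖Gamma ((1 : ℝ) + t * I)‖ ^ (2 * a) :=
    Real.rpow_le_rpow (by positivity) h2 (by linarith)
  have h5 : t ^ a * E = E ^ (1 - 2 * a) * (Real.sqrt t * E) ^ (2 * a) := by
    rw [Real.mul_rpow (Real.sqrt_nonneg _) hE0.le, Real.sqrt_eq_rpow, ← Real.rpow_mul ht.le]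
    have e5 : (1 / 2 : ℝ) * (2 * a) = a := by ring
    rw [e5]
    have e6 : E ^ (1 - 2 * a) * E ^ (2 * a) = E := by
      rw [← Real.rpow_add hE0]
      simp
    calc t ^ a * E = t ^ a * (E ^ (1 - 2 * a) * E ^ (2 * a)) := by rw [e6]
      _ = _ := by ring
  refine le_trans ?_ h
  rw [h5, mul_comm (Real.Gamma _)]
  apply mul_le_mul_of_nonneg_right _ hG.le
  exact mul_le_mul h3 h4 (by positivity) (by positivity)

/-- the decay of `H` on the line `Re s = 1/2 + a` -/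
theorem HH_decay {a : ℝ} (ha : 0 ≤ a) (ha1 : a ≤ 1 / 2) : ∃ C : ℝ, 0 < C ∧ ∀ t : ℝ, 0 < t →
    ‖HH (1 / 2 + ((a : ℝ) + t * I))‖ ≤ C * t ^ (-a) := by
  have hG : 0 < Real.Gamma (1 / 2 + a) := Real.Gamma_pos_of_pos (by linarith)
  refine ⟨(2 * Real.pi) ^ (1 / 2 + a) / Real.Gamma (1 / 2 + a), by positivity, fun t ht => ?_⟩
  have h3 := gamma_lower ha ha1 ht
  have es : (1 / 2 + (((a : ℝ) : ℂ) + t * I)) = ((1 / 2 + a : ℝ) : ℂ) + t * I := by
    push_cast; ring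
  rw [es]
  unfold HH
  rw [norm_mul, norm_mul, norm_inv]
  have e1 : ‖(2 * Real.pi : ℂ) ^ (((1 / 2 + a : ℝ) : ℂ) + t * I)‖ =
      (2 * Real.pi) ^ (1 / 2 + a : ℝ) := by
    have : (2 * Real.pi : ℂ) = ((2 * Real.pi : ℝ) : ℂ) := by push_cast; rfl
    rw [this, norm_cpow_eq_rpow_re_of_pos (by positivity)]
    simp
  have e2 : ‖exp (Real.pi * I * (((1 / 2 + a : ℝ) : ℂ) + t * I) / 2)‖ =
      Real.exp (-(Real.pi * t / 2)) := by
    rw [Complex.norm_exp]
    congr 1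
    have : (Real.pi : ℂ) * I * (((1 / 2 + a : ℝ) : ℂ) + t * I) / 2 =
        ((-(Real.pi * t / 2) : ℝ) : ℂ) + ((Real.pi * (1 / 2 + a) / 2 : ℝ) : ℂ) * I := by
      push_cast
      ring_nf
      rw [I_sq]
      ring
    rw [this]
    simp
  have he : 0 < Real.exp (-(Real.pi * t / 2)) := Real.exp_pos _
  have hta : 0 < t ^ a := Real.rpow_pos_of_pos ht a
  have h5 : 0 < ‖Gamma (((1 / 2 + a : ℝ) : ℂ) + t * I)‖ := lt_of_lt_of_le (by positivity) h3
  rw [e1, e2, mul_assoc]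
  have e4 : (2 * Real.pi) ^ (1 / 2 + a) / Real.Gamma (1 / 2 + a) * t ^ (-a) =
      (2 * Real.pi) ^ (1 / 2 + a) * (t ^ (-a) / Real.Gamma (1 / 2 + a)) := by ring
  rw [e4]
  apply mul_le_mul_of_nonneg_left _ (by positivity)
  rw [Real.rpow_neg ht.le, ← div_eq_mul_inv, div_le_div_iff₀ h5 hG, inv_mul_eq_div,
    le_div_iff₀ hta]
  linarith

end Pool.Agent.KS6_76.RT
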