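import Pool.Agent.KS6_76.RT.Counts
import Pool.Agent.KS6_76.RT.GammaDecay
import Pool.Agent.KS6_76.RT.PhiG
import Pool.Graph.R_seed8.H491R3.InvL
import Pool.Graph.R_seed8.H491R3.EBound

/-! The ratios formula at two scales and the bound for the twisted difference. -/

set_option autoImplicit false

namespace Pool.Agent.KS6_76.RT

open Finset Complex Pool.Agent.H491R3

/-- The ratios formula with error `O(X^(-η))`, uniformly on the lines `Re α = -a`,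
`Re γ = 1/10`, with `|Im α|, |Im γ| ≤ C₀ X^(1 - ε)`. -/
def UR (w : ℝ → ℝ) (a η ε c₀ C₀ : ℝ) : Prop :=
  ∃ K X₀ : ℝ, ∀ X : ℝ, X₀ ≤ X → ∀ α γ : ℂ, α.re = -a → γ.re = 1 / 10 →
    c₀ / Real.log X ≤ γ.re → |α.im| ≤ C₀ * X ^ (1 - ε) →
    |γ.im| ≤ C₀ * X ^ (1 - ε) →
    ‖avg w X (fun d => L d (1 / 2 + α) / L d (1 / 2 + γ)) -
      (Phi α γ + avg w X (fun d => Xd d (1 / 2 + α)) * Phi (-α) γ)‖ ≤ K * X ^ (-η)

/-- the truncated family -/
noncomputable def DrG (m r : ℕ) : Finset OddSqf := Dset (r ^ (m + 5))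

theorem mem_DrG {m r : ℕ} {d : OddSqf} : d ∈ DrG m r ↔ |(d.1 : ℝ)| ≤ (r : ℝ) ^ (m + 5) := by
  unfold DrG
  rw [abs_cast_le]
  push_cast
  rfl

/-- the coefficients -/
noncomputable def vW (w : ℝ → ℝ) (x₀ lam : ℝ) (m r : ℕ) (d : OddSqf) : ℝ :=
  w (d.1 / (x₀ * (r : ℝ) ^ (m + 4))) / Wf w (x₀ * (r : ℝ) ^ (m + 4)) -
    w (d.1 / (lam * (x₀ * (r : ℝ) ^ (m + 4)))) / Wf w (lam * (x₀ * (r : ℝ) ^ (m + 4)))

theorem abs_ge_one (d : OddSqf) : (1 : ℝ) ≤ |(d.1 : ℝ)| := by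
  rw [← natAbs_cast_real]
  have : 1 ≤ d.1.natAbs := Int.natAbs_pos.2 d.ne_zero
  exact_mod_cast this

theorem sum_inv_sq : Summable (fun n : ℕ => (((n : ℝ)) ^ 2)⁻¹) ∧
    ∑' n : ℕ, (((n : ℝ)) ^ 2)⁻¹ ≤ 2 := by
  have hZ : HasSum (fun n : ℕ => 1 / ((n : ℝ)) ^ 2) (Real.pi ^ 2 / 6) := hasSum_zeta_two
  simp only [one_div] at hZ
  refine ⟨hZ.summable, ?_⟩
  rw [hZ.tsum_eq]
  have : Real.pi < 3.15 := Real.pi_lt_d2
  have h0 := Real.pi_pos
  nlinarith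

theorem sum_bound {g : OddSqf → ℂ} {c : ℝ} (hc : 0 ≤ c)
    (hg : ∀ d, ‖g d‖ ≤ c * ((((d.1.natAbs : ℕ) : ℝ)) ^ 2)⁻¹) :
    Summable g ∧ ‖∑' d, g d‖ ≤ 4 * c := by
  obtain ⟨h1, h2⟩ := sum_inv_sq
  have hF : ∀ n : ℕ, 0 ≤ c * (((n : ℝ)) ^ 2)⁻¹ := fun n => by positivity
  have hs := summable_natAbs hF (h1.mul_left c)
  have ht := tsum_natAbs_le hF (h1.mul_left c)
  have hgn : Summable (fun d => ‖g d‖) := Summable.of_nonneg_of_le (fun _ => norm_nonneg _) hg hs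
  refine ⟨hgn.of_norm, ?_⟩
  calc ‖∑' d, g d‖ ≤ ∑' d, ‖g d‖ := norm_tsum_le_tsum_norm hgn
    _ ≤ ∑' d : OddSqf, c * ((((d.1.natAbs : ℕ) : ℝ)) ^ 2)⁻¹ := hgn.tsum_le_tsum hg hs
    _ ≤ 2 * ∑' n : ℕ, c * (((n : ℝ)) ^ 2)⁻¹ := ht
    _ = 2 * (c * ∑' n : ℕ, (((n : ℝ)) ^ 2)⁻¹) := by rw [tsum_mul_left]
    _ ≤ 4 * c := by nlinarith

theorem w_decay_at {w : ℝ → ℝ} {C : ℝ} {j : ℕ} (hC : ∀ x, |x| ^ j * w x ≤ C)
    {X : ℝ} (hX : 0 < X) (d : OddSqf) : w (d.1 / X) ≤ C * X ^ j * (|(d.1 : ℝ)| ^ j)⁻¹ := by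
  have hd := abs_ge_one d
  have h := hC (d.1 / X)
  rw [abs_div, abs_of_pos hX, div_pow, div_mul_eq_mul_div, div_le_iff₀ (by positivity)] at h
  rw [← div_eq_mul_inv, le_div_iff₀ (by positivity)]
  linarith

theorem poly_summable {w : ℝ → ℝ} (hw : SW w) {X : ℝ} (hX : 0 < X) {f : OddSqf → ℂ} {B : ℝ}
    (hB : 0 ≤ B) {k : ℕ} (hf : ∀ d, ‖f d‖ ≤ B * |(d.1 : ℝ)| ^ k) :
    Summable (fun d : OddSqf => (w (d.1 / X) : ℂ) * f d) := by
  obtain ⟨C, hC0, hC⟩ := hw.decay (k + 2)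
  refine (sum_bound (c := C * X ^ (k + 2) * B) (by positivity) (fun d => ?_)).1
  have hd := abs_ge_one d
  have h1 := w_decay_at hC hX d
  rw [norm_mul, norm_real, Real.norm_eq_abs, abs_of_nonneg (hw.nonneg _), natAbs_cast_real]
  calc w (d.1 / X) * ‖f d‖ ≤ (C * X ^ (k + 2) * (|(d.1 : ℝ)| ^ (k + 2))⁻¹) *
        (B * |(d.1 : ℝ)| ^ k) :=
        mul_le_mul h1 (hf d) (norm_nonneg _) (by positivity)
    _ = C * X ^ (k + 2) * B * (|(d.1 : ℝ)| ^ 2)⁻¹ := by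
        have : |(d.1 : ℝ)| ≠ 0 := by positivity
        field_simp
        ring

theorem tail_bound {w : ℝ → ℝ} (hw : SW w) {x₀ : ℝ} (hx₀ : 0 < x₀) (m k N : ℕ) :
    ∃ r₀ : ℕ, ∀ r : ℕ, r₀ ≤ r → ∀ f : OddSqf → ℂ, ∀ B : ℝ, 0 ≤ B →
      (∀ d, ‖f d‖ ≤ B * |(d.1 : ℝ)| ^ k) →
      ‖∑' d : OddSqf, (if d ∈ DrG m r then 0 else
        (w (d.1 / (x₀ * (r : ℝ) ^ (m + 4))) : ℂ) * f d)‖ ≤ B * ((r : ℝ) ^ N)⁻¹ := by
  set j := (m + 5) * (k + 2) + N + 1 with hj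
  obtain ⟨C, hC0, hC⟩ := hw.decay j
  refine ⟨⌈4 * C * x₀ ^ j⌉₊ + 1, fun r hr f B hB hf => ?_⟩
  have hr1 : 4 * C * x₀ ^ j ≤ r := by
    have h1 : 4 * C * x₀ ^ j ≤ ⌈4 * C * x₀ ^ j⌉₊ := Nat.le_ceil _
    have h2 : ((⌈4 * C * x₀ ^ j⌉₊ : ℕ) : ℝ) ≤ r := by
      have : ⌈4 * C * x₀ ^ j⌉₊ ≤ r := by omega
      exact_mod_cast this
    linarith
  have hr1' : 1 ≤ r := by omega
  have hr0 : (0 : ℝ) < r := by exact_mod_cast hr1'
  have hrone : (1 : ℝ) ≤ r := by exact_mod_cast hr1'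
  have hX : 0 < x₀ * (r : ℝ) ^ (m + 4) := by positivity
  have hmain := (sum_bound (g := fun d : OddSqf => if d ∈ DrG m r then 0 else
        (w (d.1 / (x₀ * (r : ℝ) ^ (m + 4))) : ℂ) * f d)
      (c := C * x₀ ^ j * B * ((r : ℝ) ^ (N + 1))⁻¹) (by positivity) (fun d => ?_)).2
  · refine hmain.trans ?_
    have : 4 * (C * x₀ ^ j * B * ((r : ℝ) ^ (N + 1))⁻¹) =
        B * ((r : ℝ) ^ N)⁻¹ * ((4 * C * x₀ ^ j) / r) := by
      field_simp
      ring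
    rw [this]
    have h3 : (4 * C * x₀ ^ j) / r ≤ 1 := by
      rw [div_le_one hr0]
      exact hr1
    have h4 : 0 ≤ B * ((r : ℝ) ^ N)⁻¹ := by positivity
    nlinarith
  · by_cases hd : d ∈ DrG m r
    · simp only [if_pos hd, norm_zero]
      positivity
    · simp only [if_neg hd]
      have hd1 := abs_ge_one d
      rw [mem_DrG, not_le] at hd
      have h1 := w_decay_at hC hX d
      rw [norm_mul, norm_real, Real.norm_eq_abs, abs_of_nonneg (hw.nonneg _), natAbs_cast_real]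
      set D := |(d.1 : ℝ)| with hD
      have hD0 : 0 < D := by linarith
      have hpow : ((r : ℝ) ^ (m + 5)) ^ (j - (k + 2)) ≤ D ^ (j - (k + 2)) :=
        pow_le_pow_left₀ (by positivity) hd.le _
      have hjk : k + 2 ≤ j := by
        rw [hj]
        have : k + 2 ≤ (m + 5) * (k + 2) := Nat.le_mul_of_pos_left _ (by omega)
        omega
      have hDj : D ^ j = D ^ (j - (k + 2)) * D ^ (k + 2) := by
        rw [← pow_add]
        congr 1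
        omega
      have hexp : (r : ℝ) ^ ((m + 4) * j) * (r : ℝ) ^ (N + 1) ≤
          ((r : ℝ) ^ (m + 5)) ^ (j - (k + 2)) := by
        rw [← pow_add, ← pow_mul]
        apply pow_le_pow_right₀ hrone
        have h5 : (m + 5) * (j - (k + 2)) = (m + 5) * j - (m + 5) * (k + 2) := by
          rw [Nat.mul_sub]
        have h6 : (m + 5) * j = (m + 4) * j + j := by ring
        rw [h5, h6]
        omega
      calc w (d.1 / (x₀ * (r : ℝ) ^ (m + 4))) * ‖f d‖ ≤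
          (C * (x₀ * (r : ℝ) ^ (m + 4)) ^ j * (D ^ j)⁻¹) * (B * D ^ k) :=
            mul_le_mul h1 (hf d) (norm_nonneg _) (by positivity)
        _ = C * x₀ ^ j * B * ((r : ℝ) ^ ((m + 4) * j) * (D ^ (j - (k + 2)))⁻¹) * (D ^ 2)⁻¹ := by
            rw [hDj, mul_pow, ← pow_mul]
            field_simp
            ring
        _ ≤ C * x₀ ^ j * B * ((r : ℝ) ^ (N + 1))⁻¹ * (D ^ 2)⁻¹ := by
            have h7 : (r : ℝ) ^ ((m + 4) * j) * (D ^ (j - (k + 2)))⁻¹ ≤ ((r : ℝ) ^ (N + 1))⁻¹ := by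
              rw [← div_eq_mul_inv, div_le_iff₀ (by positivity), inv_mul_eq_div,
                le_div_iff₀ (by positivity)]
              exact hexp.trans hpow
            gcongr

theorem split_tsum {g : OddSqf → ℂ} (hg : Summable g) (s : Finset OddSqf) :
    ∑' d, g d = ∑ d ∈ s, g d + ∑' d, (if d ∈ s then 0 else g d) := by
  classical
  have h1 : Summable (fun d => if d ∈ s then g d else 0) :=
    summable_of_ne_finset_zero (s := s) (fun d hd => by simp [hd])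
  have h1' : ∑' d, (if d ∈ s then g d else 0) = ∑ d ∈ s, g d := by
    rw [tsum_eq_sum (s := s) (fun d hd => by simp [hd])]
    exact sum_congr rfl fun d hd => by simp [hd]
  have h2 : Summable (fun d => if d ∈ s then 0 else g d) := by
    have := hg.sub h1
    refine this.congr fun d => ?_
    split_ifs <;> simp
  have h3 : ∑' d, g d = ∑' d, ((if d ∈ s then g d else 0) + (if d ∈ s then 0 else g d)) := by
    apply tsum_congr
    intro d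
    split_ifs <;> simp
  rw [h3, h1.tsum_add h2, h1']

theorem HH_ne_zero {s : ℂ} (hs : 0 < s.re) : HH s ≠ 0 := by
  unfold HH
  have hpi : (2 * Real.pi : ℂ) ≠ 0 := by
    have : (Real.pi : ℂ) ≠ 0 := by exact_mod_cast Real.pi_pos.ne'
    simp
  apply mul_ne_zero (mul_ne_zero _ (exp_ne_zero _)) (inv_ne_zero (Gamma_ne_zero_of_re_pos hs))
  rw [Ne, cpow_eq_zero_iff]
  exact fun h => hpi h.1

theorem ee_le {d : OddSqf} {a t : ℝ} (ht : 0 ≤ t) : ‖ee d (1 / 2 + ((a : ℂ) + t * I))‖ ≤ 2 :=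
  ee_norm_le d ht

theorem Xd_bound (d : OddSqf) {a t : ℝ} (ha0 : 0 < a) (ha1 : a < 1 / 2) (ht : 0 ≤ t) :
    ‖Xd d (1 / 2 - ((a : ℂ) + t * I))‖ ≤
      (16 / ‖HH (1 / 2 + ((a : ℂ) + t * I))‖) * |(d.1 : ℝ)| ^ 1 := by
  have hre : 0 < (1 / 2 + ((a : ℂ) + t * I)).re := by simp; linarith
  have hH := HH_ne_zero hre
  have hHp : 0 < ‖HH (1 / 2 + ((a : ℂ) + t * I))‖ := norm_pos_iff.2 hH
  have h := HH_mul_Xd d hre
  have e : (1 : ℂ) - (1 / 2 + ((a : ℂ) + t * I)) = 1 / 2 - ((a : ℂ) + t * I) := by ring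
  rw [e] at h
  have hn := congrArg norm h
  rw [norm_mul, norm_mul] at hn
  have hq0 : (0 : ℝ) < ((8 * d.1.natAbs : ℕ) : ℝ) := by
    have := one_lt_N d
    exact_mod_cast (by omega : 0 < 8 * d.1.natAbs)
  have h2 : ‖(((8 * d.1.natAbs : ℕ) : ℂ)) ^ (1 / 2 + ((a : ℂ) + t * I) - 1 / 2)‖ ≤
      8 * |(d.1 : ℝ)| := by
    rw [norm_natCast_cpow_of_pos (by have := one_lt_N d; omega)]
    have : (1 / 2 + ((a : ℂ) + t * I) - 1 / 2).re = a := by simp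
    rw [this]
    have h1 : (1 : ℝ) ≤ ((8 * d.1.natAbs : ℕ) : ℝ) := by
      have := one_lt_N d
      exact_mod_cast this.le
    calc (((8 * d.1.natAbs : ℕ) : ℝ)) ^ a ≤ (((8 * d.1.natAbs : ℕ) : ℝ)) ^ (1 : ℝ) :=
          Real.rpow_le_rpow_of_exponent_le h1 (by linarith)
      _ = 8 * |(d.1 : ℝ)| := by
          rw [Real.rpow_one, ← natAbs_cast_real]
          push_cast
          rfl
  have h3 := ee_le (d := d) (a := a) ht
  have h4 : ‖HH (1 / 2 + ((a : ℂ) + t * I))‖ * ‖Xd d (1 / 2 - ((a : ℂ) + t * I))‖ ≤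
      (8 * |(d.1 : ℝ)|) * 2 := by
    rw [hn]
    exact mul_le_mul h2 h3 (norm_nonneg _) (by positivity)
  rw [pow_one, div_mul_eq_mul_div, le_div_iff₀ hHp]
  linarith

theorem qq_abs (d : OddSqf) : qq d = 8 * |(d.1 : ℝ)| := by
  unfold qq
  rw [← natAbs_cast_real]
  push_cast
  rfl

theorem invL_poly (hG : GRH) (d : OddSqf) {s : ℂ} (hs : 3 / 5 ≤ s.re) :
    ‖(L d s)⁻¹‖ ≤ (4 * (128 * (|s.im| + 5)) ^ 56) * |(d.1 : ℝ)| ^ 56 := by
  have h := inv_L_bound hG d hs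
  have e : (16 * qq d * (|s.im| + 5)) ^ (56 : ℝ) =
      (128 * (|s.im| + 5)) ^ 56 * |(d.1 : ℝ)| ^ 56 := by
    have : (56 : ℝ) = ((56 : ℕ) : ℝ) := by norm_num
    rw [this, Real.rpow_natCast, qq_abs, ← mul_pow]
    congr 1
    ring
  rw [e] at h
  linarith

theorem L_poly (d : OddSqf) {s : ℂ} (hs : 0 < s.re) :
    ‖L d s‖ ≤ (‖s‖ * (9 / s.re)) * |(d.1 : ℝ)| ^ 1 := by
  have h := L_growth d hs
  have hd := abs_ge_one d
  have h2 : (qq d + 1) / s.re ≤ 9 / s.re * |(d.1 : ℝ)| := by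
    rw [qq_abs, div_mul_eq_mul_div]
    apply div_le_div_of_nonneg_right _ hs.le
    linarith
  calc ‖L d s‖ ≤ ‖s‖ * ((qq d + 1) / s.re) := h
    _ ≤ ‖s‖ * (9 / s.re * |(d.1 : ℝ)|) := mul_le_mul_of_nonneg_left h2 (norm_nonneg _)
    _ = _ := by ring

/-- the difference as a sum over the family -/
theorem avg_eqG (hG : GRH) {w : ℝ → ℝ} (hw : SW w) {X : ℝ} (hX : 1 ≤ X) {a t : ℝ} (ha0 : 0 < a)
    (ha1 : a < 1 / 2) (ht : 0 ≤ t) {γ : ℂ} (hγ : γ.re = 1 / 10) :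
    Summable (fun d : OddSqf => (w (d.1 / X) : ℂ) * Tm ((a : ℂ) + t * I) γ d) ∧
    avg w X (fun d => L d (1 / 2 + -((a : ℂ) + t * I)) / L d (1 / 2 + γ)) -
      avg w X (fun d => Xd d (1 / 2 + -((a : ℂ) + t * I))) * Phi ((a : ℂ) + t * I) γ =
    (∑' d : OddSqf, (w (d.1 / X) : ℂ) * Tm ((a : ℂ) + t * I) γ d) / ((Wf w X : ℝ) : ℂ) := by
  set β : ℂ := (a : ℂ) + t * I with hβ
  have hβre : β.re = a := by rw [hβ]; simp
  have hX0 : 0 < X := by linarith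
  have e1 : (1 : ℂ) / 2 + -β = 1 / 2 - β := by ring
  have hre1 : 0 < (1 / 2 - β).re := by
    rw [sub_re, hβre]; norm_num; linarith
  have hre2 : 3 / 5 ≤ (1 / 2 + γ).re := by
    rw [add_re, hγ]; norm_num
  have hre3 : 0 < (1 / 2 + β).re := by
    rw [add_re, hβre]; norm_num; linarith
  -- the first function
  have s1 : Summable (fun d : OddSqf => (w (d.1 / X) : ℂ) *
      (L d (1 / 2 + -β) / L d (1 / 2 + γ))) := by
    apply poly_summable hw hX0 (B := (‖1 / 2 - β‖ * (9 / (1 / 2 - β).re)) *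
      (4 * (128 * (|(1 / 2 + γ).im| + 5)) ^ 56)) (k := 57)
    · positivity
    · intro d
      rw [e1, div_eq_mul_inv, norm_mul]
      have h1 := L_poly d hre1
      have h2 := invL_poly hG d hre2
      have hd := abs_ge_one d
      calc ‖L d (1 / 2 - β)‖ * ‖(L d (1 / 2 + γ))⁻¹‖ ≤ _ :=
            mul_le_mul h1 h2 (norm_nonneg _) (by positivity)
        _ = _ := by ring
  have s2 : Summable (fun d : OddSqf => (w (d.1 / X) : ℂ) * Xd d (1 / 2 + -β)) := by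
    apply poly_summable hw hX0 (B := 16 / ‖HH (1 / 2 + β)‖) (k := 1)
    · positivity
    · intro d
      rw [e1]
      exact Xd_bound d ha0 ha1 ht
  have hTm : ∀ d : OddSqf, (w (d.1 / X) : ℂ) * Tm β γ d =
      (w (d.1 / X) : ℂ) * (L d (1 / 2 + -β) / L d (1 / 2 + γ)) -
      (w (d.1 / X) : ℂ) * Xd d (1 / 2 + -β) * Phi β γ := by
    intro d
    have h := L_one_sub' d hre3
    have e : (1 : ℂ) - (1 / 2 + β) = 1 / 2 + -β := by ring
    rw [e] at h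
    unfold Tm
    rw [h, sub_eq_add_neg (1 / 2 : ℂ) β]
    ring
  constructor
  · refine (s1.sub (s2.mul_right (Phi β γ))).congr fun d => ?_
    rw [hTm d]
  · unfold avg
    have hW : (∑' d : OddSqf, (w (d.1 / X) : ℂ)) = ((Wf w X : ℝ) : ℂ) := by
      unfold Wf
      rw [Complex.ofReal_tsum]
    rw [hW, div_mul_eq_mul_div, ← sub_div]
    congr 1
    rw [tsum_congr hTm, s1.tsum_sub (s2.mul_right (Phi β γ)), tsum_mul_right]

/-- the twisted term -/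
noncomputable def Tt (β γ : ℂ) (d : OddSqf) : ℂ :=
  exp (β * (Real.log |(d.1 : ℝ)| : ℝ)) * ee d (1 / 2 + β) *
    (W d * L d (1 / 2 + β) * (L d (1 / 2 + γ))⁻¹ - Phi β γ)

/-- the twisting factor -/
noncomputable def cb (β : ℂ) : ℂ := exp (-(β * (Real.log 8 : ℝ))) * HH (1 / 2 + β)

theorem Tt_eq {β : ℂ} (γ : ℂ) (hβ : 0 < (1 / 2 + β).re) (d : OddSqf) :
    Tt β γ d = cb β * Tm β γ d := by
  unfold Tm Tt cb
  have h := HH_mul_Xd d hβ
  have e : (1 : ℂ) - (1 / 2 + β) = 1 / 2 - β := by ring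
  have e' : (1 : ℂ) / 2 + β - 1 / 2 = β := by ring
  rw [e, e'] at h
  have hd0 : (0 : ℝ) < |(d.1 : ℝ)| := by
    have := abs_ge_one d
    linarith
  have h2 : ((8 * d.1.natAbs : ℕ) : ℂ) ^ β =
      exp (β * (Real.log 8 : ℝ)) * exp (β * (Real.log |(d.1 : ℝ)| : ℝ)) := by
    rw [natAbs_cast, cpow_def_of_ne_zero (by
      have : 8 * |(d.1 : ℝ)| ≠ 0 := by positivity
      exact_mod_cast this), ← ofReal_log (by positivity), Real.log_mul (by norm_num) hd0.ne',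
      ← exp_add]
    congr 1
    push_cast
    ring
  have h3 : exp (-(β * (Real.log 8 : ℝ))) * (exp (β * (Real.log 8 : ℝ)) *
      exp (β * (Real.log |(d.1 : ℝ)| : ℝ))) = exp (β * (Real.log |(d.1 : ℝ)| : ℝ)) := by
    rw [← mul_assoc, ← exp_add]
    simp
  calc _ = (exp (-(β * (Real.log 8 : ℝ))) * (exp (β * (Real.log 8 : ℝ)) *
      exp (β * (Real.log |(d.1 : ℝ)| : ℝ)))) * ee d (1 / 2 + β) *
        (W d * L d (1 / 2 + β) * (L d (1 / 2 + γ))⁻¹ - Phi β γ) := by rw [h3]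
    _ = exp (-(β * (Real.log 8 : ℝ))) * (HH (1 / 2 + β) *
        Xd d (1 / 2 - β)) *
        (W d * L d (1 / 2 + β) * (L d (1 / 2 + γ))⁻¹ - Phi β γ) := by
        rw [h, h2]
        ring
    _ = _ := by ring

theorem exp_log_abs_norm (d : OddSqf) {a t : ℝ} (ha1 : a ≤ 1) :
    ‖exp (((a : ℂ) + t * I) * (Real.log |(d.1 : ℝ)| : ℝ))‖ ≤ |(d.1 : ℝ)| := by
  have hd := abs_ge_one d
  rw [Complex.norm_exp, re_mul_ofReal]
  have : ((a : ℂ) + t * I).re = a := by simp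
  rw [this]
  have hl := Real.log_nonneg hd
  calc Real.exp (a * Real.log |(d.1 : ℝ)|) ≤ Real.exp (Real.log |(d.1 : ℝ)|) := by
        apply Real.exp_le_exp.2
        nlinarith
    _ = |(d.1 : ℝ)| := Real.exp_log (by linarith)

/-- polynomial bound for the twisted term -/
theorem Tt_poly (hG : GRH) {a C : ℝ} (ha0 : 0 < a) (ha1 : a < 1 / 2) (hC1 : 1 ≤ C)
    (hPhi : ∀ α γ : ℂ, a ≤ α.re → a ≤ (α + γ).re → ‖Phi α γ‖ ≤ C) {m r : ℕ}
    (hr : 1000 ≤ (r : ℝ)) (hCr : C ≤ r) {t u : ℝ} (ht0 : 0 ≤ t) (ht : t ≤ 2 * (r : ℝ) ^ (m + 2))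
    (hu : |u| ≤ (r : ℝ) ^ 22) (d : OddSqf) :
    ‖Tt ((a : ℂ) + t * I) ((1 / 10 : ℝ) + u * I) d‖ ≤ (r : ℝ) ^ (m + 1295) * |(d.1 : ℝ)| ^ 58 := by
  have hr0 : (0 : ℝ) < r := by linarith
  have hr1 : (1 : ℝ) ≤ r := by linarith
  have hd := abs_ge_one d
  set D := |(d.1 : ℝ)| with hD
  have hγre : (1 / 2 + (((1 / 10 : ℝ) : ℂ) + u * I)).re = 3 / 5 := by simp; norm_num
  have hγim : (1 / 2 + (((1 / 10 : ℝ) : ℂ) + u * I)).im = u := by simp
  have hβre : (1 / 2 + ((a : ℂ) + t * I)).re = 1 / 2 + a := by simp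
  have hβim : (1 / 2 + ((a : ℂ) + t * I)).im = t := by simp
  have h1 := exp_log_abs_norm d (a := a) (t := t) (by linarith)
  have h2 := ee_le (d := d) (a := a) ht0
  have h3 := L_poly d (s := 1 / 2 + ((a : ℂ) + t * I)) (by rw [hβre]; linarith)
  have h4 := invL_poly hG d (s := 1 / 2 + (((1 / 10 : ℝ) : ℂ) + u * I)) (by rw [hγre])
  have h5 : ‖Phi ((a : ℂ) + t * I) ((1 / 10 : ℝ) + u * I)‖ ≤ C := by
    apply hPhi
    · simp
    · simp
  have h6 : ‖W d‖ = 1 := by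
    rw [W_real, norm_real, Real.norm_eq_abs, Wr_abs]
  rw [hβre] at h3
  rw [hγim] at h4
  have hm2 : (1 : ℝ) ≤ (r : ℝ) ^ (m + 2) := one_le_pow₀ hr1
  have h7 : ‖1 / 2 + ((a : ℂ) + t * I)‖ ≤ 3 * (r : ℝ) ^ (m + 2) := by
    refine (norm_le_abs_re_add_abs_im _).trans ?_
    rw [hβre, hβim, abs_of_pos (by linarith), abs_of_nonneg ht0]
    linarith
  have h8 : ‖L d (1 / 2 + ((a : ℂ) + t * I))‖ ≤ (r : ℝ) ^ (m + 3) * D := by
    refine h3.trans ?_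
    rw [pow_one]
    apply mul_le_mul_of_nonneg_right _ (by positivity)
    have h9 : 9 / (1 / 2 + a) ≤ 18 := by
      rw [div_le_iff₀ (by linarith)]
      linarith
    calc ‖1 / 2 + ((a : ℂ) + t * I)‖ * (9 / (1 / 2 + a)) ≤ (3 * (r : ℝ) ^ (m + 2)) * 18 := by
          apply mul_le_mul h7 h9 (by positivity) (by positivity)
      _ = 54 * (r : ℝ) ^ (m + 2) := by ring
      _ ≤ r * (r : ℝ) ^ (m + 2) := by
          apply mul_le_mul_of_nonneg_right _ (by positivity)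
          linarith
      _ = _ := by ring
  have h10 : ‖(L d (1 / 2 + (((1 / 10 : ℝ) : ℂ) + u * I)))⁻¹‖ ≤ (r : ℝ) ^ 1289 * D ^ 56 := by
    refine h4.trans ?_
    apply mul_le_mul_of_nonneg_right _ (by positivity)
    have h22 : (5 : ℝ) ≤ (r : ℝ) ^ 22 := by
      calc (5 : ℝ) ≤ r := by linarith
        _ = (r : ℝ) ^ 1 := (pow_one _).symm
        _ ≤ (r : ℝ) ^ 22 := pow_le_pow_right₀ hr1 (by norm_num)
    have h11 : 128 * (|u| + 5) ≤ (r : ℝ) ^ 23 := by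
      calc 128 * (|u| + 5) ≤ 128 * ((r : ℝ) ^ 22 + (r : ℝ) ^ 22) := by gcongr
        _ = 256 * (r : ℝ) ^ 22 := by ring
        _ ≤ r * (r : ℝ) ^ 22 := by
            apply mul_le_mul_of_nonneg_right _ (by positivity)
            linarith
        _ = _ := by ring
    calc 4 * (128 * (|u| + 5)) ^ 56 ≤ 4 * ((r : ℝ) ^ 23) ^ 56 := by
          have : 0 ≤ |u| := abs_nonneg u
          gcongr
      _ = 4 * (r : ℝ) ^ 1288 := by rw [← pow_mul]
      _ ≤ r * (r : ℝ) ^ 1288 := by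
          apply mul_le_mul_of_nonneg_right _ (by positivity)
          linarith
      _ = _ := by ring
  unfold Tt
  rw [norm_mul, norm_mul]
  have h12 : ‖W d * L d (1 / 2 + ((a : ℂ) + t * I)) *
      (L d (1 / 2 + (((1 / 10 : ℝ) : ℂ) + u * I)))⁻¹ -
      Phi ((a : ℂ) + t * I) ((1 / 10 : ℝ) + u * I)‖ ≤ 2 * ((r : ℝ) ^ (m + 1292) * D ^ 57) := by
    refine (norm_sub_le _ _).trans ?_
    rw [norm_mul, norm_mul, h6, one_mul]
    have a1 : ‖L d (1 / 2 + ((a : ℂ) + t * I))‖ *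
        ‖(L d (1 / 2 + (((1 / 10 : ℝ) : ℂ) + u * I)))⁻¹‖ ≤ (r : ℝ) ^ (m + 1292) * D ^ 57 := by
      calc _ ≤ ((r : ℝ) ^ (m + 3) * D) * ((r : ℝ) ^ 1289 * D ^ 56) :=
            mul_le_mul h8 h10 (norm_nonneg _) (by positivity)
        _ = _ := by ring
    have a2 : C ≤ (r : ℝ) ^ (m + 1292) * D ^ 57 := by
      have b1 : (1 : ℝ) ≤ D ^ 57 := one_le_pow₀ hd
      have b2 : (r : ℝ) ≤ (r : ℝ) ^ (m + 1292) := by
        calc (r : ℝ) = (r : ℝ) ^ 1 := (pow_one _).symm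
          _ ≤ _ := pow_le_pow_right₀ hr1 (by omega)
      nlinarith
    linarith
  calc _ ≤ D * 2 * (2 * ((r : ℝ) ^ (m + 1292) * D ^ 57)) := by gcongr
    _ = 4 * (r : ℝ) ^ (m + 1292) * D ^ 58 := by ring
    _ ≤ (r : ℝ) ^ (m + 1295) * D ^ 58 := by
        apply mul_le_mul_of_nonneg_right _ (by positivity)
        have : (r : ℝ) ^ (m + 1295) = (r ^ 3) * (r : ℝ) ^ (m + 1292) := by ring
        rw [this]
        apply mul_le_mul_of_nonneg_right _ (by positivity)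
        have : (r : ℝ) ≤ (r : ℝ) ^ 3 := by
          calc (r : ℝ) = (r : ℝ) ^ 1 := (pow_one _).symm
            _ ≤ _ := pow_le_pow_right₀ hr1 (by omega)
        linarith

end Pool.Agent.KS6_76.RT
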