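import Pool.Agent.KS6_76.RT.EB

set_option autoImplicit false

namespace Pool.Agent.KS6_76.RT

open Finset Complex Pool.Agent.H491R3

/-- the bound for the twisted difference -/
theorem E1G_bound (hG : GRH) {w : ℝ → ℝ} (hw : SW w) {c₁ X₁ : ℝ} (hc₁ : 0 < c₁)
    (hlow : ∀ X ≥ X₁, c₁ * X ≤ Wf w X) {a η ε c₀ C₀ x₀ lam : ℝ} (ha0 : 0 < a) (ha1 : a < 1 / 2)
    (hη : 0 ≤ η) {m : ℕ} (hm : 20 ≤ m) (hε : ε * (m + 4) ≤ 1) (hC₀ : 0 < C₀) (hx₀ : 0 < x₀) (hlam : 1 ≤ lam)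
    (h : UR w a η ε c₀ C₀) :
    ∃ K : ℝ, 0 ≤ K ∧ ∃ r₀ : ℕ, ∀ r : ℕ, r₀ ≤ r → ∀ t u : ℝ,
      (r : ℝ) ^ (m + 2) - (r : ℝ) ^ (m + 1) ≤ t → t ≤ (r : ℝ) ^ (m + 2) + (r : ℝ) ^ (m + 1) →
      |u| ≤ (r : ℝ) ^ 22 →
      ‖∑ d ∈ DrG m r, ((vW w x₀ lam m r d : ℝ) : ℂ) *
        Tt ((a : ℂ) + t * I) ((1 / 10 : ℝ) + u * I) d‖ ≤
        K * (((r : ℝ) ^ (m + 4)) ^ (-η) * ((r : ℝ) ^ (m + 2)) ^ (-a)) := by
  obtain ⟨K, X₀, hK⟩ := h
  obtain ⟨C, hC1, hPhi⟩ := Phi_boundG ha0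
  obtain ⟨CH, hCH0, hCH⟩ := HH_decay ha0.le ha1.le
  set M : ℕ := ⌈(m + 4 : ℝ) * η + (m + 2) * a⌉₊ with hM
  have hlam0 : 0 < lam := by linarith
  have hlx : 0 < lam * x₀ := by positivity
  obtain ⟨r₁, ht1⟩ := tail_bound hw hx₀ m 58 (m + 1295 + M)
  obtain ⟨r₂, ht2⟩ := tail_bound hw hlx m 58 (m + 1295 + M)
  set q : ℝ := 1 - 1 / ((m : ℝ) + 4) with hq
  set κ : ℝ := C₀ * x₀ ^ q with hκ
  have hκ0 : 0 < κ := by positivity
  refine ⟨2 * CH * (2 * |K| * x₀ ^ (-η)) + 2, by positivity, ?_⟩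
  -- eventually in `r`
  have t0 : Filter.Tendsto (fun r : ℕ => (r : ℝ) ^ (m + 4)) Filter.atTop Filter.atTop :=
    (Filter.tendsto_pow_atTop (by omega)).comp tendsto_natCast_atTop_atTop
  have t1 : Filter.Tendsto (fun r : ℕ => x₀ * (r : ℝ) ^ (m + 4)) Filter.atTop Filter.atTop :=
    t0.const_mul_atTop hx₀
  have t2 : Filter.Tendsto (fun r : ℕ => lam * (x₀ * (r : ℝ) ^ (m + 4))) Filter.atTop
      Filter.atTop := t1.const_mul_atTop hlam0
  have l1 : Filter.Tendsto (fun r : ℕ => c₀ / Real.log (x₀ * (r : ℝ) ^ (m + 4))) Filter.atTop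
      (nhds 0) := (Real.tendsto_log_atTop.comp t1).const_div_atTop c₀
  have l2 : Filter.Tendsto (fun r : ℕ => c₀ / Real.log (lam * (x₀ * (r : ℝ) ^ (m + 4))))
      Filter.atTop (nhds 0) := (Real.tendsto_log_atTop.comp t2).const_div_atTop c₀
  have ev : ∀ᶠ r : ℕ in Filter.atTop, (max X₀ (max X₁ (max 1 (1 / c₁))) ≤
      x₀ * (r : ℝ) ^ (m + 4)) ∧ (c₀ / Real.log (x₀ * (r : ℝ) ^ (m + 4)) ≤ 1 / 10) ∧
      (c₀ / Real.log (lam * (x₀ * (r : ℝ) ^ (m + 4))) ≤ 1 / 10) ∧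
      (max (2 / κ) (max 1000 C) ≤ (r : ℝ)) := by
    filter_upwards [t1.eventually_ge_atTop (max X₀ (max X₁ (max 1 (1 / c₁)))),
      l1.eventually (eventually_le_nhds (by norm_num : (0 : ℝ) < 1 / 10)),
      l2.eventually (eventually_le_nhds (by norm_num : (0 : ℝ) < 1 / 10)),
      tendsto_natCast_atTop_atTop.eventually_ge_atTop (max (2 / κ) (max 1000 C))] with r a b c d
    exact ⟨a, b, c, d⟩
  obtain ⟨r₃, h3⟩ := Filter.eventually_atTop.1 ev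
  refine ⟨max r₁ (max r₂ r₃), fun r hr t u htl htu hu => ?_⟩
  have hr1' : r₁ ≤ r := (le_max_left _ _).trans hr
  have hr2' : r₂ ≤ r := (le_max_left _ _).trans ((le_max_right _ _).trans hr)
  obtain ⟨e1, e2, e3, e4⟩ := h3 r ((le_max_right _ _).trans ((le_max_right _ _).trans hr))
  have eX0 : X₀ ≤ x₀ * (r : ℝ) ^ (m + 4) := (le_max_left _ _).trans e1
  have e1' := (le_max_right _ _).trans e1
  have eX1 : X₁ ≤ x₀ * (r : ℝ) ^ (m + 4) := (le_max_left _ _).trans e1'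
  have e1'' := (le_max_right _ _).trans e1'
  have eX2 : 1 ≤ x₀ * (r : ℝ) ^ (m + 4) := (le_max_left _ _).trans e1''
  have eX3 : 1 / c₁ ≤ x₀ * (r : ℝ) ^ (m + 4) := (le_max_right _ _).trans e1''
  have ek : 2 / κ ≤ (r : ℝ) := (le_max_left _ _).trans e4
  have e4' := (le_max_right _ _).trans e4
  have hr1000 : (1000 : ℝ) ≤ r := (le_max_left _ _).trans e4'
  have hCr : C ≤ r := (le_max_right _ _).trans e4'
  have hr0 : (0 : ℝ) < r := by linarith
  have hr1 : (1 : ℝ) ≤ r := by linarith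
  set X := x₀ * (r : ℝ) ^ (m + 4) with hX
  have hX0 : 0 < X := by linarith
  set X' := lam * X with hX'
  have hXX' : X ≤ X' := by rw [hX']; nlinarith
  have hX'1 : 1 ≤ X' := eX2.trans hXX'
  have hT1 : (r : ℝ) ^ (m + 2) = (r : ℝ) ^ (m + 1) * r := by ring
  have hm1 : 0 < (r : ℝ) ^ (m + 1) := by positivity
  have hTV : (r : ℝ) ^ (m + 1) ≤ (r : ℝ) ^ (m + 2) / 2 := by
    rw [hT1]
    nlinarith
  have ht0 : 0 < t := by linarith
  have htT : (r : ℝ) ^ (m + 2) / 2 ≤ t := by linarith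
  have ht2' : t ≤ 2 * (r : ℝ) ^ (m + 2) := by linarith
  -- the region
  have hqm : 0 ≤ q := by
    rw [hq, sub_nonneg, div_le_one (by positivity)]
    have : (0 : ℝ) ≤ m := Nat.cast_nonneg m
    linarith
  have hregion : ∀ Y : ℝ, X ≤ Y → 2 * (r : ℝ) ^ (m + 2) ≤ C₀ * Y ^ (1 - ε) := by
    intro Y hY
    have hY1 : 1 ≤ Y := eX2.trans hY
    have hm4 : (0 : ℝ) < (m : ℝ) + 4 := by positivity
    have hεq : q ≤ 1 - ε := by
      rw [hq]
      have : ε ≤ 1 / ((m : ℝ) + 4) := by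
        rw [le_div_iff₀ hm4]
        exact hε
      linarith
    have a1 : Y ^ q ≤ Y ^ (1 - ε) := Real.rpow_le_rpow_of_exponent_le hY1 hεq
    have a2 : X ^ q ≤ Y ^ q := Real.rpow_le_rpow hX0.le hY hqm
    have a3 : X ^ q = x₀ ^ q * (r : ℝ) ^ (m + 3) := by
      rw [hX, Real.mul_rpow hx₀.le (by positivity)]
      congr 1
      rw [← Real.rpow_natCast, ← Real.rpow_mul hr0.le, ← Real.rpow_natCast]
      congr 1
      rw [hq]
      push_cast
      field_simp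
      ring
    have a4 : 2 ≤ κ * r := by
      rw [div_le_iff₀ hκ0] at ek
      linarith
    calc 2 * (r : ℝ) ^ (m + 2) ≤ κ * r * (r : ℝ) ^ (m + 2) := by gcongr
      _ = C₀ * (x₀ ^ q * (r : ℝ) ^ (m + 3)) := by rw [hκ]; ring
      _ = C₀ * X ^ q := by rw [a3]
      _ ≤ C₀ * Y ^ (1 - ε) := mul_le_mul_of_nonneg_left (a2.trans a1) hC₀.le
  have h22 : (r : ℝ) ^ 22 ≤ 2 * (r : ℝ) ^ (m + 2) := by
    have : (r : ℝ) ^ 22 ≤ (r : ℝ) ^ (m + 2) := pow_le_pow_right₀ hr1 (by omega)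
    have : 0 < (r : ℝ) ^ (m + 2) := by positivity
    linarith
  set β : ℂ := (a : ℂ) + t * I with hβ
  set γ : ℂ := (1 / 10 : ℝ) + u * I with hγ
  have hβre : β.re = a := by rw [hβ]; simp
  have hβim : β.im = t := by rw [hβ]; simp
  have hγre : γ.re = 1 / 10 := by rw [hγ]; simp
  have hγim : γ.im = u := by rw [hγ]; simp
  set P := ((r : ℝ) ^ (m + 4)) ^ (-η) with hP
  set Q := ((r : ℝ) ^ (m + 2)) ^ (-a) with hQ
  have hP0 : 0 < P := Real.rpow_pos_of_pos (by positivity) _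
  have hQ0 : 0 < Q := Real.rpow_pos_of_pos (by positivity) _
  have hxη : 0 < x₀ ^ (-η) := Real.rpow_pos_of_pos hx₀ _
  have bound : ∀ Y : ℝ, X ≤ Y → c₀ / Real.log Y ≤ 1 / 10 →
      ‖avg w Y (fun d => L d (1 / 2 + -β) / L d (1 / 2 + γ)) -
      (Phi (-β) γ + avg w Y (fun d => Xd d (1 / 2 + -β)) * Phi β γ)‖ ≤
        |K| * (x₀ ^ (-η) * P) := by
    intro Y hY hlog
    have hY0 : 0 < Y := by linarith
    have h9 := hK Y (eX0.trans hY) (-β) γ (by rw [neg_re, hβre]) hγre (by rw [hγre]; exact hlog)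
      (by rw [neg_im, abs_neg, hβim, abs_of_pos ht0]; exact ht2'.trans (hregion Y hY))
      (by rw [hγim]; exact hu.trans (h22.trans (hregion Y hY)))
    rw [neg_neg] at h9
    refine h9.trans ?_
    have h10 : Y ^ (-η) ≤ x₀ ^ (-η) * P := by
      have h11 : Y ^ (-η) ≤ X ^ (-η) := Real.rpow_le_rpow_of_nonpos hX0 hY (by linarith)
      have h12 : X ^ (-η) = x₀ ^ (-η) * P := by
        rw [hX, Real.mul_rpow hx₀.le (by positivity)]
      rw [← h12]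
      exact h11
    calc K * Y ^ (-η) ≤ |K| * Y ^ (-η) :=
          mul_le_mul_of_nonneg_right (le_abs_self K) (Real.rpow_nonneg hY0.le _)
      _ ≤ _ := mul_le_mul_of_nonneg_left h10 (abs_nonneg K)
  have b1 := bound X le_rfl e2
  have b2 := bound X' hXX' e3
  obtain ⟨sm1, q1⟩ := avg_eqG hG hw eX2 ha0 ha1 ht0.le hγre
  obtain ⟨sm2, q2⟩ := avg_eqG hG hw hX'1 ha0 ha1 ht0.le hγre
  rw [← hβ] at sm1 q1 sm2 q2
  set S1 := ∑' d : OddSqf, (w (d.1 / X) : ℂ) * Tm β γ d with hS1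
  set S2 := ∑' d : OddSqf, (w (d.1 / X') : ℂ) * Tm β γ d with hS2
  have hβ12 : 0 < (1 / 2 + β).re := by
    rw [add_re, hβre]; norm_num; linarith
  -- the twisting factor
  have hcb : ‖cb β‖ ≤ 2 * CH * Q := by
    unfold cb
    rw [norm_mul]
    have f1 : ‖exp (-(β * (Real.log 8 : ℝ)))‖ ≤ 1 := by
      rw [Complex.norm_exp, neg_re, re_mul_ofReal, hβre, Real.exp_le_one_iff]
      have : 0 < Real.log 8 := Real.log_pos (by norm_num)
      have := mul_pos ha0 this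
      linarith
    have f2 := hCH t ht0
    have f3 : t ^ (-a) ≤ 2 * Q := by
      have g1 : t ^ (-a) ≤ ((r : ℝ) ^ (m + 2) / 2) ^ (-a) :=
        Real.rpow_le_rpow_of_nonpos (by positivity) htT (by linarith)
      refine g1.trans ?_
      rw [Real.div_rpow (by positivity) (by norm_num), Real.rpow_neg (by norm_num : (0 : ℝ) ≤ 2),
        div_inv_eq_mul, mul_comm, hQ]
      apply mul_le_mul_of_nonneg_right _ hQ0.le
      calc (2 : ℝ) ^ a ≤ (2 : ℝ) ^ (1 : ℝ) :=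
            Real.rpow_le_rpow_of_exponent_le (by norm_num) (by linarith)
        _ = 2 := Real.rpow_one 2
    calc ‖exp (-(β * (Real.log 8 : ℝ)))‖ * ‖HH (1 / 2 + β)‖ ≤ 1 * (CH * t ^ (-a)) :=
          mul_le_mul f1 f2 (norm_nonneg _) zero_le_one
      _ ≤ 1 * (CH * (2 * Q)) := by gcongr
      _ = _ := by ring
  -- the total weights
  have hW1 : 1 ≤ Wf w X := by
    have := hlow X eX1
    rw [div_le_iff₀ hc₁] at eX3
    linarith
  have hW2 : 1 ≤ Wf w X' := by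
    have h5 := hlow X' (eX1.trans hXX')
    rw [div_le_iff₀ hc₁] at eX3
    have : X * c₁ ≤ X' * c₁ := mul_le_mul_of_nonneg_right hXX' hc₁.le
    linarith
  have hW1' : ((Wf w X : ℝ) : ℂ) ≠ 0 := by
    have : Wf w X ≠ 0 := by linarith
    exact_mod_cast this
  have hW2' : ((Wf w X' : ℝ) : ℂ) ≠ 0 := by
    have : Wf w X' ≠ 0 := by linarith
    exact_mod_cast this
  -- splitting
  have hT : ∀ Y : ℝ, ∑' d : OddSqf, (w (d.1 / Y) : ℂ) * Tt β γ d =
      cb β * ∑' d : OddSqf, (w (d.1 / Y) : ℂ) * Tm β γ d := by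
    intro Y
    rw [← tsum_mul_left]
    apply tsum_congr
    intro d
    rw [Tt_eq γ hβ12 d]
    ring
  have hsT : ∀ Y : ℝ, Summable (fun d : OddSqf => (w (d.1 / Y) : ℂ) * Tm β γ d) →
      Summable (fun d : OddSqf => (w (d.1 / Y) : ℂ) * Tt β γ d) := by
    intro Y hY
    refine (hY.mul_left (cb β)).congr fun d => ?_
    rw [Tt_eq γ hβ12 d]
    ring
  have sp1 := split_tsum (hsT X sm1) (DrG m r)
  have sp2 := split_tsum (hsT X' sm2) (DrG m r)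
  rw [hT, ← hS1] at sp1
  rw [hT, ← hS2] at sp2
  have hpoly := Tt_poly hG ha0 ha1 hC1 hPhi (m := m) hr1000 hCr ht0.le ht2' hu
  rw [← hβ, ← hγ] at hpoly
  have tb1 := ht1 r hr1' (Tt β γ) ((r : ℝ) ^ (m + 1295)) (by positivity) hpoly
  have tb2 := ht2 r hr2' (Tt β γ) ((r : ℝ) ^ (m + 1295)) (by positivity) hpoly
  rw [← hX] at tb1
  have eX' : lam * x₀ * (r : ℝ) ^ (m + 4) = X' := by rw [hX', hX]; ring
  rw [eX'] at tb2
  have hMb : (r : ℝ) ^ (m + 1295) * ((r : ℝ) ^ (m + 1295 + M))⁻¹ ≤ P * Q := by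
    have g1 : (r : ℝ) ^ (m + 1295) * ((r : ℝ) ^ (m + 1295 + M))⁻¹ = ((r : ℝ) ^ M)⁻¹ := by
      rw [pow_add (r : ℝ) (m + 1295) M]
      have : (r : ℝ) ^ (m + 1295) ≠ 0 := by positivity
      field_simp
    have g2 : P * Q = ((r : ℝ) ^ ((m + 4 : ℝ) * η + (m + 2) * a))⁻¹ := by
      rw [hP, hQ, Real.rpow_neg (by positivity), Real.rpow_neg (by positivity), ← mul_inv,
        ← Real.rpow_natCast, ← Real.rpow_natCast, ← Real.rpow_mul hr0.le, ← Real.rpow_mul hr0.le,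
        ← Real.rpow_add hr0]
      push_cast
      rfl
    rw [g1, g2]
    apply inv_anti₀ (Real.rpow_pos_of_pos hr0 _)
    rw [← Real.rpow_natCast]
    exact Real.rpow_le_rpow_of_exponent_le hr1 (Nat.le_ceil _)
  set tl1 := ∑' d : OddSqf, (if d ∈ DrG m r then 0 else (w (d.1 / X) : ℂ) * Tt β γ d) with htl1
  set tl2 := ∑' d : OddSqf, (if d ∈ DrG m r then 0 else (w (d.1 / X') : ℂ) * Tt β γ d) with htl2
  have key : ∑ d ∈ DrG m r, ((vW w x₀ lam m r d : ℝ) : ℂ) * Tt β γ d =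
      cb β * (S1 / ((Wf w X : ℝ) : ℂ) - S2 / ((Wf w X' : ℝ) : ℂ)) -
      (tl1 / ((Wf w X : ℝ) : ℂ) - tl2 / ((Wf w X' : ℝ) : ℂ)) := by
    have e5 : ∑ d ∈ DrG m r, ((vW w x₀ lam m r d : ℝ) : ℂ) * Tt β γ d =
        (∑ d ∈ DrG m r, (w (d.1 / X) : ℂ) * Tt β γ d) / ((Wf w X : ℝ) : ℂ) -
        (∑ d ∈ DrG m r, (w (d.1 / X') : ℂ) * Tt β γ d) / ((Wf w X' : ℝ) : ℂ) := by
      rw [sum_div, sum_div, ← sum_sub_distrib]
      apply sum_congr rfl
      intro d _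
      unfold vW
      rw [← hX, ← hX']
      push_cast
      ring
    have e6 : ∑ d ∈ DrG m r, (w (d.1 / X) : ℂ) * Tt β γ d = cb β * S1 - tl1 := by
      rw [sp1]; ring
    have e7 : ∑ d ∈ DrG m r, (w (d.1 / X') : ℂ) * Tt β γ d = cb β * S2 - tl2 := by
      rw [sp2]; ring
    rw [e5, e6, e7]
    ring
  have hdiff : ‖S1 / ((Wf w X : ℝ) : ℂ) - S2 / ((Wf w X' : ℝ) : ℂ)‖ ≤
      2 * (|K| * (x₀ ^ (-η) * P)) := by
    rw [← q1, ← q2]
    have e8 : (avg w X (fun d => L d (1 / 2 + -β) / L d (1 / 2 + γ)) -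
        avg w X (fun d => Xd d (1 / 2 + -β)) * Phi β γ) -
        (avg w X' (fun d => L d (1 / 2 + -β) / L d (1 / 2 + γ)) -
        avg w X' (fun d => Xd d (1 / 2 + -β)) * Phi β γ) =
        (avg w X (fun d => L d (1 / 2 + -β) / L d (1 / 2 + γ)) -
        (Phi (-β) γ + avg w X (fun d => Xd d (1 / 2 + -β)) * Phi β γ)) -
        (avg w X' (fun d => L d (1 / 2 + -β) / L d (1 / 2 + γ)) -
        (Phi (-β) γ + avg w X' (fun d => Xd d (1 / 2 + -β)) * Phi β γ)) := by ring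
    rw [e8]
    refine (norm_sub_le _ _).trans ?_
    linarith
  have htail : ∀ (z : ℂ) (W0 : ℝ), 1 ≤ W0 → ‖z‖ ≤ P * Q → ‖z / ((W0 : ℝ) : ℂ)‖ ≤ P * Q := by
    intro z W0 hW0 hz
    rw [norm_div, norm_real, Real.norm_eq_abs, abs_of_pos (by linarith)]
    refine le_trans ?_ hz
    exact div_le_self (norm_nonneg _) hW0
  have n1 := htail tl1 _ hW1 (tb1.trans hMb)
  have n2 := htail tl2 _ hW2 (tb2.trans hMb)
  rw [key]
  refine (norm_sub_le _ _).trans ?_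
  rw [norm_mul]
  have n3 := norm_sub_le (tl1 / ((Wf w X : ℝ) : ℂ)) (tl2 / ((Wf w X' : ℝ) : ℂ))
  have n4 := mul_le_mul hcb hdiff (norm_nonneg _) (by positivity)
  calc _ ≤ 2 * CH * Q * (2 * (|K| * (x₀ ^ (-η) * P))) + (P * Q + P * Q) := by linarith
    _ = _ := by ring

/-- the coefficients: size, and positivity on a window -/
theorem vW_bounds {w : ℝ → ℝ} (hw : SW w) {s t c : ℝ} (hs : 0 < s) (hst : s < t) (hc : 0 < c)
    (hwc : ∀ x, s ≤ x → x ≤ t → c ≤ w x) :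
    ∃ x₀ lam ρ c₁ X₁ : ℝ, 0 < x₀ ∧ 1 ≤ lam ∧ 1 < ρ ∧ ρ ≤ 6 / 5 ∧ 0 < c₁ ∧
      (∀ X ≥ X₁, c₁ * X ≤ Wf w X) ∧ ∀ m : ℕ, ∃ Cv cv : ℝ, 0 < Cv ∧ 0 < cv ∧
      ∃ r₀ : ℕ, ∀ r : ℕ, r₀ ≤ r → (∀ d, |vW w x₀ lam m r d| ≤ Cv / (r : ℝ) ^ (m + 4)) ∧
        ∀ e ∈ SrG m ρ r, cv / (r : ℝ) ^ (m + 4) ≤ vW w x₀ lam m r e := by
  obtain ⟨C0, C2, h0, h2, h0', h2'⟩ := hw.bd
  obtain ⟨CW, hCW, hup⟩ := Wf_upper hw
  obtain ⟨c₁, X₁, hc₁, hX₁, hlow⟩ := Wf_lower hw hs hst hc hwc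
  set lam : ℝ := 2 * C0 * CW / (c₁ * c) + 1 with hlam
  have hlam1 : 1 ≤ lam := by
    rw [hlam]
    have : 0 ≤ 2 * C0 * CW / (c₁ * c) := by positivity
    linarith
  have hlam0 : 0 < lam := by linarith
  have hts : 1 < t / s := by rw [one_lt_div hs]; exact hst
  set ρ : ℝ := min (6 / 5) (t / s) with hρ
  refine ⟨1 / s, lam, ρ, c₁, X₁, by positivity, hlam1, by
    rw [hρ, lt_min_iff]; exact ⟨by norm_num, hts⟩, min_le_left _ _, hc₁, hlow, fun m => ?_⟩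
  refine ⟨2 * C0 * s / c₁, c * s / (2 * CW), by positivity, by positivity, ?_⟩
  refine ⟨⌈s * X₁⌉₊ + 1, fun r hr => ?_⟩
  have hr1 : s * X₁ ≤ r := by
    have a1 : s * X₁ ≤ ⌈s * X₁⌉₊ := Nat.le_ceil _
    have a2 : ((⌈s * X₁⌉₊ : ℕ) : ℝ) ≤ r := by
      have : ⌈s * X₁⌉₊ ≤ r := by omega
      exact_mod_cast this
    linarith
  have hr1' : 1 ≤ r := by omega
  have hrone : (1 : ℝ) ≤ r := by exact_mod_cast hr1'
  have hr0 : (0 : ℝ) < r := by linarith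
  have hrp : (r : ℝ) ≤ (r : ℝ) ^ (m + 4) := by
    calc (r : ℝ) = (r : ℝ) ^ 1 := (pow_one _).symm
      _ ≤ _ := pow_le_pow_right₀ hrone (by omega)
  have hR0 : 0 < (r : ℝ) ^ (m + 4) := by positivity
  set R := (r : ℝ) ^ (m + 4) with hR
  have eX : 1 / s * R = R / s := by ring
  have hX1 : X₁ ≤ R / s := by
    rw [le_div_iff₀ hs]
    linarith
  have hX0 : 0 < R / s := by positivity
  have hXone : 1 ≤ R / s := hX₁.trans hX1
  have hX2 : X₁ ≤ lam * (R / s) := by nlinarith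
  have w1 := hlow _ hX1
  have w2 := hlow _ hX2
  have w3 := hup _ hXone
  have hW1 : 0 < Wf w (R / s) := lt_of_lt_of_le (by positivity) w1
  have hW2 : 0 < Wf w (lam * (R / s)) := lt_of_lt_of_le (by positivity) w2
  have ub : ∀ x Y : ℝ, 0 < Y → c₁ * Y ≤ Wf w Y → w x / Wf w Y ≤ C0 / (c₁ * Y) := by
    intro x Y hY h
    exact div_le_div₀ h0.le (h0' x) (by positivity) h
  constructor
  · intro d
    unfold vW
    rw [← hR, eX]
    have u1 := ub (d.1 / (R / s)) (R / s) hX0 w1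
    have u2 := ub (d.1 / (lam * (R / s))) (lam * (R / s)) (by positivity) w2
    have u3 : C0 / (c₁ * (lam * (R / s))) ≤ C0 / (c₁ * (R / s)) := by
      apply div_le_div_of_nonneg_left h0.le (by positivity)
      apply mul_le_mul_of_nonneg_left _ hc₁.le
      nlinarith
    have u4 : C0 / (c₁ * (R / s)) + C0 / (c₁ * (R / s)) = 2 * C0 * s / c₁ / R := by
      field_simp
      ring
    have p1 : 0 ≤ w (d.1 / (R / s)) / Wf w (R / s) := div_nonneg (hw.nonneg _) hW1.le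
    have p2 : 0 ≤ w (d.1 / (lam * (R / s))) / Wf w (lam * (R / s)) :=
      div_nonneg (hw.nonneg _) hW2.le
    refine (abs_sub _ _).trans ?_
    rw [abs_of_nonneg p1, abs_of_nonneg p2]
    linarith
  · intro e he
    have hρ2 : ρ ≤ 2 := (min_le_left _ _).trans (by norm_num)
    rw [mem_SrG hρ2, ← hR] at he
    obtain ⟨he1, he2⟩ := he
    unfold vW
    rw [← hR, eX]
    have u2 := ub (e.1 / (lam * (R / s))) (lam * (R / s)) (by positivity) w2
    have v1 : c ≤ w (e.1 / (R / s)) := by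
      apply hwc
      · rw [le_div_iff₀ hX0]
        have : s * (R / s) = R := by field_simp
        linarith
      · rw [div_le_iff₀ hX0]
        have : t * (R / s) = t / s * R := by ring
        rw [this]
        refine he2.trans ?_
        exact mul_le_mul_of_nonneg_right (min_le_right _ _) hR0.le
    have v2 : c / (CW * (R / s)) ≤ w (e.1 / (R / s)) / Wf w (R / s) := by
      apply div_le_div₀ (hw.nonneg _) v1 hW1 w3
    have v3 : C0 / (c₁ * (lam * (R / s))) ≤ c / (CW * (R / s)) / 2 := by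
      rw [div_div, div_le_div_iff₀ (by positivity) (by positivity)]
      have : c₁ * c * lam = 2 * C0 * CW + c₁ * c := by
        rw [hlam]
        field_simp
      have h5 : C0 * (CW * (R / s) * 2) ≤ (c₁ * c * lam) * (R / s) := by
        rw [this]
        have : 0 < c₁ * c * (R / s) := by positivity
        nlinarith
      linarith
    have v4 : c / (CW * (R / s)) / 2 = c * s / (2 * CW) / R := by
      field_simp
    linarith

end Pool.Agent.KS6_76.RT
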