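import Pool.Agent.KS6_76.RT.Off2
import Pool.Agent.KS6_76.RT.EB2

/-! The contradiction. -/

set_option autoImplicit false

namespace Pool.Agent.KS6_76.RT

open Finset Complex MeasureTheory Pool.Agent.H491R3

theorem exps {a η : ℝ} {m : ℕ} {r : ℝ} (hr : 1 ≤ r)
    (hE : 15 + 1 ≤ ((m : ℝ) + 4) * (η - 1 / 2 + 2 * a)) (ha1 : a ≤ 1 / 2) :
    r ^ 12 * ((r ^ (m + 4)) ^ (-η) * (r ^ (m + 2)) ^ (-a) *
      (Real.sqrt (r ^ (m + 8)) * (r ^ (m + 4)) ^ (-a))) ≤ r⁻¹ := by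
  have hr0 : 0 < r := by linarith
  have e1 : ∀ (k : ℕ) (y : ℝ), (r ^ k) ^ y = r ^ ((k : ℝ) * y) := by
    intro k y
    rw [← Real.rpow_natCast, ← Real.rpow_mul hr0.le]
  have e0 : r ^ 12 = r ^ (12 : ℝ) := by
    rw [← Real.rpow_natCast]
    norm_num
  rw [Real.sqrt_eq_rpow, e1, e1, e1, e1, e0, ← Real.rpow_add hr0, ← Real.rpow_add hr0,
    ← Real.rpow_add hr0, ← Real.rpow_add hr0]
  have e2 : r⁻¹ = r ^ (-1 : ℝ) := by
    rw [Real.rpow_neg_one]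
  rw [e2]
  apply Real.rpow_le_rpow_of_exponent_le hr
  push_cast
  nlinarith

theorem UR_false (hG : GRH) {w : ℝ → ℝ} (hw : SW w) {s t c : ℝ} (hs : 0 < s) (hst : s < t)
    (hc : 0 < c) (hwc : ∀ x, s ≤ x → x ≤ t → c ≤ w x) {a η ε c₀ C₀ : ℝ} (ha0 : 0 < a)
    (ha1 : a < 1 / 2) (hε : 0 < ε) (hε1 : ε ≤ 1 / 100) (hη : 0 ≤ η)
    (hδ : 17 * ε ≤ η - 1 / 2 + 2 * a) (hC₀ : 0 < C₀) : ¬ UR w a η ε c₀ C₀ := by
  intro hUR
  obtain ⟨x₀, lam, ρ, c₁, X₁, hx₀, hlam, hρ1, hρ, hc₁, hlow, hvw⟩ := vW_bounds hw hs hst hc hwc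
  set δ := η - 1 / 2 + 2 * a with hδdef
  -- the scale
  obtain ⟨m, hm96, hmε, hm16⟩ : ∃ m : ℕ, 96 ≤ m ∧ ε * ((m : ℝ) + 4) ≤ 1 ∧
      15 + 1 ≤ ((m : ℝ) + 4) * δ := by
    have h100 : (100 : ℝ) ≤ 1 / ε := by
      rw [le_div_iff₀ hε]
      linarith
    set A := ⌊1 / ε⌋₊ with hA
    have hA100 : 100 ≤ A := Nat.le_floor (by exact_mod_cast h100)
    have hA1 : (A : ℝ) ≤ 1 / ε := Nat.floor_le (by positivity)
    have hA2 : 1 / ε < A + 1 := Nat.lt_floor_add_one _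
    refine ⟨A - 4, by omega, ?_, ?_⟩
    · have : (((A - 4 : ℕ) : ℕ) : ℝ) + 4 = A := by
        rw [Nat.cast_sub (by omega)]
        norm_num
      rw [this]
      rw [le_div_iff₀ hε] at hA1
      linarith
    · have : (((A - 4 : ℕ) : ℕ) : ℝ) + 4 = A := by
        rw [Nat.cast_sub (by omega)]
        norm_num
      rw [this]
      have hA100' : (100 : ℝ) ≤ A := by exact_mod_cast hA100
      have hδ0 : 0 < δ := by linarith
      rcases le_total δ 1 with h | h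
      · rw [div_lt_iff₀ hε] at hA2
        have h1 : ((A : ℝ) + 1) * (17 * ε) ≤ (A + 1) * δ :=
          mul_le_mul_of_nonneg_left hδ (by linarith)
        linarith
      · nlinarith
  obtain ⟨Cv, cv, hCv, hcv, r₀, hr₀⟩ := hvw m
  obtain ⟨K, hK0, r₁, hr₁⟩ := E1G_bound hG hw hc₁ hlow (a := a) (η := η) (ε := ε) (c₀ := c₀)
    (C₀ := C₀) (x₀ := x₀) (lam := lam) ha0 ha1 hη (m := m) (by omega) hmε hC₀ hx₀ hlam hUR
  obtain ⟨r₂, hr₂⟩ := SrG_count (m := m) hρ1 (by linarith : ρ ≤ 2)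
  obtain ⟨C, hC⟩ := mmG_upper hG ha0 ha1.le
  set κ := (ρ - 1) * cv / 20 with hκ
  have hκ0 : 0 < κ := by
    rw [hκ]
    have : 0 < ρ - 1 := by linarith
    positivity
  have hev : ∀ᶠ r : ℕ in Filter.atTop, 20000 ≤ r ∧ r₀ ≤ r ∧ r₁ ≤ r ∧ r₂ ≤ r ∧ C ≤ r ∧
      2 * (m + 5 : ℝ) ≤ r ∧ 8 * 1088 * Cv / κ ≤ r ∧ 24 * 16 * K / κ ≤ r ∧ Cv ≤ r ∧
      (r : ℝ) ^ (m + 10) * Real.exp (-((r : ℝ) / 4)) ≤ κ / (8 * Cv) ∧
      (r : ℝ) ^ (61 * m + 1666) * Real.exp (-((r : ℝ) / 4)) ≤ κ / 16 := by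
    have hcast := tendsto_natCast_atTop_atTop (R := ℝ)
    filter_upwards [Filter.eventually_ge_atTop 20000, Filter.eventually_ge_atTop r₀,
      Filter.eventually_ge_atTop r₁, Filter.eventually_ge_atTop r₂,
      hcast.eventually_ge_atTop C, hcast.eventually_ge_atTop (2 * (m + 5 : ℝ)),
      hcast.eventually_ge_atTop (8 * 1088 * Cv / κ),
      hcast.eventually_ge_atTop (24 * 16 * K / κ), hcast.eventually_ge_atTop Cv,
      ev_small (m + 10) (κ / (8 * Cv)) (by positivity),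
      ev_small (61 * m + 1666) (κ / 16) (by positivity)] with r h1 h2 h3 h4 h5 h6 h7 h8 h9 h10 h11
    exact ⟨h1, h2, h3, h4, h5, h6, h7, h8, h9, h10, h11⟩
  obtain ⟨r, g1, g2, g3, g4, g5, g6, g7, g8, g9, g10, g11⟩ := hev.exists
  have hr20 : (20000 : ℝ) ≤ r := by exact_mod_cast g1
  have hr1000 : (1000 : ℝ) ≤ r := by linarith
  have hr0 : (0 : ℝ) < r := by linarith
  have hr1 : (1 : ℝ) ≤ r := by linarith
  obtain ⟨hv, hv2⟩ := hr₀ r g2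
  have hS := hr₂ r g4
  have hP := PQ_card_lower r g1
  have hlower := mmG_lower (m := m) (by omega) hρ hr1000 hcv.le hv hv2
  set P : ℝ := (#(PQ r) : ℝ) with hPdef
  have hP0 : 0 < P := lt_of_lt_of_le (by positivity) hP
  set τ := Real.exp (-((r : ℝ) / 4)) with hτ
  have hτ0 : 0 < τ := Real.exp_pos _
  have hX : 0 < (r : ℝ) ^ (m + 4) := by positivity
  have hv1 : ∀ d, |vW w x₀ lam m r d| ≤ 1 := by
    intro d
    refine (hv d).trans ?_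
    rw [div_le_one hX]
    refine g9.trans ?_
    calc (r : ℝ) = (r : ℝ) ^ 1 := (pow_one _).symm
      _ ≤ _ := pow_le_pow_right₀ hr1 (by omega)
  -- the upper bound
  have hupper : ‖∑ p ∈ PQ r, mmG (vW w x₀ lam m r) m ρ r p‖ ≤ P * (κ / 8) := by
    refine (norm_sum_le _ _).trans ?_
    have h1 : ∀ p ∈ PQ r, ‖mmG (vW w x₀ lam m r) m ρ r p‖ ≤ κ / 8 := by
      intro p hp
      obtain ⟨p1, -, p3, p4, -⟩ := mem_PQ hp (by omega)
      have h2 := hC m ρ r p (by omega) hρ hr1000 g5 p1 p3 p4 (vW w x₀ lam m r)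
        (K * (((r : ℝ) ^ (m + 4)) ^ (-η) * ((r : ℝ) ^ (m + 2)) ^ (-a))) hv1 (by positivity)
        (fun t u ht1 ht2 hu => hr₁ r g3 t u ht1 ht2 hu)
      have h3 := exps (a := a) (η := η) (m := m) hr1 hm16 ha1.le
      have h4 : 4 * (r : ℝ) ^ 12 * (K * (((r : ℝ) ^ (m + 4)) ^ (-η) *
          ((r : ℝ) ^ (m + 2)) ^ (-a)) * lamG a m r) = 24 * K * ((r : ℝ) ^ 12 *
          (((r : ℝ) ^ (m + 4)) ^ (-η) * ((r : ℝ) ^ (m + 2)) ^ (-a) *
          (Real.sqrt ((r : ℝ) ^ (m + 8)) * ((r : ℝ) ^ (m + 4)) ^ (-a)))) := by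
        unfold lamG
        ring
      rw [h4] at h2
      have h5 : 24 * K * ((r : ℝ) ^ 12 *
          (((r : ℝ) ^ (m + 4)) ^ (-η) * ((r : ℝ) ^ (m + 2)) ^ (-a) *
          (Real.sqrt ((r : ℝ) ^ (m + 8)) * ((r : ℝ) ^ (m + 4)) ^ (-a)))) ≤ κ / 16 := by
        calc _ ≤ 24 * K * (r : ℝ)⁻¹ := by gcongr
          _ ≤ κ / 16 := by
            rw [div_le_iff₀ hκ0] at g8
            rw [mul_inv_le_iff₀ hr0]
            linarith
      linarith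
    refine (sum_le_sum h1).trans ?_
    rw [sum_const, nsmul_eq_mul]
  have hre : (∑ p ∈ PQ r, mmG (vW w x₀ lam m r) m ρ r p).re ≤ P * (κ / 8) :=
    (re_le_norm _).trans hupper
  -- the lower bound
  have b1 : κ * (P / 2) ≤ #(SrG m ρ r) * (cv / (r : ℝ) ^ (m + 4)) * (P - (m + 5)) := by
    have h1 : κ ≤ #(SrG m ρ r) * (cv / (r : ℝ) ^ (m + 4)) := by
      calc κ = ((ρ - 1) * (r : ℝ) ^ (m + 4) / 20) * (cv / (r : ℝ) ^ (m + 4)) := by
            rw [hκ]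
            field_simp
        _ ≤ _ := by gcongr
    have h2 : P / 2 ≤ P - (m + 5) := by
      have h3 : (r : ℝ) ≤ (r : ℝ) ^ 19 := by
        calc (r : ℝ) = (r : ℝ) ^ 1 := (pow_one _).symm
          _ ≤ _ := pow_le_pow_right₀ hr1 (by norm_num)
      linarith
    exact mul_le_mul h1 h2 (by linarith) (by positivity)
  have hsq : Real.sqrt P ≤ P * ((r : ℝ) ^ 9)⁻¹ := by
    have h1 : (r : ℝ) ^ 9 ≤ Real.sqrt P := by
      apply Real.le_sqrt_of_sq_le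
      calc ((r : ℝ) ^ 9) ^ 2 = (r : ℝ) ^ 18 := by ring
        _ ≤ (r : ℝ) ^ 19 := pow_le_pow_right₀ hr1 (by norm_num)
        _ ≤ P := hP
    rw [← div_eq_mul_inv, le_div_iff₀ (by positivity)]
    calc Real.sqrt P * (r : ℝ) ^ 9 ≤ Real.sqrt P * Real.sqrt P := by gcongr
      _ = P := Real.mul_self_sqrt hP0.le
  have b2 : (Cv / (r : ℝ) ^ (m + 4)) * (1088 * (r : ℝ) ^ (m + 11) * Real.sqrt P) ≤
      P * (κ / 8) := by
    calc (Cv / (r : ℝ) ^ (m + 4)) * (1088 * (r : ℝ) ^ (m + 11) * Real.sqrt P) ≤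
        (Cv / (r : ℝ) ^ (m + 4)) * (1088 * (r : ℝ) ^ (m + 11) * (P * ((r : ℝ) ^ 9)⁻¹)) := by
          gcongr
      _ = P * (1088 * Cv * ((r : ℝ) ^ 2)⁻¹) := by
          have : (r : ℝ) ^ (m + 11) = (r : ℝ) ^ (m + 4) * (r : ℝ) ^ 7 := by ring
          rw [this]
          field_simp
      _ ≤ P * (1088 * Cv * (r : ℝ)⁻¹) := by
          have : ((r : ℝ) ^ 2)⁻¹ ≤ (r : ℝ)⁻¹ := by
            apply inv_anti₀ hr0
            nlinarith
          gcongr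
      _ ≤ P * (κ / 8) := by
          apply mul_le_mul_of_nonneg_left _ hP0.le
          rw [div_le_iff₀ hκ0] at g7
          rw [mul_inv_le_iff₀ hr0]
          linarith
  have b3 : (Cv / (r : ℝ) ^ (m + 4)) * ((r : ℝ) ^ (2 * m + 14) * (P * τ)) ≤ P * (κ / 8) := by
    calc (Cv / (r : ℝ) ^ (m + 4)) * ((r : ℝ) ^ (2 * m + 14) * (P * τ)) =
        P * (Cv * ((r : ℝ) ^ (m + 10) * τ)) := by
          have : (r : ℝ) ^ (2 * m + 14) = (r : ℝ) ^ (m + 4) * (r : ℝ) ^ (m + 10) := by ring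
          rw [this]
          field_simp
      _ ≤ P * (Cv * (κ / (8 * Cv))) := by gcongr
      _ = P * (κ / 8) := by field_simp
  have b4 : (Cv / (r : ℝ) ^ (m + 4)) * (1088 * (r : ℝ) ^ (m + 11) * Real.sqrt P +
      (r : ℝ) ^ (2 * m + 14) * (P * τ)) ≤ P * (κ / 8) + P * (κ / 8) := by
    rw [mul_add]
    exact add_le_add b2 b3
  have h9 : 0 < P * κ := by positivity
  linarith

end Pool.Agent.KS6_76.RT
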