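import Pool.Agent.KS6_76.RT.Dp3
import Pool.Graph.R_seed8.H491R3.Lower

/-! The lower bound: the diagonal against the off-diagonal terms. -/

set_option autoImplicit false

namespace Pool.Agent.KS6_76.RT

open Finset Complex MeasureTheory Pool.Agent.H491R3

theorem sum_inj_gen {ι : Type*} (A : Finset ι) (f : ι → ℕ) (J : Finset ℕ) (F : ℕ → ℝ)
    (hF : ∀ n, 0 ≤ F n) (hA : ∀ a ∈ A, f a ∈ J) (hi : Set.InjOn f A) :
    ∑ a ∈ A, F (f a) ≤ ∑ n ∈ J, F n := by
  classical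
  rw [← sum_image (f := F) hi]
  apply sum_le_sum_of_subset_of_nonneg
  · intro n hn
    rw [mem_image] at hn
    obtain ⟨d, hd, rfl⟩ := hn
    exact hA d hd
  · intro n _ _
    exact hF n

/-- the off-diagonal term for shift `n` -/
noncomputable def offn (m r n : ℕ) (d e : OddSqf) : ℝ :=
  if |(d.1 : ℝ)| = n * |(e.1 : ℝ)| then 0 else
    |GG r d e| * Real.exp (-(((r : ℝ) ^ m) ^ 2 * (ll d e - Real.log n) ^ 2 / 4))

theorem offn_nonneg (m r n : ℕ) (d e : OddSqf) : 0 ≤ offn m r n d e := by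
  unfold offn
  split_ifs
  · exact le_rfl
  · positivity

/-- the `n`-th part of the summand -/
noncomputable def trm (v : OddSqf → ℝ) (m r n : ℕ) (d e : OddSqf) : ℝ :=
  v d * Wr d * Wr e * GG r d e * (kr d n * (Real.sqrt n)⁻¹ *
    (sg d * Kap ((r : ℝ) ^ m) ((r : ℝ) ^ (m + 2)) (ll d e - Real.log n)).re)

theorem sum_mmG (v : OddSqf → ℝ) (m : ℕ) (ρ : ℝ) (r : ℕ) :
    (∑ p ∈ PQ r, mmG v m ρ r p).re =
    ∑ d ∈ DrG m r, ∑ e ∈ SrG m ρ r, ∑ n ∈ Icc 1 (2 * r), trm v m r n d e := by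
  have h1 : ∑ p ∈ PQ r, mmG v m ρ r p = ∑ d ∈ DrG m r, ∑ e ∈ SrG m ρ r,
      ((v d * Wr d * Wr e * GG r d e : ℝ) : ℂ) *
      (sg d * SL d (2 * r) ((r : ℝ) ^ m) ((r : ℝ) ^ (m + 2)) (ll d e)) := by
    unfold mmG
    rw [sum_comm]
    apply sum_congr rfl
    intro d _
    rw [sum_comm]
    apply sum_congr rfl
    intro e _
    rw [← sum_mul]
    congr 1
    unfold GG
    push_cast
    rw [mul_sum]
    apply sum_congr rfl
    intro p _
    ring
  rw [h1, re_sum]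
  apply sum_congr rfl
  intro d _
  rw [re_sum]
  apply sum_congr rfl
  intro e _
  rw [re_ofReal_mul]
  unfold trm SL
  rw [mul_sum, re_sum, mul_sum]
  apply sum_congr rfl
  intro n _
  congr 1
  have : sg d * ((kr d n : ℂ) * (((Real.sqrt n)⁻¹ : ℝ) : ℂ) *
      Kap ((r : ℝ) ^ m) ((r : ℝ) ^ (m + 2)) (ll d e - Real.log n)) =
      ((kr d n * (Real.sqrt n)⁻¹ : ℝ) : ℂ) *
      (sg d * Kap ((r : ℝ) ^ m) ((r : ℝ) ^ (m + 2)) (ll d e - Real.log n)) := by
    push_cast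
    ring
  rw [this, re_ofReal_mul]

/-- the character vanishes when the shift divides -/
theorem kr_zero {d : OddSqf} {n : ℕ} (hn : 2 ≤ n) (h : n ∣ d.1.natAbs) : kr d n = 0 := by
  unfold kr
  rw [kron8_eq_zero]
  · norm_num
  · intro hc
    have h1 : n ∣ 8 * d.1.natAbs := h.mul_left 8
    have h2 := Nat.Coprime.eq_one_of_dvd hc h1
    omega

theorem trm_lower (v : OddSqf → ℝ) (m r : ℕ) {n : ℕ} (hn : 1 ≤ n) {d e : OddSqf}
    (he : 0 < e.1) :
    (if n = 1 ∧ d = e then v d * GG r d d else 0) - |v d| * offn m r n d e ≤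
    trm v m r n d e := by
  have hn0 : (0 : ℝ) < n := by exact_mod_cast hn
  have hepos : (0 : ℝ) < e.1 := by exact_mod_cast he
  unfold trm offn
  by_cases habs : |(d.1 : ℝ)| = n * |(e.1 : ℝ)|
  · rw [if_pos habs, mul_zero, sub_zero]
    by_cases hn1 : n = 1
    · subst hn1
      rw [Nat.cast_one, one_mul] at habs
      have hl : ll d e - Real.log ((1 : ℕ) : ℝ) = 0 := by
        unfold ll
        rw [habs, sub_self, Nat.cast_one, Real.log_one, sub_zero]
      rw [hl, Kap_zero, mul_one, kr_one, Nat.cast_one, Real.sqrt_one, inv_one, mul_one, one_mul]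
      by_cases hde : d = e
      · rw [if_pos ⟨rfl, hde⟩]
        subst hde
        have hsg : sg d = 1 := by unfold sg; rw [if_pos he]
        rw [hsg, one_re, mul_one]
        have := Wr_sq d
        apply le_of_eq
        calc v d * GG r d d = v d * (Wr d * Wr d) * GG r d d := by rw [this, mul_one]
          _ = _ := by ring
      · rw [if_neg (fun h => hde h.2)]
        rcases abs_eq_cases d e habs with h | h
        · exact absurd (Subtype.ext h) hde
        · have hneg : ¬ (0 < d.1) := by omega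
          have hsg : sg d = I := by unfold sg; rw [if_neg hneg]
          rw [hsg, I_re, mul_zero]
    · rw [if_neg (fun h => hn1 h.1)]
      have hdvd : n ∣ d.1.natAbs := by
        have h1 : ((d.1.natAbs : ℕ) : ℝ) = ((n * e.1.natAbs : ℕ) : ℝ) := by
          push_cast
          rw [← abs_natAbs, ← abs_natAbs]
          exact habs
        have h2 : d.1.natAbs = n * e.1.natAbs := by exact_mod_cast h1
        rw [h2]
        exact dvd_mul_right _ _
      rw [kr_zero (by omega) hdvd]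
      simp
  · rw [if_neg habs]
    have hne : ¬ (n = 1 ∧ d = e) := by
      rintro ⟨rfl, rfl⟩
      apply habs
      rw [Nat.cast_one, one_mul]
    rw [if_neg hne, zero_sub]
    have h1 : |(sg d * Kap ((r : ℝ) ^ m) ((r : ℝ) ^ (m + 2)) (ll d e - Real.log n)).re| ≤
        Real.exp (-(((r : ℝ) ^ m) ^ 2 * (ll d e - Real.log n) ^ 2 / 4)) := by
      refine (abs_re_le_norm _).trans ?_
      rw [norm_mul, sg_norm, one_mul, Kap_norm]
    have h2 : |v d * Wr d * Wr e * GG r d e| = |v d| * |GG r d e| := by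
      rw [abs_mul, abs_mul, abs_mul, Wr_abs, Wr_abs]
      ring
    have h5 : |kr d n * (Real.sqrt n)⁻¹| ≤ 1 := by
      rw [abs_mul, abs_of_nonneg (show 0 ≤ (Real.sqrt n)⁻¹ by positivity)]
      calc _ ≤ (1 : ℝ) * 1 := mul_le_mul (kr_abs d n) (inv_sqrt_le hn) (by positivity) zero_le_one
        _ = 1 := one_mul 1
    have h3 := neg_abs_le (v d * Wr d * Wr e * GG r d e * (kr d n * (Real.sqrt n)⁻¹ *
      (sg d * Kap ((r : ℝ) ^ m) ((r : ℝ) ^ (m + 2)) (ll d e - Real.log n)).re))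
    rw [abs_mul, h2, abs_mul (kr d n * (Real.sqrt n)⁻¹)] at h3
    have h4 : |v d| * |GG r d e| * (|kr d n * (Real.sqrt n)⁻¹| *
        |(sg d * Kap ((r : ℝ) ^ m) ((r : ℝ) ^ (m + 2)) (ll d e - Real.log n)).re|) ≤
        |v d| * |GG r d e| *
          (1 * Real.exp (-(((r : ℝ) ^ m) ^ 2 * (ll d e - Real.log n) ^ 2 / 4))) := by
      gcongr
    linarith

/-- few of the primes divide a given `d` -/
theorem few_divisorsG {m r : ℕ} (hr : 3 ≤ r) {d : OddSqf} (hd : d ∈ DrG m r) :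
    #((PQ r).filter (fun p => p ∣ d.1.natAbs)) ≤ m + 5 := by
  set Q' := (PQ r).filter (fun p => p ∣ d.1.natAbs) with hQ'
  have hdpos : 0 < d.1.natAbs := Int.natAbs_pos.2 d.ne_zero
  have h1 : ∏ p ∈ Q', p ∣ d.1.natAbs := by
    apply Finset.prod_primes_dvd
    · intro p hp
      rw [hQ', mem_filter] at hp
      exact Nat.prime_iff.1 (mem_PQ hp.1 (by omega)).1
    · intro p hp
      rw [hQ', mem_filter] at hp
      exact hp.2
  have h2 : (r ^ 10) ^ #Q' ≤ ∏ p ∈ Q', p := by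
    apply Finset.pow_card_le_prod
    intro p hp
    rw [hQ', mem_filter] at hp
    have := (mem_PQ hp.1 (by omega)).2.2.1
    exact_mod_cast this
  have h3 : d.1.natAbs ≤ r ^ (m + 5) := by
    rw [mem_DrG, abs_natAbs] at hd
    exact_mod_cast hd
  have h4 := Nat.le_of_dvd hdpos h1
  have h5 : r ^ (10 * #Q') ≤ r ^ (m + 5) := by
    rw [pow_mul]
    exact h2.trans (h4.trans h3)
  have h6 := (Nat.pow_le_pow_iff_right (by omega)).1 h5
  omega

theorem GG_diagG {m r : ℕ} (hr : 3 ≤ r) {d : OddSqf} (hd : d ∈ DrG m r) :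
    (#(PQ r) : ℝ) - (m + 5) ≤ GG r d d := by
  classical
  unfold GG
  have h1 : ∀ p ∈ PQ r, (1 : ℝ) - (if p ∣ d.1.natAbs then 1 else 0) ≤ kr d p * kr d p := by
    intro p hp
    obtain ⟨p1, p2, -, -, p5⟩ := mem_PQ hp (by omega)
    by_cases h : p ∣ d.1.natAbs
    · rw [if_pos h, sub_self]
      exact mul_self_nonneg _
    · rw [if_neg h, sub_zero, kr_mul d d p5]
      have h2 : jacobiSym (d.1 * d.1) p = 1 := by
        rw [← sq]
        apply jacobiSym.sq_one'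
        have : Nat.Coprime p d.1.natAbs := (Nat.Prime.coprime_iff_not_dvd p1).2 h
        rw [Int.gcd_eq_natAbs]
        simpa using this.symm
      rw [h2]
      norm_num
  have h2 := sum_le_sum h1
  refine le_trans ?_ h2
  rw [sum_sub_distrib, sum_const, nsmul_eq_mul, mul_one, ← sum_filter, sum_const, nsmul_eq_mul,
    mul_one]
  have h3 : ((#((PQ r).filter (fun p => p ∣ d.1.natAbs)) : ℕ) : ℝ) ≤ ((m + 5 : ℕ) : ℝ) := by
    exact_mod_cast few_divisorsG hr hd
  push_cast at h3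
  linarith

theorem SrG_sub {m : ℕ} {ρ : ℝ} (hρ : ρ ≤ 6 / 5) {r : ℕ} (hr : 2 ≤ r) : SrG m ρ r ⊆ DrG m r := by
  intro d hd
  obtain ⟨-, -, -, h⟩ := SrG_window hρ hd
  rw [mem_DrG]
  have hr' : (2 : ℝ) ≤ r := by exact_mod_cast hr
  have : 0 < (r : ℝ) ^ (m + 4) := by positivity
  calc |(d.1 : ℝ)| ≤ 6 / 5 * (r : ℝ) ^ (m + 4) := h
    _ ≤ r * (r : ℝ) ^ (m + 4) := by nlinarith
    _ = _ := by ring

/-- the start of the window for the shift `n` -/
def Nw (m r n : ℕ) : ℕ := n * ((r - 1) * r ^ (m + 3))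

theorem Nw_cast {m r n : ℕ} (hr : 1 ≤ r) :
    ((Nw m r n : ℕ) : ℝ) = n * (((r : ℝ) - 1) * (r : ℝ) ^ (m + 3)) := by
  unfold Nw
  push_cast [Nat.cast_sub hr]
  ring

/-- shifts of the window stay in the dyadic range -/
theorem shift_mem {m : ℕ} {ρ : ℝ} (hρ : ρ ≤ 6 / 5) {r : ℕ} (hr : 1000 ≤ (r : ℝ)) {n : ℕ}
    (hn : 1 ≤ n) {e : OddSqf} (he : e ∈ SrG m ρ r) :
    n * e.1.natAbs ∈ Ico (Nw m r n) (2 * Nw m r n) := by
  have hrn : 1 ≤ r := by
    have : (1 : ℝ) ≤ r := by linarith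
    exact_mod_cast this
  obtain ⟨-, -, h3, h4⟩ := SrG_window hρ he
  rw [abs_natAbs] at h3 h4
  have hn0 : (0 : ℝ) < n := by exact_mod_cast hn
  have hR : 0 < (r : ℝ) ^ (m + 3) := by positivity
  have e1 : (r : ℝ) ^ (m + 4) = r * (r : ℝ) ^ (m + 3) := by ring
  rw [e1] at h3 h4
  rw [mem_Ico]
  constructor
  · have : ((Nw m r n : ℕ) : ℝ) ≤ ((n * e.1.natAbs : ℕ) : ℝ) := by
      rw [Nw_cast hrn]
      push_cast
      apply mul_le_mul_of_nonneg_left _ hn0.le
      nlinarith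
    exact_mod_cast this
  · have : ((n * e.1.natAbs : ℕ) : ℝ) < ((2 * Nw m r n : ℕ) : ℝ) := by
      push_cast
      rw [Nw_cast hrn]
      have h5 : ((e.1.natAbs : ℕ) : ℝ) < 2 * (((r : ℝ) - 1) * (r : ℝ) ^ (m + 3)) := by
        have : 6 / 5 * (r * (r : ℝ) ^ (m + 3)) < 2 * (((r : ℝ) - 1) * (r : ℝ) ^ (m + 3)) := by
          nlinarith
        linarith
      calc (n : ℝ) * ((e.1.natAbs : ℕ) : ℝ) < n * (2 * (((r : ℝ) - 1) * (r : ℝ) ^ (m + 3))) :=
            mul_lt_mul_of_pos_left h5 hn0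
        _ = _ := by ring
    exact_mod_cast this

/-- outside the dyadic range the Gaussian is negligible -/
theorem gauss_out {m : ℕ} (hm : 2 ≤ m) {ρ : ℝ} (hρ : ρ ≤ 6 / 5) {r : ℕ} (hr : 1000 ≤ (r : ℝ))
    {n : ℕ} (hn : 1 ≤ n) {d e : OddSqf} (he : e ∈ SrG m ρ r)
    (hd : d.1.natAbs ∉ Ico (Nw m r n) (2 * Nw m r n)) :
    Real.exp (-(((r : ℝ) ^ m) ^ 2 * (ll d e - Real.log n) ^ 2 / 4)) ≤
      Real.exp (-((r : ℝ) / 4)) := by
  have hrn : 1 ≤ r := by
    have : (1 : ℝ) ≤ r := by linarith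
    exact_mod_cast this
  have hr0 : (0 : ℝ) < r := by linarith
  have hr1 : (1 : ℝ) ≤ r := by linarith
  obtain ⟨-, -, h3, h4⟩ := SrG_window hρ he
  have hn0 : (0 : ℝ) < n := by exact_mod_cast hn
  have hR : 0 < (r : ℝ) ^ (m + 3) := by positivity
  have e1 : (r : ℝ) ^ (m + 4) = r * (r : ℝ) ^ (m + 3) := by ring
  have hd0 : 0 < |(d.1 : ℝ)| := by
    have := abs_ge_one d
    linarith
  have he0 : 0 < |(e.1 : ℝ)| := by
    have := abs_ge_one e
    linarith
  set x := |(d.1 : ℝ)| with hx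
  set y := n * |(e.1 : ℝ)| with hy
  have hy0 : 0 < y := by positivity
  have hll : ll d e - Real.log n = Real.log x - Real.log y := by
    unfold ll
    rw [hy, Real.log_mul hn0.ne' he0.ne']
    ring
  have hlow : (n : ℝ) * (r * (r : ℝ) ^ (m + 3)) ≤ y := by
    rw [hy]
    apply mul_le_mul_of_nonneg_left _ hn0.le
    rw [← e1]
    exact h3.le
  have hhigh : y ≤ 6 / 5 * (n * (r * (r : ℝ) ^ (m + 3))) := by
    rw [hy]
    calc (n : ℝ) * |(e.1 : ℝ)| ≤ n * (6 / 5 * (r : ℝ) ^ (m + 4)) :=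
          mul_le_mul_of_nonneg_left h4 hn0.le
      _ = _ := by rw [e1]; ring
  have hq : 0 < (n : ℝ) * (r : ℝ) ^ (m + 3) := by positivity
  have key : 1 / r ≤ |Real.log x - Real.log y| := by
    rw [mem_Ico, not_and_or, not_le, not_lt] at hd
    rcases hd with hd | hd
    · have h5 : x ≤ n * (((r : ℝ) - 1) * (r : ℝ) ^ (m + 3)) := by
        rw [hx, abs_natAbs, ← Nw_cast hrn]
        exact_mod_cast hd.le
      have h6 : x / y ≤ 1 - 1 / r := by
        rw [div_le_iff₀ hy0]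
        have h7 : (1 - 1 / (r : ℝ)) * (n * (r * (r : ℝ) ^ (m + 3))) =
            n * (((r : ℝ) - 1) * (r : ℝ) ^ (m + 3)) := by
          field_simp
        have h8 : 0 ≤ 1 - 1 / (r : ℝ) := by
          have : 1 / (r : ℝ) ≤ 1 := by
            rw [div_le_one hr0]
            exact hr1
          linarith
        calc x ≤ (1 - 1 / (r : ℝ)) * (n * (r * (r : ℝ) ^ (m + 3))) := by rw [h7]; exact h5
          _ ≤ _ := mul_le_mul_of_nonneg_left hlow h8
      have h9 := Real.log_le_sub_one_of_pos (show 0 < x / y by positivity)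
      rw [Real.log_div hd0.ne' hy0.ne'] at h9
      have h10 : Real.log x - Real.log y ≤ -(1 / r) := by linarith
      rw [abs_of_nonpos (by have : 0 < 1 / (r : ℝ) := by positivity
                            linarith)]
      linarith
    · have h5 : 2 * (n * (((r : ℝ) - 1) * (r : ℝ) ^ (m + 3))) ≤ x := by
        rw [hx, abs_natAbs, ← Nw_cast hrn]
        exact_mod_cast hd
      have h6 : y / x ≤ 1 - 1 / r := by
        rw [div_le_iff₀ hd0]
        have h8 : 1 / (r : ℝ) ≤ 1 / 1000 := by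
          apply one_div_le_one_div_of_le (by norm_num) hr
        have h9 : 6 / 5 * (n * (r * (r : ℝ) ^ (m + 3))) ≤
            (1 - 1 / 1000) * (2 * (n * (((r : ℝ) - 1) * (r : ℝ) ^ (m + 3)))) := by
          have : 6 / 5 * (r * (n * (r : ℝ) ^ (m + 3))) ≤
            (1 - 1 / 1000) * (2 * (((r : ℝ) - 1) * (n * (r : ℝ) ^ (m + 3)))) := by
            have h10 : 6 / 5 * (r : ℝ) ≤ (1 - 1 / 1000) * (2 * ((r : ℝ) - 1)) := by linarith
            have := mul_le_mul_of_nonneg_right h10 hq.le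
            linarith
          linarith
        calc y ≤ (1 - 1 / 1000) * (2 * (n * (((r : ℝ) - 1) * (r : ℝ) ^ (m + 3)))) :=
              hhigh.trans h9
          _ ≤ (1 - 1 / 1000) * x := by gcongr
          _ ≤ (1 - 1 / (r : ℝ)) * x := by gcongr
      have h9 := Real.log_le_sub_one_of_pos (show 0 < y / x by positivity)
      rw [Real.log_div hy0.ne' hd0.ne'] at h9
      have h10 : 1 / r ≤ Real.log x - Real.log y := by linarith
      exact h10.trans (le_abs_self _)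
  apply Real.exp_le_exp.2
  rw [hll]
  have h11 : (1 / (r : ℝ)) ^ 2 ≤ (Real.log x - Real.log y) ^ 2 := by
    rw [← sq_abs (Real.log x - Real.log y)]
    exact pow_le_pow_left₀ (by positivity) key 2
  have h12 : (r : ℝ) ≤ ((r : ℝ) ^ m) ^ 2 * (1 / (r : ℝ)) ^ 2 := by
    have h13 : ((r : ℝ) ^ 2) ^ 2 ≤ ((r : ℝ) ^ m) ^ 2 := by
      apply pow_le_pow_left₀ (by positivity)
      exact pow_le_pow_right₀ hr1 hm
    calc (r : ℝ) ≤ r * r := by nlinarith
      _ = ((r : ℝ) ^ 2) ^ 2 * (1 / (r : ℝ)) ^ 2 := by field_simp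
      _ ≤ _ := by gcongr
  have h14 : ((r : ℝ) ^ m) ^ 2 * (1 / (r : ℝ)) ^ 2 ≤
      ((r : ℝ) ^ m) ^ 2 * (Real.log x - Real.log y) ^ 2 := by gcongr
  linarith

/-- the correlations in terms of Jacobi symbols at the shifted point -/
theorem GG_eqn {r : ℕ} (hr : 3 ≤ r) {d e : OddSqf} {σ : ℤ} (hd : d.1 = σ * d.1.natAbs)
    (he : 0 < e.1) {n : ℕ} (hn : 1 ≤ n) (hn2 : n ≤ 2 * r) :
    GG r d e = ∑ p ∈ PQ r, (((jacobiSym σ p : ℤ) : ℝ) * ((jacobiSym (n : ℤ) p : ℤ) : ℝ)) *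
      ((jacobiSym ((d.1.natAbs : ℤ) * ((n * e.1.natAbs : ℕ) : ℤ)) p : ℤ) : ℝ) := by
  rw [GG_eq (by omega) hd he]
  apply sum_congr rfl
  intro p hp
  obtain ⟨p1, p2, p3, -, -⟩ := mem_PQ hp (by omega)
  have hlt : n < p := by
    have h1 : r ^ 10 ≤ p := by exact_mod_cast p3
    have h2 : 2 * r < r ^ 10 := by
      calc 2 * r < r * r := by nlinarith
        _ = r ^ 2 := by ring
        _ ≤ r ^ 10 := Nat.pow_le_pow_right (by omega) (by norm_num)
    omega
  have hsq : jacobiSym (n : ℤ) p * jacobiSym (n : ℤ) p = 1 := by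
    rw [← jacobiSym.mul_left, ← sq]
    apply jacobiSym.sq_one'
    have hc : Nat.Coprime n p := by
      apply Nat.Coprime.symm
      rw [Nat.Prime.coprime_iff_not_dvd p1]
      intro h
      have := Nat.le_of_dvd (by omega) h
      omega
    simpa [Int.gcd] using hc
  have h3 : ((d.1.natAbs : ℤ) * ((n * e.1.natAbs : ℕ) : ℤ)) =
      (n : ℤ) * ((d.1.natAbs : ℤ) * e.1.natAbs) := by
    push_cast
    ring
  have h4 : ((jacobiSym (n : ℤ) p : ℤ) : ℝ) * ((jacobiSym (n : ℤ) p : ℤ) : ℝ) = 1 := by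
    exact_mod_cast hsq
  rw [h3, jacobiSym.mul_left (n : ℤ)]
  rw [Int.cast_mul (jacobiSym (n : ℤ) p)]
  calc _ = ((jacobiSym σ p : ℤ) : ℝ) * (((jacobiSym (n : ℤ) p : ℤ) : ℝ) *
        ((jacobiSym (n : ℤ) p : ℤ) : ℝ)) *
      ((jacobiSym ((d.1.natAbs : ℤ) * e.1.natAbs) p : ℤ) : ℝ) := by rw [h4, mul_one]
    _ = _ := by ring

end Pool.Agent.KS6_76.RT
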