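import Pool.Agent.KS6_76.RT.Off
import Pool.Graph.R_seed8.H491R3.PrimeCnt
import Pool.Graph.R_seed8.H491R3.Tiny

/-! The lower bound: the sum of the off-diagonal terms. -/

set_option autoImplicit false

namespace Pool.Agent.KS6_76.RT

open Finset Complex MeasureTheory Pool.Agent.H491R3

/-- the comparison sum over pairs of integers -/
noncomputable def HPn (m r : ℕ) (σ : ℤ) (n k : ℕ) : ℝ :=
  ∑ l ∈ Ico (Nw m r n) (2 * Nw m r n), (if k = l then 0 else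
    kg ((n * r ^ 4 : ℕ) : ℝ) ((k : ℝ) - l) * |∑ p ∈ PQ r, (((jacobiSym σ p : ℤ) : ℝ) *
      ((jacobiSym (n : ℤ) p : ℤ) : ℝ)) * ((jacobiSym ((k : ℤ) * l) p : ℤ) : ℝ)|)

theorem HPn_nonneg (m r : ℕ) (σ : ℤ) (n k : ℕ) : 0 ≤ HPn m r σ n k := by
  unfold HPn
  apply sum_nonneg
  intro l _
  split_ifs
  · exact le_rfl
  · have := kg_pos ((n * r ^ 4 : ℕ) : ℝ) ((k : ℝ) - l)
    positivity

theorem off_in {m : ℕ} {ρ : ℝ} (hρ : ρ ≤ 6 / 5) {r : ℕ} (hr : 1000 ≤ (r : ℝ)) {n : ℕ}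
    (hn : 1 ≤ n) (hn2 : n ≤ 2 * r) {d : OddSqf} {σ : ℤ} (hd : d.1 = σ * d.1.natAbs)
    (hdw : d.1.natAbs ∈ Ico (Nw m r n) (2 * Nw m r n)) :
    ∑ e ∈ SrG m ρ r, offn m r n d e ≤ HPn m r σ n d.1.natAbs := by
  have hrn : 3 ≤ r := by
    have : (3 : ℝ) ≤ r := by linarith
    exact_mod_cast this
  have hr0 : (0 : ℝ) < r := by linarith
  have hn0 : (0 : ℝ) < n := by exact_mod_cast hn
  have hinj : Set.InjOn (fun e : OddSqf => n * e.1.natAbs) (SrG m ρ r) := by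
    intro x hx y hy hxy
    have hx1 := (SrG_window hρ (mem_coe.1 hx)).2.1
    have hy1 := (SrG_window hρ (mem_coe.1 hy)).2.1
    have h1 : n * x.1.natAbs = n * y.1.natAbs := hxy
    have h2 := Nat.eq_of_mul_eq_mul_left (by omega) h1
    apply Subtype.ext
    omega
  have h := sum_inj_gen (SrG m ρ r) (fun e : OddSqf => n * e.1.natAbs)
    (Ico (Nw m r n) (2 * Nw m r n)) (fun l => if d.1.natAbs = l then 0 else
    kg ((n * r ^ 4 : ℕ) : ℝ) (((d.1.natAbs : ℕ) : ℝ) - l) *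
      |∑ p ∈ PQ r, (((jacobiSym σ p : ℤ) : ℝ) *
      ((jacobiSym (n : ℤ) p : ℤ) : ℝ)) *
        ((jacobiSym (((d.1.natAbs : ℕ) : ℤ) * l) p : ℤ) : ℝ)|) (fun l => by
      have := kg_pos ((n * r ^ 4 : ℕ) : ℝ) (((d.1.natAbs : ℕ) : ℝ) - l)
      split_ifs <;> positivity)
    (fun e he => shift_mem hρ hr hn he) hinj
  refine le_trans ?_ h
  apply sum_le_sum
  intro e he
  obtain ⟨-, e2, e3, e4⟩ := SrG_window hρ he
  unfold offn
  by_cases habs : |(d.1 : ℝ)| = n * |(e.1 : ℝ)|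
  · rw [if_pos habs, if_pos]
    rw [abs_natAbs, abs_natAbs] at habs
    exact_mod_cast habs
  · rw [if_neg habs, if_neg]
    · have hd0 : 0 < |(d.1 : ℝ)| := by
        have := abs_ge_one d
        linarith
      have he0 : 0 < |(e.1 : ℝ)| := by
        have := abs_ge_one e
        linarith
      have hX : (0 : ℝ) < (r : ℝ) ^ (m + 4) := by positivity
      have hX3 : (0 : ℝ) < (r : ℝ) ^ (m + 3) := by positivity
      have hd2 : |(d.1 : ℝ)| ≤ 2 * ((n : ℝ) * (r : ℝ) ^ (m + 4)) := by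
        rw [mem_Ico] at hdw
        have h1 : ((d.1.natAbs : ℕ) : ℝ) ≤ ((2 * Nw m r n : ℕ) : ℝ) := by exact_mod_cast hdw.2.le
        push_cast at h1
        rw [Nw_cast (by omega)] at h1
        rw [abs_natAbs]
        have h2 : ((r : ℝ) - 1) * (r : ℝ) ^ (m + 3) ≤ (r : ℝ) ^ (m + 4) := by
          have : (r : ℝ) ^ (m + 4) = r * (r : ℝ) ^ (m + 3) := by ring
          rw [this]
          nlinarith
        have h3 := mul_le_mul_of_nonneg_left h2 hn0.le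
        linarith
      have hy2 : (n : ℝ) * |(e.1 : ℝ)| ≤ 2 * ((n : ℝ) * (r : ℝ) ^ (m + 4)) := by
        have := mul_le_mul_of_nonneg_left e4 hn0.le
        have h3 : 0 ≤ (n : ℝ) * (r : ℝ) ^ (m + 4) := by positivity
        linarith
      have h1 := kapG (m := m) (n₀ := n) (r := r) (by omega) hn hd0
        (show 0 < (n : ℝ) * |(e.1 : ℝ)| by positivity) hd2 hy2
      rw [GG_eqn hrn hd e2 hn hn2, mul_comm]
      have hll : ll d e - Real.log n = Real.log |(d.1 : ℝ)| - Real.log (n * |(e.1 : ℝ)|) := by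
        unfold ll
        rw [Real.log_mul hn0.ne' he0.ne']
        ring
      rw [hll]
      apply mul_le_mul_of_nonneg_right _ (abs_nonneg _)
      have h5 : (((n * e.1.natAbs : ℕ) : ℕ) : ℝ) = n * |(e.1 : ℝ)| := by
        rw [abs_natAbs]
        push_cast
        ring
      rw [h5, ← abs_natAbs]
      exact h1
    · intro h
      apply habs
      rw [abs_natAbs, abs_natAbs]
      exact_mod_cast h

theorem off_out {m : ℕ} (hm : 2 ≤ m) {ρ : ℝ} (hρ : ρ ≤ 6 / 5) {r : ℕ} (hr : 1000 ≤ (r : ℝ))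
    {n : ℕ} (hn : 1 ≤ n) {d : OddSqf}
    (hdw : d.1.natAbs ∉ Ico (Nw m r n) (2 * Nw m r n)) :
    ∑ e ∈ SrG m ρ r, offn m r n d e ≤
      (r : ℝ) ^ (m + 4) * (#(PQ r) * Real.exp (-((r : ℝ) / 4))) := by
  have h1 : ∀ e ∈ SrG m ρ r, offn m r n d e ≤ #(PQ r) * Real.exp (-((r : ℝ) / 4)) := by
    intro e he
    unfold offn
    split_ifs
    · positivity
    · exact mul_le_mul (GG_le r d e) (gauss_out hm hρ hr hn he hdw) (Real.exp_pos _).le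
        (Nat.cast_nonneg _)
  refine (sum_le_sum h1).trans ?_
  rw [sum_const, nsmul_eq_mul]
  exact mul_le_mul_of_nonneg_right (SrG_card hρ r) (by positivity)

theorem HPn_sum {m : ℕ} (hm : 57 ≤ m) {r : ℕ} (hr : 1000 ≤ (r : ℝ)) (σ : ℤ) {n : ℕ}
    (hn : 1 ≤ n) (hn2 : n ≤ 2 * r) :
    ∑ k ∈ Ico (Nw m r n) (2 * Nw m r n), HPn m r σ n k ≤
      272 * (r : ℝ) ^ (m + 10) * Real.sqrt #(PQ r) +
        (r : ℝ) ^ (2 * m + 11) * (#(PQ r) * Real.exp (-((r : ℝ) / 4))) := by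
  have hrn : 3 ≤ r := by
    have : (3 : ℝ) ≤ r := by linarith
    exact_mod_cast this
  have hr0 : (0 : ℝ) < r := by linarith
  have hr1 : (1 : ℝ) ≤ r := by linarith
  have hn0 : (0 : ℝ) < n := by exact_mod_cast hn
  have hn1 : (1 : ℝ) ≤ n := by exact_mod_cast hn
  have hn2' : (n : ℝ) ≤ 2 * r := by exact_mod_cast hn2
  have hY : 1 ≤ n * r ^ 4 := Nat.one_le_iff_ne_zero.2 (by positivity)
  have hNw : ((Nw m r n : ℕ) : ℝ) = n * (((r : ℝ) - 1) * (r : ℝ) ^ (m + 3)) := Nw_cast (by omega)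
  have hX3 : (0 : ℝ) < (r : ℝ) ^ (m + 3) := by positivity
  have hNlow : (r : ℝ) ^ 60 ≤ ((Nw m r n : ℕ) : ℝ) := by
    rw [hNw]
    have h1 : (r : ℝ) ^ 60 ≤ (r : ℝ) ^ (m + 3) := pow_le_pow_right₀ hr1 (by omega)
    have h2 : (r : ℝ) ^ (m + 3) ≤ ((r : ℝ) - 1) * (r : ℝ) ^ (m + 3) := by nlinarith
    have h3 : 0 ≤ ((r : ℝ) - 1) * (r : ℝ) ^ (m + 3) := by nlinarith
    nlinarith
  have hNhigh : ((Nw m r n : ℕ) : ℝ) ≤ 2 * (r : ℝ) ^ (m + 5) := by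
    rw [hNw]
    have h2 : ((r : ℝ) - 1) * (r : ℝ) ^ (m + 3) ≤ (r : ℝ) ^ (m + 4) := by
      have : (r : ℝ) ^ (m + 4) = r * (r : ℝ) ^ (m + 3) := by ring
      rw [this]
      nlinarith
    calc (n : ℝ) * (((r : ℝ) - 1) * (r : ℝ) ^ (m + 3)) ≤ (2 * r) * (r : ℝ) ^ (m + 4) := by
          apply mul_le_mul hn2' h2 (by nlinarith) (by positivity)
      _ = _ := by ring
  have hN0 : (0 : ℝ) ≤ ((Nw m r n : ℕ) : ℝ) := Nat.cast_nonneg _
  have h := pair_char (Y := n * r ^ 4) (N := Nw m r n) hY (Q := PQ r) (B := (r : ℝ) ^ 10)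
    (C := (r : ℝ) ^ 20) (by positivity) (fun p hp => by
      obtain ⟨a, b, c, d, -⟩ := mem_PQ hp (by omega)
      exact ⟨a, b, c, d⟩) (fun p => ((jacobiSym σ p : ℤ) : ℝ) * ((jacobiSym (n : ℤ) p : ℤ) : ℝ))
      (fun p _ => by
        rw [abs_mul]
        calc _ ≤ (1 : ℝ) * 1 := mul_le_mul (jac_abs _ _) (jac_abs _ _) (abs_nonneg _) zero_le_one
          _ = 1 := one_mul 1) (by
      have h1 := PQ_card_le r
      have h4 : (0 : ℝ) ≤ #(PQ r) := Nat.cast_nonneg _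
      calc (#(PQ r) : ℝ) * (((Nw m r n : ℕ) : ℝ) / ((r : ℝ) ^ 10) ^ 2 + ((r : ℝ) ^ 20) ^ 2) ≤
          (r : ℝ) ^ 20 * (((Nw m r n : ℕ) : ℝ) / ((r : ℝ) ^ 10) ^ 2 + ((r : ℝ) ^ 20) ^ 2) := by
            gcongr
        _ = ((Nw m r n : ℕ) : ℝ) + (r : ℝ) ^ 60 := by
          field_simp
        _ ≤ _ := by linarith)
  unfold HPn
  refine h.trans ?_
  have hP0 : (0 : ℝ) ≤ Real.sqrt #(PQ r) := Real.sqrt_nonneg _
  have hk : kg ((n * r ^ 4 : ℕ) : ℝ) ((r : ℝ) ^ 10) ≤ Real.exp (-((r : ℝ) / 4)) := by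
    unfold kg
    apply Real.exp_le_exp.2
    have h1 : (r : ℝ) / 4 ≤ ((r : ℝ) ^ 10) ^ 2 / (16 * (((n * r ^ 4 : ℕ) : ℝ)) ^ 2) := by
      rw [le_div_iff₀ (by positivity)]
      push_cast
      have h2 : ((n : ℝ) * (r : ℝ) ^ 4) ^ 2 ≤ (2 * r * (r : ℝ) ^ 4) ^ 2 := by gcongr
      calc (r : ℝ) / 4 * (16 * ((n : ℝ) * (r : ℝ) ^ 4) ^ 2) ≤
          (r : ℝ) / 4 * (16 * (2 * r * (r : ℝ) ^ 4) ^ 2) := by gcongr
        _ = 16 * (r : ℝ) ^ 11 := by ring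
        _ ≤ r * (r : ℝ) ^ 11 := by
          have : (16 : ℝ) ≤ r := by linarith
          gcongr
        _ = (r : ℝ) ^ 12 := by ring
        _ ≤ (r : ℝ) ^ 20 := pow_le_pow_right₀ hr1 (by norm_num)
        _ = _ := by ring
    linarith
  have t1 : 68 * ((n * r ^ 4 : ℕ) : ℝ) * ((Nw m r n : ℕ) : ℝ) * Real.sqrt #(PQ r) ≤
      272 * (r : ℝ) ^ (m + 10) * Real.sqrt #(PQ r) := by
    apply mul_le_mul_of_nonneg_right _ hP0
    push_cast
    calc 68 * ((n : ℝ) * (r : ℝ) ^ 4) * ((Nw m r n : ℕ) : ℝ) ≤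
        68 * ((2 * r) * (r : ℝ) ^ 4) * (2 * (r : ℝ) ^ (m + 5)) := by gcongr
      _ = _ := by ring
  have t2 : 2 * ((Nw m r n : ℕ) : ℝ) ^ 2 * #(PQ r) * kg ((n * r ^ 4 : ℕ) : ℝ) ((r : ℝ) ^ 10) ≤
      (r : ℝ) ^ (2 * m + 11) * (#(PQ r) * Real.exp (-((r : ℝ) / 4))) := by
    have hk0 := kg_pos ((n * r ^ 4 : ℕ) : ℝ) ((r : ℝ) ^ 10)
    calc 2 * ((Nw m r n : ℕ) : ℝ) ^ 2 * #(PQ r) * kg ((n * r ^ 4 : ℕ) : ℝ) ((r : ℝ) ^ 10) ≤
        2 * (2 * (r : ℝ) ^ (m + 5)) ^ 2 * #(PQ r) * Real.exp (-((r : ℝ) / 4)) := by gcongr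
      _ = 8 * ((r : ℝ) ^ (2 * m + 10) * (#(PQ r) * Real.exp (-((r : ℝ) / 4)))) := by ring
      _ ≤ r * ((r : ℝ) ^ (2 * m + 10) * (#(PQ r) * Real.exp (-((r : ℝ) / 4)))) := by
        have : (8 : ℝ) ≤ r := by linarith
        gcongr
      _ = _ := by ring
  linarith

/-- one shift, all discriminants -/
theorem off_shift {m : ℕ} (hm : 57 ≤ m) {ρ : ℝ} (hρ : ρ ≤ 6 / 5) {r : ℕ} (hr : 1000 ≤ (r : ℝ))
    {n : ℕ} (hn : 1 ≤ n) (hn2 : n ≤ 2 * r) :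
    ∑ d ∈ DrG m r, ∑ e ∈ SrG m ρ r, offn m r n d e ≤
      544 * (r : ℝ) ^ (m + 10) * Real.sqrt #(PQ r) +
        (r : ℝ) ^ (2 * m + 12) * (#(PQ r) * Real.exp (-((r : ℝ) / 4))) := by
  classical
  have hrn : 3 ≤ r := by
    have : (3 : ℝ) ≤ r := by linarith
    exact_mod_cast this
  have hr0 : (0 : ℝ) < r := by linarith
  have hr1 : (1 : ℝ) ≤ r := by linarith
  set J := Ico (Nw m r n) (2 * Nw m r n) with hJ
  set τ := #(PQ r) * Real.exp (-((r : ℝ) / 4)) with hτ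
  have hτ0 : 0 ≤ τ := by positivity
  set A := (DrG m r).filter (fun d => d.1.natAbs ∈ J) with hA
  set Ap := A.filter (fun d => 0 < d.1) with hAp
  set An := A.filter (fun d => ¬ 0 < d.1) with hAn
  have e1 : ∑ d ∈ DrG m r, ∑ e ∈ SrG m ρ r, offn m r n d e =
      ∑ d ∈ A, ∑ e ∈ SrG m ρ r, offn m r n d e +
      ∑ d ∈ (DrG m r).filter (fun d => ¬ d.1.natAbs ∈ J), ∑ e ∈ SrG m ρ r, offn m r n d e :=
    (sum_filter_add_sum_filter_not _ _ _).symm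
  have e2 : ∑ d ∈ A, ∑ e ∈ SrG m ρ r, offn m r n d e =
      ∑ d ∈ Ap, ∑ e ∈ SrG m ρ r, offn m r n d e + ∑ d ∈ An, ∑ e ∈ SrG m ρ r, offn m r n d e :=
    (sum_filter_add_sum_filter_not _ _ _).symm
  have b1 : ∑ d ∈ (DrG m r).filter (fun d => ¬ d.1.natAbs ∈ J), ∑ e ∈ SrG m ρ r,
      offn m r n d e ≤ 3 * (r : ℝ) ^ (2 * m + 9) * τ := by
    have h1 : ∀ d ∈ (DrG m r).filter (fun d => ¬ d.1.natAbs ∈ J), ∑ e ∈ SrG m ρ r,
        offn m r n d e ≤ (r : ℝ) ^ (m + 4) * τ := by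
      intro d hd
      rw [mem_filter] at hd
      exact off_out (by omega) hρ hr hn hd.2
    refine (sum_le_sum h1).trans ?_
    rw [sum_const, nsmul_eq_mul]
    have h2 : (#((DrG m r).filter (fun d => ¬ d.1.natAbs ∈ J)) : ℝ) ≤ 3 * (r : ℝ) ^ (m + 5) := by
      refine le_trans ?_ (DrG_card (m := m) (r := r) (by omega))
      exact_mod_cast card_filter_le _ _
    calc _ ≤ (3 * (r : ℝ) ^ (m + 5)) * ((r : ℝ) ^ (m + 4) * τ) := by gcongr
      _ = _ := by ring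
  have b2 : ∑ d ∈ Ap, ∑ e ∈ SrG m ρ r, offn m r n d e ≤
      272 * (r : ℝ) ^ (m + 10) * Real.sqrt #(PQ r) + (r : ℝ) ^ (2 * m + 11) * τ := by
    refine le_trans ?_ (HPn_sum hm hr 1 hn hn2)
    refine le_trans (sum_le_sum fun d hd => ?_) (sum_inj Ap J (fun k => HPn m r 1 n k)
      (fun k => HPn_nonneg _ _ _ _ _) (fun d hd => ?_) (Or.inl fun d hd => ?_))
    · rw [hAp, hA, mem_filter, mem_filter] at hd
      apply off_in hρ hr hn hn2 _ hd.1.2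
      rw [one_mul]
      omega
    · rw [hAp, hA, mem_filter, mem_filter] at hd
      exact hd.1.2
    · rw [hAp, mem_filter] at hd
      exact hd.2
  have b3 : ∑ d ∈ An, ∑ e ∈ SrG m ρ r, offn m r n d e ≤
      272 * (r : ℝ) ^ (m + 10) * Real.sqrt #(PQ r) + (r : ℝ) ^ (2 * m + 11) * τ := by
    refine le_trans ?_ (HPn_sum hm hr (-1) hn hn2)
    refine le_trans (sum_le_sum fun d hd => ?_) (sum_inj An J (fun k => HPn m r (-1) n k)
      (fun k => HPn_nonneg _ _ _ _ _) (fun d hd => ?_) (Or.inr fun d hd => ?_))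
    · rw [hAn, hA, mem_filter, mem_filter] at hd
      apply off_in hρ hr hn hn2 _ hd.1.2
      have := hd.2
      omega
    · rw [hAn, hA, mem_filter, mem_filter] at hd
      exact hd.1.2
    · rw [hAn, mem_filter] at hd
      have := hd.2
      have h0 := d.2.2.ne_zero
      omega
  rw [e1, e2]
  have c1 : 2 * ((r : ℝ) ^ (2 * m + 11) * τ) + 3 * (r : ℝ) ^ (2 * m + 9) * τ ≤
      (r : ℝ) ^ (2 * m + 12) * τ := by
    have h1 : (r : ℝ) ^ (2 * m + 9) ≤ (r : ℝ) ^ (2 * m + 11) := pow_le_pow_right₀ hr1 (by omega)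
    have h2 : (r : ℝ) ^ (2 * m + 12) = r * (r : ℝ) ^ (2 * m + 11) := by ring
    have h3 : 0 < (r : ℝ) ^ (2 * m + 11) := by positivity
    have h4 : 2 * (r : ℝ) ^ (2 * m + 11) + 3 * (r : ℝ) ^ (2 * m + 9) ≤ (r : ℝ) ^ (2 * m + 12) := by
      rw [h2]
      nlinarith
    have := mul_le_mul_of_nonneg_right h4 hτ0
    linarith
  linarith

/-- the lower bound -/
theorem mmG_lower {m : ℕ} (hm : 57 ≤ m) {ρ : ℝ} (hρ : ρ ≤ 6 / 5) {r : ℕ} (hr : 1000 ≤ (r : ℝ))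
    {v : OddSqf → ℝ} {Cv cv : ℝ} (hcv : 0 ≤ cv)
    (hv : ∀ d, |v d| ≤ Cv / (r : ℝ) ^ (m + 4))
    (hv2 : ∀ e ∈ SrG m ρ r, cv / (r : ℝ) ^ (m + 4) ≤ v e) :
    #(SrG m ρ r) * (cv / (r : ℝ) ^ (m + 4)) * ((#(PQ r) : ℝ) - (m + 5)) -
      (Cv / (r : ℝ) ^ (m + 4)) * (1088 * (r : ℝ) ^ (m + 11) * Real.sqrt #(PQ r) +
        (r : ℝ) ^ (2 * m + 14) * (#(PQ r) * Real.exp (-((r : ℝ) / 4)))) ≤
    (∑ p ∈ PQ r, mmG v m ρ r p).re := by
  classical
  have hrn : 3 ≤ r := by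
    have : (3 : ℝ) ≤ r := by linarith
    exact_mod_cast this
  have hr0 : (0 : ℝ) < r := by linarith
  have hr1 : (1 : ℝ) ≤ r := by linarith
  set τ := #(PQ r) * Real.exp (-((r : ℝ) / 4)) with hτ
  have hτ0 : 0 ≤ τ := by positivity
  set V := Cv / (r : ℝ) ^ (m + 4) with hV
  have hV0 : 0 ≤ V := le_trans (abs_nonneg _) (hv ⟨1, by decide, squarefree_one⟩)
  rw [sum_mmG]
  have h1 : ∀ d ∈ DrG m r, ∀ e ∈ SrG m ρ r, ∀ n ∈ Icc 1 (2 * r),
      (if n = 1 ∧ d = e then v d * GG r d d else 0) - V * offn m r n d e ≤ trm v m r n d e := by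
    intro d _ e he n hn
    rw [mem_Icc] at hn
    have h2 := trm_lower v m r hn.1 (d := d) (SrG_window hρ he).2.1
    have h3 := mul_le_mul_of_nonneg_right (hv d) (offn_nonneg m r n d e)
    linarith
  have h2 : ∑ d ∈ DrG m r, ∑ e ∈ SrG m ρ r, ∑ n ∈ Icc 1 (2 * r),
      ((if n = 1 ∧ d = e then v d * GG r d d else 0) - V * offn m r n d e) ≤
      ∑ d ∈ DrG m r, ∑ e ∈ SrG m ρ r, ∑ n ∈ Icc 1 (2 * r), trm v m r n d e :=
    sum_le_sum fun d hd => sum_le_sum fun e he => sum_le_sum fun n hn => h1 d hd e he n hn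
  refine le_trans ?_ h2
  have e1 : ∑ d ∈ DrG m r, ∑ e ∈ SrG m ρ r, ∑ n ∈ Icc 1 (2 * r),
      ((if n = 1 ∧ d = e then v d * GG r d d else 0) - V * offn m r n d e) =
      ∑ d ∈ DrG m r, ∑ e ∈ SrG m ρ r, ∑ n ∈ Icc 1 (2 * r),
        (if n = 1 ∧ d = e then v d * GG r d d else 0) -
      V * ∑ n ∈ Icc 1 (2 * r), ∑ d ∈ DrG m r, ∑ e ∈ SrG m ρ r, offn m r n d e := by
    have h3 : ∑ n ∈ Icc 1 (2 * r), ∑ d ∈ DrG m r, ∑ e ∈ SrG m ρ r, offn m r n d e =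
        ∑ d ∈ DrG m r, ∑ e ∈ SrG m ρ r, ∑ n ∈ Icc 1 (2 * r), offn m r n d e := by
      rw [sum_comm]
      apply sum_congr rfl
      intro d _
      exact sum_comm
    rw [h3, mul_sum, ← sum_sub_distrib]
    apply sum_congr rfl
    intro d _
    rw [mul_sum, ← sum_sub_distrib]
    apply sum_congr rfl
    intro e _
    rw [mul_sum, ← sum_sub_distrib]
  have e2 : ∑ d ∈ DrG m r, ∑ e ∈ SrG m ρ r, ∑ n ∈ Icc 1 (2 * r),
        (if n = 1 ∧ d = e then v d * GG r d d else 0) = ∑ e ∈ SrG m ρ r, v e * GG r e e := by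
    rw [sum_comm]
    apply sum_congr rfl
    intro e he
    rw [sum_eq_single e]
    · rw [sum_eq_single 1]
      · rw [if_pos ⟨rfl, rfl⟩]
      · intro n _ hn
        rw [if_neg (fun h => hn h.1)]
      · intro h
        exfalso
        apply h
        rw [mem_Icc]
        omega
    · intro d _ hde
      apply sum_eq_zero
      intro n _
      rw [if_neg (fun h => hde h.2)]
    · intro h
      exact absurd (SrG_sub hρ (by omega) he) h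
  rw [e1, e2]
  have b1 : #(SrG m ρ r) * (cv / (r : ℝ) ^ (m + 4)) * ((#(PQ r) : ℝ) - (m + 5)) ≤
      ∑ e ∈ SrG m ρ r, v e * GG r e e := by
    by_cases hP : (0 : ℝ) ≤ (#(PQ r) : ℝ) - (m + 5)
    · have h3 : ∀ e ∈ SrG m ρ r, (cv / (r : ℝ) ^ (m + 4)) * ((#(PQ r) : ℝ) - (m + 5)) ≤
          v e * GG r e e := by
        intro e he
        have h4 := GG_diagG (by omega : 3 ≤ r) (SrG_sub hρ (by omega : 2 ≤ r) he)
        have h5 := hv2 e he
        have h6 : 0 ≤ cv / (r : ℝ) ^ (m + 4) := by positivity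
        exact mul_le_mul h5 h4 hP (h6.trans h5)
      have h4 := sum_le_sum h3
      rw [sum_const, nsmul_eq_mul, ← mul_assoc] at h4
      exact h4
    · push Not at hP
      have h6 : 0 ≤ cv / (r : ℝ) ^ (m + 4) := by positivity
      have h7 : 0 ≤ #(SrG m ρ r) * (cv / (r : ℝ) ^ (m + 4)) := by positivity
      have h8 : #(SrG m ρ r) * (cv / (r : ℝ) ^ (m + 4)) * ((#(PQ r) : ℝ) - (m + 5)) ≤ 0 :=
        mul_nonpos_of_nonneg_of_nonpos h7 hP.le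
      refine h8.trans ?_
      apply sum_nonneg
      intro e he
      have h9 : 0 ≤ GG r e e := by
        unfold GG
        exact sum_nonneg fun p _ => mul_self_nonneg _
      exact mul_nonneg (h6.trans (hv2 e he)) h9
  have b2 : ∑ n ∈ Icc 1 (2 * r), ∑ d ∈ DrG m r, ∑ e ∈ SrG m ρ r, offn m r n d e ≤
      1088 * (r : ℝ) ^ (m + 11) * Real.sqrt #(PQ r) + (r : ℝ) ^ (2 * m + 14) * τ := by
    have h3 : ∀ n ∈ Icc 1 (2 * r), ∑ d ∈ DrG m r, ∑ e ∈ SrG m ρ r, offn m r n d e ≤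
        544 * (r : ℝ) ^ (m + 10) * Real.sqrt #(PQ r) + (r : ℝ) ^ (2 * m + 12) * τ := by
      intro n hn
      rw [mem_Icc] at hn
      exact off_shift hm hρ hr hn.1 hn.2
    refine (sum_le_sum h3).trans ?_
    rw [sum_const, Nat.card_Icc, nsmul_eq_mul]
    have h4 : ((2 * r + 1 - 1 : ℕ) : ℝ) = 2 * r := by
      push_cast [Nat.add_sub_cancel]
      ring
    rw [h4]
    have h5 : 2 * (r : ℝ) * (544 * (r : ℝ) ^ (m + 10) * Real.sqrt #(PQ r) +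
        (r : ℝ) ^ (2 * m + 12) * τ) = 1088 * (r : ℝ) ^ (m + 11) * Real.sqrt #(PQ r) +
        2 * ((r : ℝ) ^ (2 * m + 13) * τ) := by ring
    rw [h5]
    have h6 : 2 * ((r : ℝ) ^ (2 * m + 13) * τ) ≤ (r : ℝ) ^ (2 * m + 14) * τ := by
      calc 2 * ((r : ℝ) ^ (2 * m + 13) * τ) ≤ r * ((r : ℝ) ^ (2 * m + 13) * τ) := by
            have : (2 : ℝ) ≤ r := by linarith
            gcongr
        _ = _ := by ring
    linarith
  have b3 := mul_le_mul_of_nonneg_left b2 hV0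
  linarith

end Pool.Agent.KS6_76.RT
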